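import Mathlib

/-!
Part A: the algebra of a hypergraph, realised on the space of reduced words.
-/

namespace Pool.Agent.Lib.MP_f1fc44_al

open scoped Classical

noncomputable section

universe u1 u2 u3 u4

/-- Combinatorial data: slots `S` sitting at vertices `V` and grouped in finite sides `D`,
with an involution `opp` on the sides and a chosen slot `sp d` on every side. -/
structure HG where
  V : Type u1
  S : Type u2
  D : Type u3
  vt : S → V
  sd : S → D
  opp : D → D
  opp_opp : ∀ d, opp (opp d) = d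
  sp : D → S
  sd_sp : ∀ d, sd (sp d) = d
  fib : D → Finset S
  mem_fib : ∀ d p, p ∈ fib d ↔ sd p = d

namespace HG

variable (H : HG.{u1, u2, u3})

/-- raw words: a start vertex and a list of letters -/
abbrev Wd := H.V × List (H.S × H.S)

variable {H}

def Va (a : H.S × H.S) : Prop := H.sd a.2 = H.opp (H.sd a.1)

def Spc (p : H.S) : Prop := p = H.sp (H.sd p)

def Cf (a b : H.S × H.S) : Prop := a.2 = b.1 ∧ Spc a.2

def J (a b : H.S × H.S) : Prop := H.vt a.2 = H.vt b.1 ∧ ¬ Cf a b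

def Ok (x : H.Wd) : Prop :=
  (∀ a ∈ x.2, Va a) ∧ x.2.IsChain J ∧ ∀ a ∈ x.2.head?, H.vt a.1 = x.1

def en (x : H.Wd) : H.V := (x.2.getLast?.map (fun a => H.vt a.2)).getD x.1

theorem en_nil (u : H.V) : en ((u, []) : H.Wd) = u := rfl

theorem en_append_cons (u : H.V) (l : List (H.S × H.S)) (a : H.S × H.S) :
    en ((u, l ++ [a]) : H.Wd) = H.vt a.2 := by
  simp [en]

theorem en_cons (u v : H.V) (a : H.S × H.S) (l : List (H.S × H.S)) (hv : v = H.vt a.2) :
    en ((u, a :: l) : H.Wd) = en ((v, l) : H.Wd) := by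
  subst hv
  rcases List.eq_nil_or_concat l with rfl | ⟨l', b, rfl⟩
  · simp [en]
  · simp [en, List.getLast?_cons]

theorem en_append (u v : H.V) (l l' : List (H.S × H.S)) (hv : v = en ((u, l) : H.Wd)) :
    en ((u, l ++ l') : H.Wd) = en ((v, l') : H.Wd) := by
  induction l generalizing u with
  | nil => subst hv; rfl
  | cons a l ih =>
    rw [List.cons_append, en_cons u _ a _ rfl]
    apply ih
    rw [hv, en_cons u _ a _ rfl]

theorem ok_nil (u : H.V) : Ok ((u, []) : H.Wd) := by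
  refine ⟨by simp, by simp, by simp⟩

theorem ok_cons (u : H.V) (a : H.S × H.S) (l : List (H.S × H.S)) :
    Ok ((u, a :: l) : H.Wd) ↔ Va a ∧ H.vt a.1 = u ∧ (∀ b ∈ l.head?, ¬ Cf a b) ∧
      Ok ((H.vt a.2, l) : H.Wd) := by
  unfold Ok
  rw [List.isChain_cons]
  simp only [List.mem_cons, forall_eq_or_imp, List.head?_cons, Option.mem_def, Option.some.injEq,
    forall_eq', J]
  constructor
  · rintro ⟨⟨h1, h2⟩, ⟨h3, h4⟩, h5⟩
    exact ⟨h1, h5, fun b hb => (h3 b hb).2, h2, h4, fun b hb => (h3 b hb).1.symm⟩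
  · rintro ⟨h1, h5, h3, h2, h4, h6⟩
    exact ⟨⟨h1, h2⟩, ⟨fun b hb => ⟨(h6 b hb).symm, h3 b hb⟩, h4⟩, h5⟩

theorem ok_append (u v : H.V) (l l' : List (H.S × H.S)) (hv : v = en ((u, l) : H.Wd)) :
    Ok ((u, l ++ l') : H.Wd) ↔ Ok ((u, l) : H.Wd) ∧ Ok ((v, l') : H.Wd) ∧
      ∀ a ∈ l.getLast?, ∀ b ∈ l'.head?, ¬ Cf a b := by
  induction l generalizing u with
  | nil => subst hv; simp [ok_nil]
  | cons a l ih =>
    have hv' : v = en ((H.vt a.2, l) : H.Wd) := by rw [hv, en_cons u _ a _ rfl]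
    rw [List.cons_append, ok_cons, ok_cons, ih _ hv']
    rcases l with _ | ⟨c, l⟩
    · simp only [List.nil_append, List.head?_nil, Option.mem_def, reduceCtorEq, false_imp_iff,
        implies_true, true_and, List.getLast?_nil, List.getLast?_singleton, Option.some.injEq,
        forall_eq', ok_nil, and_true]
      tauto
    · simp only [List.cons_append, List.head?_cons, Option.mem_def, Option.some.injEq, forall_eq',
        List.getLast?_cons_cons]
      tauto


/-! ### The operators -/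

theorem sum_comp' {K : Type*} [Field K] {M N P : Type*} [AddCommGroup M] [AddCommGroup N]
    [AddCommGroup P] [Module K M] [Module K N] [Module K P] {ι : Type*} (s : Finset ι)
    (f : ι → (N →ₗ[K] P)) (g : M →ₗ[K] N) : (∑ i ∈ s, f i) ∘ₗ g = ∑ i ∈ s, f i ∘ₗ g := by
  apply LinearMap.ext
  intro x
  simp [LinearMap.sum_apply]

variable (H) (K : Type u4) [Field K]

/-- the space of (raw) words -/
def HA := H.Wd →₀ K

instance : AddCommGroup (HA H K) := inferInstanceAs (AddCommGroup (H.Wd →₀ K))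
instance : Module K (HA H K) := inferInstanceAs (Module K (H.Wd →₀ K))

variable {H K}

/-- basis vector attached to a raw word -/
def sg (x : H.Wd) : HA H K := Finsupp.single x 1

/-- linear extension of a map from raw words -/
def lin {M : Type*} [AddCommGroup M] [Module K M] (f : H.Wd → M) : HA H K →ₗ[K] M :=
  Finsupp.linearCombination K f

theorem lin_sg {M : Type*} [AddCommGroup M] [Module K M] (f : H.Wd → M) (x : H.Wd) :
    lin f (sg x : HA H K) = f x := by
  unfold lin sg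
  erw [Finsupp.linearCombination_single]
  rw [one_smul]

theorem hom_ext {M : Type*} [AddCommGroup M] [Module K M] {f g : HA H K →ₗ[K] M}
    (h : ∀ x, f (sg x) = g (sg x)) : f = g := by
  apply Finsupp.lhom_ext'
  intro x
  apply LinearMap.ext_ring
  exact h x

def lopB (a : H.S × H.S) (x : H.Wd) : HA H K :=
  if Ok x ∧ Va a ∧ H.vt a.2 = x.1 then
    (match x.2 with
      | [] => sg (H.vt a.1, [a])
      | b :: l => if Cf a b then
          (if a.1 = b.2 then sg (H.vt b.2, l) else 0) -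
            ∑ j ∈ (H.fib (H.sd a.2)).erase a.2, sg (H.vt a.1, (a.1, j) :: (j, b.2) :: l)
        else sg (H.vt a.1, a :: b :: l))
  else 0

def lop (a : H.S × H.S) : HA H K →ₗ[K] HA H K := lin (lopB a)

def proj (u : H.V) : HA H K →ₗ[K] HA H K :=
  lin (fun x => if Ok x ∧ x.1 = u then sg x else 0)

theorem lop_sg (a : H.S × H.S) (x : H.Wd) : lop a (sg x : HA H K) = lopB a x := lin_sg _ _

theorem proj_sg (u : H.V) (x : H.Wd) :
    proj u (sg x : HA H K) = if Ok x ∧ x.1 = u then sg x else 0 := lin_sg _ _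

theorem lop_ne (a : H.S × H.S) (x : H.Wd) (h : ¬ (Ok x ∧ Va a ∧ H.vt a.2 = x.1)) :
    lop a (sg x : HA H K) = 0 := by
  rw [lop_sg, lopB, if_neg h]

theorem lop_nc (a : H.S × H.S) (u : H.V) (l : List (H.S × H.S)) (h1 : Ok ((u, l) : H.Wd))
    (h2 : Va a) (h3 : H.vt a.2 = u) (h4 : ∀ b ∈ l.head?, ¬ Cf a b) :
    lop a (sg (u, l) : HA H K) = sg (H.vt a.1, a :: l) := by
  rw [lop_sg, lopB, if_pos ⟨h1, h2, h3⟩]
  rcases l with _ | ⟨b, l⟩
  · rfl
  · have : ¬ Cf a b := h4 b (by simp)
    simp only [if_neg this]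

theorem lop_cf (a b : H.S × H.S) (u : H.V) (l : List (H.S × H.S)) (h1 : Ok ((u, b :: l) : H.Wd))
    (h2 : Va a) (h4 : Cf a b) :
    lop a (sg (u, b :: l) : HA H K) = (if a.1 = b.2 then sg (H.vt b.2, l) else 0) -
            ∑ j ∈ (H.fib (H.sd a.2)).erase a.2, sg (H.vt a.1, (a.1, j) :: (j, b.2) :: l) := by
  have h3 : H.vt a.2 = u := by
    rw [h4.1]; exact ((ok_cons _ _ _).1 h1).2.1
  rw [lop_sg, lopB, if_pos ⟨h1, h2, h3⟩]
  simp only [if_pos h4]

theorem ok_twin (u : H.V) (b : H.S × H.S) (l : List (H.S × H.S)) (h : Ok ((u, b :: l) : H.Wd))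
    (j : H.S) (hj : H.sd j = H.sd b.1) : Ok ((H.vt j, (j, b.2) :: l) : H.Wd) := by
  rw [ok_cons] at h ⊢
  obtain ⟨h1, h2, h3, h4⟩ := h
  refine ⟨?_, rfl, ?_, h4⟩
  · unfold Va at *; simpa [hj] using h1
  · intro c hc hcf
    exact h3 c hc hcf

theorem ok_twins (u : H.V) (a b : H.S × H.S) (l : List (H.S × H.S)) (h : Ok ((u, b :: l) : H.Wd))
    (ha : Va a) (hab : Cf a b)
    (j : H.S) (hj : j ∈ (H.fib (H.sd a.2)).erase a.2) :
    Ok ((H.vt a.1, (a.1, j) :: (j, b.2) :: l) : H.Wd) := by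
  rw [Finset.mem_erase, H.mem_fib] at hj
  obtain ⟨hj1, hj2⟩ := hj
  rw [ok_cons]
  refine ⟨?_, rfl, ?_, ?_⟩
  · unfold Va at *; simpa [hj2] using ha
  · intro c hc hcf
    have h5 := hcf.2
    unfold Spc at h5
    have h6 := hab.2
    unfold Spc at h6
    apply hj1
    simp only at h5
    rw [h5, hj2, ← h6]
  · apply ok_twin u b l h
    rw [hj2, hab.1]

/-- relation, in the absence of conflict -/
theorem rel_nc (p r : H.S) (hpr : H.sd p = H.sd r) (u : H.V) (l : List (H.S × H.S))
    (h1 : Ok ((u, l) : H.Wd)) (h3 : H.vt r = u) (h4 : ∀ b ∈ l.head?, ¬ (r = b.1 ∧ Spc r)) :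
    ∑ q ∈ H.fib (H.opp (H.sd p)), lop (p, q) (sg (H.vt q, (q, r) :: l) : HA H K) =
      if p = r then sg (u, l) else 0 := by
  set d := H.opp (H.sd p) with hd
  have hs : H.sp d ∈ H.fib d := by rw [H.mem_fib, H.sd_sp]
  have hok : ∀ q ∈ H.fib d, Ok ((H.vt q, (q, r) :: l) : H.Wd) := by
    intro q hq
    rw [H.mem_fib] at hq
    rw [ok_cons]
    refine ⟨?_, rfl, fun b hb hcf => h4 b hb ⟨hcf.1, hcf.2⟩, by simpa [h3] using h1⟩
    unfold Va
    simp only
    rw [hq, hd, H.opp_opp, hpr]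
  have hva : ∀ q ∈ H.fib d, Va ((p, q) : H.S × H.S) := by
    intro q hq
    rw [H.mem_fib] at hq
    exact hq
  rw [← Finset.add_sum_erase _ _ hs]
  have e1 : lop (p, H.sp d) (sg (H.vt (H.sp d), (H.sp d, r) :: l) : HA H K) =
      (if p = r then sg (H.vt r, l) else 0) -
        ∑ j ∈ (H.fib d).erase (H.sp d), sg (H.vt p, (p, j) :: (j, r) :: l) := by
    rw [lop_cf (p, H.sp d) (H.sp d, r) _ _ (hok _ hs) (hva _ hs)]
    · simp only [H.sd_sp]
    · exact ⟨rfl, by unfold Spc; simp only; rw [H.sd_sp]⟩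
  have e2 : ∀ q ∈ (H.fib d).erase (H.sp d),
      lop (p, q) (sg (H.vt q, (q, r) :: l) : HA H K) = sg (H.vt p, (p, q) :: (q, r) :: l) := by
    intro q hq
    rw [Finset.mem_erase] at hq
    rw [lop_nc (p, q) _ _ (hok _ hq.2) (hva _ hq.2) rfl]
    intro b hb hcf
    have := hcf.2
    unfold Spc at this
    simp only at this
    rw [(H.mem_fib _ _).1 hq.2] at this
    exact hq.1 this
  rw [e1, Finset.sum_congr rfl e2, sub_add_cancel, h3]

theorem rel_op (p r : H.S) (hpr : H.sd p = H.sd r) :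
    ∑ q ∈ H.fib (H.opp (H.sd p)), (lop (p, q) ∘ₗ lop (q, r) : HA H K →ₗ[K] HA H K) =
      if p = r then proj (H.vt p) else 0 := by
  apply hom_ext
  rintro ⟨u, l⟩
  rw [LinearMap.sum_apply]
  simp only [LinearMap.comp_apply]
  have hva : ∀ q ∈ H.fib (H.opp (H.sd p)), Va ((q, r) : H.S × H.S) := by
    intro q hq
    rw [H.mem_fib] at hq
    unfold Va
    simp only
    rw [hq, H.opp_opp, hpr]
  by_cases h : Ok ((u, l) : H.Wd) ∧ H.vt r = u
  swap
  · rw [Finset.sum_eq_zero]
    · split_ifs with hp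
      · rw [proj_sg, if_neg]
        subst hp
        intro h'
        exact h ⟨h'.1, h'.2.symm⟩
      · rfl
    · intro q hq
      rw [lop_ne (q, r) _ (fun h' => h ⟨h'.1, h'.2.2⟩), map_zero]
  obtain ⟨h1, h2⟩ := h
  have hR : (if p = r then proj (H.vt p) else 0 : HA H K →ₗ[K] HA H K) (sg (u, l)) =
      if p = r then sg (u, l) else 0 := by
    split_ifs with hp
    · subst hp
      rw [proj_sg, if_pos ⟨h1, h2.symm⟩]
    · rfl
  rw [hR]
  by_cases h4 : ∀ b ∈ l.head?, ¬ (r = b.1 ∧ Spc r)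
  · rw [← rel_nc p r hpr u l h1 h2 h4]
    apply Finset.sum_congr rfl
    intro q hq
    rw [lop_nc (q, r) u l h1 (hva q hq) h2]
    intro b hb hcf
    exact h4 b hb hcf
  · push Not at h4
    obtain ⟨b, hb, hrb, hsp⟩ := h4
    rcases l with _ | ⟨b', l⟩
    · simp at hb
    simp only [List.head?_cons, Option.mem_def, Option.some.injEq] at hb
    subst hb
    obtain ⟨r', t⟩ := b'
    simp only at hrb
    subst hrb
    have hvt : Va ((r, t) : H.S × H.S) := ((ok_cons _ _ _).1 h1).1
    have ht : t ∈ H.fib (H.opp (H.sd p)) := by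
      rw [H.mem_fib, hpr]; exact hvt
    have hokt := ((ok_cons _ _ _).1 h1).2.2.2
    have hnct := ((ok_cons _ _ _).1 h1).2.2.1
    have e1 : ∀ q ∈ H.fib (H.opp (H.sd p)),
        lop (p, q) (lop (q, r) (sg (u, (r, t) :: l) : HA H K)) =
        (if q = t then lop (p, t) (sg (H.vt t, l)) else 0) -
          ∑ j ∈ (H.fib (H.sd r)).erase r, lop (p, q) (sg (H.vt q, (q, j) :: (j, t) :: l)) := by
      intro q hq
      rw [lop_cf (q, r) (r, t) u l h1 (hva q hq) ⟨rfl, hsp⟩]
      simp only [map_sub, map_sum]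
      split_ifs with hqt
      · subst hqt; rfl
      · rw [map_zero]
    rw [Finset.sum_congr rfl e1, Finset.sum_sub_distrib, Finset.sum_comm]
    rw [Finset.sum_ite_eq' _ t (fun _ => lop (p, t) (sg (H.vt t, l) : HA H K)), if_pos ht]
    have e2 : ∀ j ∈ (H.fib (H.sd r)).erase r,
        ∑ q ∈ H.fib (H.opp (H.sd p)), lop (p, q) (sg (H.vt q, (q, j) :: (j, t) :: l) : HA H K) =
        if p = j then sg (H.vt j, (j, t) :: l) else 0 := by
      intro j hj
      rw [Finset.mem_erase, H.mem_fib] at hj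
      rw [rel_nc p j (hpr.trans hj.2.symm) (H.vt j) ((j, t) :: l)]
      · exact ok_twin _ _ _ h1 j hj.2
      · rfl
      · intro b hb hb2
        have h5 := hb2.2
        unfold Spc at h5 hsp
        rw [hj.2, ← hsp] at h5
        exact hj.1 h5
    rw [Finset.sum_congr rfl e2]
    have e3 : lop (p, t) (sg (H.vt t, l) : HA H K) = sg (H.vt p, (p, t) :: l) := by
      apply lop_nc
      · exact hokt
      · unfold Va at hvt ⊢; simp only at hvt ⊢; rw [hvt, hpr]
      · rfl
      · intro b hb hcf; exact hnct b hb hcf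
    rw [e3]
    by_cases hp : p = r
    · subst hp
      rw [if_pos rfl, Finset.sum_eq_zero, sub_zero, h2]
      intro j hj
      rw [if_neg]
      rintro rfl
      simp at hj
    · rw [if_neg hp, Finset.sum_ite_eq _ p (fun j => (sg (H.vt j, (j, t) :: l) : HA H K)),
        if_pos, sub_self]
      rw [Finset.mem_erase, H.mem_fib]
      exact ⟨hp, hpr⟩


/-! ### Supports -/

def co (m : HA H K) (x : H.Wd) : K := (show H.Wd →₀ K from m) x

theorem co_add (m n : HA H K) (x : H.Wd) : co (m + n) x = co m x + co n x := rfl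
theorem co_sub (m n : HA H K) (x : H.Wd) : co (m - n) x = co m x - co n x := rfl
theorem co_neg (m : HA H K) (x : H.Wd) : co (-m) x = - co m x := rfl
theorem co_smul (c : K) (m : HA H K) (x : H.Wd) : co (c • m) x = c * co m x := rfl
theorem co_zero (x : H.Wd) : co (0 : HA H K) x = 0 := rfl

theorem co_sg (x y : H.Wd) : co (sg x : HA H K) y = if x = y then 1 else 0 := by
  unfold co sg
  exact Finsupp.single_apply

theorem co_sum {ι : Type*} (s : Finset ι) (f : ι → HA H K) (x : H.Wd) :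
    co (∑ i ∈ s, f i) x = ∑ i ∈ s, co (f i) x := by
  unfold co
  exact Finsupp.finsetSum_apply s f x

theorem ext_co {m n : HA H K} (h : ∀ x, co m x = co n x) : m = n := Finsupp.ext h

/-- elements supported on the words with property `P` -/
def SP (P : H.Wd → Prop) : Submodule K (HA H K) := Finsupp.supported K K {x | P x}

theorem mem_SP {P : H.Wd → Prop} {m : HA H K} : m ∈ SP P ↔ ∀ x, co m x ≠ 0 → P x := by
  unfold SP
  erw [Finsupp.mem_supported]
  constructor
  · intro h x hx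
    apply h
    simp only [Finset.mem_coe]
    exact Finsupp.mem_support_iff.2 hx
  · intro h x hx
    apply h
    exact Finsupp.mem_support_iff.1 (by simpa using hx)

theorem sg_mem_SP {P : H.Wd → Prop} {x : H.Wd} (h : P x) : (sg x : HA H K) ∈ SP P := by
  rw [mem_SP]
  intro y hy
  rw [co_sg] at hy
  by_cases hxy : x = y
  · rwa [← hxy]
  · rw [if_neg hxy] at hy; exact absurd rfl hy

theorem SP_mono {P Q : H.Wd → Prop} (h : ∀ x, P x → Q x) {m : HA H K} (hm : m ∈ SP P) :
    m ∈ SP Q := by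
  rw [mem_SP] at hm ⊢
  exact fun x hx => h x (hm x hx)

theorem SP_map {M : Type*} [AddCommGroup M] [Module K M] {P : H.Wd → Prop}
    (f : HA H K →ₗ[K] M) (N : Submodule K M) (h : ∀ x, P x → f (sg x) ∈ N) {m : HA H K}
    (hm : m ∈ SP P) : f m ∈ N := by
  have h1 : (SP P : Submodule K (HA H K)) = Submodule.span K ((fun x => sg x) '' {x | P x}) := by
    unfold SP
    exact Finsupp.supported_eq_span_single K {x | P x}
  rw [h1] at hm
  have h2 : Submodule.span K ((fun x => (sg x : HA H K)) '' {x | P x}) ≤ N.comap f := by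
    rw [Submodule.span_le]
    rintro _ ⟨x, hx, rfl⟩
    exact h x hx
  exact h2 hm

/-- an element is the sum of its terms -/
theorem eq_sum (m : HA H K) : m = ∑ x ∈ (show H.Wd →₀ K from m).support, co m x • sg x := by
  have := Finsupp.sum_single (show H.Wd →₀ K from m)
  conv_lhs => rw [← this]
  unfold Finsupp.sum
  apply Finset.sum_congr rfl
  intro x hx
  unfold sg co
  erw [Finsupp.smul_single]
  simp only [smul_eq_mul, mul_one]

theorem lopB_mem (a : H.S × H.S) (u : H.V) (l : List (H.S × H.S)) :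
    (lopB a (u, l) : HA H K) ∈ SP (fun z => Ok z ∧ z.1 = H.vt a.1 ∧ z.2.length ≤ l.length + 1 ∧
      en z = en ((u, l) : H.Wd)) := by
  by_cases h : Ok ((u, l) : H.Wd) ∧ Va a ∧ H.vt a.2 = u
  swap
  · unfold lopB
    rw [if_neg h]
    exact Submodule.zero_mem _
  obtain ⟨h1, h2, h3⟩ := h
  by_cases h4 : ∀ b ∈ l.head?, ¬ Cf a b
  · rw [← lop_sg, lop_nc a u l h1 h2 h3 h4]
    apply sg_mem_SP
    refine ⟨?_, rfl, by simp, ?_⟩
    · rw [ok_cons]
      refine ⟨h2, rfl, h4, by rwa [h3]⟩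
    · rw [en_cons _ u _ _ h3.symm]
  · push Not at h4
    obtain ⟨b, hb, hab⟩ := h4
    rcases l with _ | ⟨b', l⟩
    · simp at hb
    simp only [List.head?_cons, Option.mem_def, Option.some.injEq] at hb
    subst hb
    rw [← lop_sg, lop_cf a b' u l h1 h2 hab]
    have hb' := (ok_cons _ _ _).1 h1
    apply Submodule.sub_mem
    · split_ifs with hh
      · apply sg_mem_SP
        refine ⟨hb'.2.2.2, by rw [hh], by simp; omega, ?_⟩
        rw [en_cons u _ b' l rfl]
      · exact Submodule.zero_mem _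
    · apply Submodule.sum_mem
      intro j hj
      apply sg_mem_SP
      refine ⟨ok_twins u a b' l h1 h2 hab j hj, rfl, by simp, ?_⟩
      rw [en_cons _ _ _ _ rfl, en_cons _ _ _ _ rfl, en_cons _ _ _ _ rfl]

theorem proj_mem (u : H.V) {m : HA H K} (hm : m ∈ SP (fun z : H.Wd => Ok z ∧ z.1 = u)) :
    proj u m = m := by
  have : (proj u - LinearMap.id : HA H K →ₗ[K] HA H K) m ∈ (⊥ : Submodule K (HA H K)) := by
    apply SP_map (proj u - LinearMap.id) ⊥ _ hm
    intro x hx
    rw [LinearMap.sub_apply, proj_sg, if_pos hx, LinearMap.id_apply, sub_self]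
    exact Submodule.zero_mem _
  rw [Submodule.mem_bot, LinearMap.sub_apply, LinearMap.id_apply, sub_eq_zero] at this
  exact this

theorem proj_mem_ne (u v : H.V) (huv : u ≠ v) {m : HA H K}
    (hm : m ∈ SP (fun z : H.Wd => Ok z ∧ z.1 = v)) :
    proj u m = 0 := by
  have : proj u m ∈ (⊥ : Submodule K (HA H K)) := by
    apply SP_map (proj u) ⊥ _ hm
    intro x hx
    rw [proj_sg, if_neg]
    · exact Submodule.zero_mem _
    · rintro ⟨_, h2⟩
      exact huv (h2.symm.trans hx.2)
  rwa [Submodule.mem_bot] at this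

theorem proj_comp_mem (u : H.V) (f : HA H K →ₗ[K] HA H K)
    (hf : ∀ x, f (sg x) ∈ SP (fun z : H.Wd => Ok z ∧ z.1 = u)) (v : H.V) :
    proj v ∘ₗ f = if v = u then f else 0 := by
  apply hom_ext
  intro x
  rw [LinearMap.comp_apply]
  split_ifs with h
  · rw [h, proj_mem u (hf x)]
  · rw [proj_mem_ne v u h (hf x)]; rfl

theorem proj_lop (v : H.V) (a : H.S × H.S) :
    proj v ∘ₗ (lop a : HA H K →ₗ[K] HA H K) = if v = H.vt a.1 then lop a else 0 := by
  apply proj_comp_mem
  rintro ⟨u, l⟩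
  rw [lop_sg]
  exact SP_mono (fun z hz => ⟨hz.1, hz.2.1⟩) (lopB_mem a u l)

theorem proj_proj (v u : H.V) :
    proj v ∘ₗ (proj u : HA H K →ₗ[K] HA H K) = if v = u then proj u else 0 := by
  apply proj_comp_mem
  rintro x
  rw [proj_sg]
  split_ifs with h
  · exact sg_mem_SP h
  · exact Submodule.zero_mem _

theorem lop_proj (v : H.V) (a : H.S × H.S) :
    (lop a : HA H K →ₗ[K] HA H K) ∘ₗ proj v = if H.vt a.2 = v then lop a else 0 := by
  apply hom_ext
  intro x
  rw [LinearMap.comp_apply, proj_sg]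
  by_cases h : Ok x ∧ x.1 = v
  · rw [if_pos h]
    split_ifs with h2
    · rfl
    · rw [lop_ne]
      · rfl
      · rintro ⟨_, _, h3⟩
        exact h2 (h3.trans h.2)
  · rw [if_neg h, map_zero]
    split_ifs with h2
    · rw [lop_ne]
      rintro ⟨h3, _, h4⟩
      exact h ⟨h3, h4.symm.trans h2⟩
    · rfl

/-! ### Multiplication -/

def opL : H.V → List (H.S × H.S) → (HA H K →ₗ[K] HA H K)
  | u, [] => proj u
  | _, a :: l => lop a ∘ₗ opL (H.vt a.2) l

def opW (x : H.Wd) : HA H K →ₗ[K] HA H K := if Ok x then opL x.1 x.2 else 0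

def OP : HA H K →ₗ[K] (HA H K →ₗ[K] HA H K) := lin opW

theorem OP_sg (x : H.Wd) : OP (sg x : HA H K) = opW x := lin_sg _ _

theorem opW_nil (u : H.V) : (opW (u, []) : HA H K →ₗ[K] HA H K) = proj u := by
  rw [opW, if_pos (ok_nil u)]; rfl

theorem opW_cons (u : H.V) (a : H.S × H.S) (l : List (H.S × H.S)) (h : Ok ((u, a :: l) : H.Wd)) :
    (opW (u, a :: l) : HA H K →ₗ[K] HA H K) = lop a ∘ₗ opW (H.vt a.2, l) := by
  rw [opW, if_pos h, opW, if_pos ((ok_cons _ _ _).1 h).2.2.2]
  rfl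

theorem opW_not (x : H.Wd) (h : ¬ Ok x) : (opW x : HA H K →ₗ[K] HA H K) = 0 := by
  rw [opW, if_neg h]

theorem proj_opW (v : H.V) (x : H.Wd) :
    proj v ∘ₗ (opW x : HA H K →ₗ[K] HA H K) = if v = x.1 then opW x else 0 := by
  by_cases h : Ok x
  swap
  · rw [opW_not x h]; simp
  obtain ⟨u, l⟩ := x
  rcases l with _ | ⟨a, l⟩
  · rw [opW_nil, proj_proj]
  · rw [opW_cons u a l h, ← LinearMap.comp_assoc, proj_lop, ((ok_cons _ _ _).1 h).2.1]
    split_ifs with h2
    · rfl
    · simp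

theorem OP_proj (u : H.V) (m : HA H K) : OP (proj u m) = proj u ∘ₗ OP m := by
  have : OP ∘ₗ proj u = (LinearMap.lcomp K (HA H K) (LinearMap.id) ∘ₗ
      LinearMap.llcomp K (HA H K) (HA H K) (HA H K) (proj u)) ∘ₗ (OP : HA H K →ₗ[K] _) := by
    apply hom_ext
    intro x
    simp only [LinearMap.comp_apply]
    rw [proj_sg, OP_sg]
    have h1 := proj_opW (K := K) u x
    apply LinearMap.ext
    intro y
    have h2 := congrArg (fun f => f y) h1
    simp only [LinearMap.comp_apply] at h2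
    simp only [LinearMap.lcomp_apply, LinearMap.llcomp_apply, LinearMap.id_apply]
    rw [h2]
    by_cases h : Ok x ∧ x.1 = u
    · rw [if_pos h, if_pos h.2.symm, OP_sg]
    · rw [if_neg h, map_zero]
      split_ifs with h3
      · rw [opW_not]
        intro h4
        exact h ⟨h4, h3.symm⟩
      · rfl
  have h2 := congrArg (fun f => f m) this
  simp only [LinearMap.comp_apply] at h2
  rw [h2]
  rfl

theorem cf_comp (a b : H.S × H.S) (ha : Va a) (hb : Va b) (hab : Cf a b) :
    (lop a ∘ₗ lop b : HA H K →ₗ[K] HA H K) =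
      (if a.1 = b.2 then proj (H.vt a.1) else 0) -
        ∑ j ∈ (H.fib (H.sd a.2)).erase a.2, lop (a.1, j) ∘ₗ lop (j, b.2) := by
  have h1 : H.sd a.1 = H.sd b.2 := by
    unfold Va at ha hb
    rw [hb, ← hab.1, ha, H.opp_opp]
  have h2 := rel_op (K := K) a.1 b.2 h1
  rw [← (show H.sd a.2 = H.opp (H.sd a.1) from ha)] at h2
  rw [← h2, ← Finset.add_sum_erase _ _ ((H.mem_fib _ _).2 (rfl : H.sd a.2 = H.sd a.2)),
    add_sub_cancel_right]
  conv_rhs => rw [hab.1]
  rw [show ((a.1, b.1) : H.S × H.S) = a by rw [← hab.1]]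

theorem OP_lop_sg (a : H.S × H.S) (x : H.Wd) :
    OP (lop a (sg x : HA H K)) = lop a ∘ₗ opW x := by
  obtain ⟨u, l⟩ := x
  by_cases h : Ok ((u, l) : H.Wd) ∧ Va a ∧ H.vt a.2 = u
  swap
  · rw [lop_ne a _ h, map_zero]
    by_cases h1 : Ok ((u, l) : H.Wd)
    swap
    · rw [opW_not _ h1]; simp
    · have h2 : (opW (u, l) : HA H K →ₗ[K] HA H K) = proj u ∘ₗ opW (u, l) := by
        rw [proj_opW, if_pos rfl]
      rw [h2, ← LinearMap.comp_assoc, lop_proj]
      split_ifs with h3
      · have h4 : ¬ Va a := fun h4 => h ⟨h1, h4, h3⟩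
        have h5 : (lop a : HA H K →ₗ[K] HA H K) = 0 := by
          apply hom_ext
          intro y
          rw [lop_ne a y (fun h6 => h4 h6.2.1)]
          rfl
        rw [h5]; simp
      · simp
  obtain ⟨h1, h2, h3⟩ := h
  by_cases h4 : ∀ b ∈ l.head?, ¬ Cf a b
  · rw [lop_nc a u l h1 h2 h3 h4, OP_sg, opW_cons, h3]
    rw [ok_cons]
    exact ⟨h2, rfl, h4, by rwa [h3]⟩
  · push Not at h4
    obtain ⟨b, hb, hab⟩ := h4
    rcases l with _ | ⟨b', l⟩
    · simp at hb
    simp only [List.head?_cons, Option.mem_def, Option.some.injEq] at hb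
    subst hb
    have hb' := (ok_cons _ _ _).1 h1
    rw [lop_cf a b' u l h1 h2 hab, opW_cons _ _ _ h1, ← LinearMap.comp_assoc,
      cf_comp a b' h2 hb'.1 hab, map_sub, map_sum, LinearMap.sub_comp]
    congr 1
    · split_ifs with hh
      · rw [OP_sg, proj_opW, if_pos (by rw [hh])]
      · simp
    · rw [sum_comp']
      apply Finset.sum_congr rfl
      intro j hj
      have hok := ok_twins u a b' l h1 h2 hab j hj
      rw [OP_sg, opW_cons _ _ _ hok, opW_cons _ _ _ ((ok_cons _ _ _).1 hok).2.2.2]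
      rfl

theorem OP_lop (a : H.S × H.S) (m : HA H K) : OP (lop a m) = lop a ∘ₗ OP m := by
  have : OP ∘ₗ lop a = (LinearMap.llcomp K (HA H K) (HA H K) (HA H K) (lop a)) ∘ₗ
      (OP : HA H K →ₗ[K] _) := by
    apply hom_ext
    intro x
    simp only [LinearMap.comp_apply]
    rw [OP_lop_sg, OP_sg]
    rfl
  have h2 := congrArg (fun f => f m) this
  simp only [LinearMap.comp_apply] at h2
  rw [h2]
  rfl

theorem OP_opW (x : H.Wd) (m : HA H K) : OP (opW x m) = opW x ∘ₗ OP m := by
  by_cases h : Ok x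
  swap
  · rw [opW_not x h]; simp
  obtain ⟨u, l⟩ := x
  induction l generalizing u with
  | nil => rw [opW_nil, OP_proj]
  | cons a l ih =>
    rw [opW_cons u a l h, LinearMap.comp_apply, OP_lop, ih _ ((ok_cons _ _ _).1 h).2.2.2,
      LinearMap.comp_assoc]

theorem OP_OP (x y : HA H K) : OP (OP x y) = OP x ∘ₗ OP y := by
  rw [eq_sum x]
  simp only [map_sum, map_smul, OP_sg, LinearMap.sum_apply, LinearMap.smul_apply]
  rw [sum_comp']
  apply Finset.sum_congr rfl
  intro z _
  rw [OP_opW]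
  rfl

instance : Mul (HA H K) := ⟨fun x y => OP x y⟩

theorem mul_def (x y : HA H K) : x * y = OP x y := rfl

instance : NonUnitalRing (HA H K) where
  left_distrib x y z := by simp only [mul_def, map_add]
  right_distrib x y z := by simp only [mul_def, map_add, LinearMap.add_apply]
  zero_mul x := by simp only [mul_def, map_zero, LinearMap.zero_apply]
  mul_zero x := by simp only [mul_def, map_zero]
  mul_assoc x y z := by simp only [mul_def, OP_OP, LinearMap.comp_apply]

instance : IsScalarTower K (HA H K) (HA H K) where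
  smul_assoc c x y := by
    simp only [smul_eq_mul, mul_def, map_smul, LinearMap.smul_apply]

instance : SMulCommClass K (HA H K) (HA H K) where
  smul_comm c x y := by
    simp only [smul_eq_mul, mul_def, map_smul]

end HG

end

end Pool.Agent.Lib.MP_f1fc44_al
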