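import Pool.Agent.Lib.MP_f1fc44_al.A

/-!
Part B: products of words, leading terms, the involution.
-/

namespace Pool.Agent.Lib.MP_f1fc44_al

open scoped Classical

noncomputable section

universe u1 u2 u3 u4

namespace HG

variable {H : HG.{u1, u2, u3}} {K : Type u4} [Field K]

def vx (u : H.V) : HA H K := sg (u, [])

def lt (a : H.S × H.S) : HA H K := sg (H.vt a.1, [a])

def NC (l l' : List (H.S × H.S)) : Prop := ∀ a ∈ l.getLast?, ∀ b ∈ l'.head?, ¬ Cf a b

theorem sg_mul (x : H.Wd) (m : HA H K) : sg x * m = opW x m := by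
  rw [mul_def, OP_sg]

theorem vx_mul (u : H.V) (m : HA H K) : vx u * m = proj u m := by
  rw [vx, sg_mul, opW_nil]

theorem sg_not_mul (x : H.Wd) (h : ¬ Ok x) (m : HA H K) : sg x * m = 0 := by
  rw [sg_mul, opW_not x h]; rfl

theorem sg_cons_mul (u : H.V) (a : H.S × H.S) (l : List (H.S × H.S))
    (h : Ok ((u, a :: l) : H.Wd)) (m : HA H K) :
    sg (u, a :: l) * m = lop a (sg (H.vt a.2, l) * m) := by
  rw [sg_mul, opW_cons u a l h, sg_mul]; rfl

theorem ok_single (a : H.S × H.S) (ha : Va a) : Ok ((H.vt a.1, [a]) : H.Wd) := by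
  rw [ok_cons]
  exact ⟨ha, rfl, by simp, ok_nil _⟩

theorem lt_mul (a : H.S × H.S) (ha : Va a) (m : HA H K) : lt a * m = lop a m := by
  rw [lt, sg_cons_mul _ _ _ (ok_single a ha), ← vx, vx_mul]
  have := congrArg (fun f => f m) (lop_proj (K := K) (H.vt a.2) a)
  simpa using this

theorem opW_proj (x : H.Wd) (v : H.V) :
    (opW x : HA H K →ₗ[K] HA H K) ∘ₗ proj v = if en x = v then opW x else 0 := by
  by_cases h : Ok x
  swap
  · rw [opW_not x h]; simp
  obtain ⟨u, l⟩ := x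
  induction l generalizing u with
  | nil =>
    rw [opW_nil, proj_proj, en_nil]
    split_ifs with h1
    · rw [h1]
    · rfl
  | cons a l ih =>
    rw [opW_cons u a l h, LinearMap.comp_assoc, ih _ ((ok_cons _ _ _).1 h).2.2.2,
      en_cons u _ a l rfl]
    split_ifs with h1
    · rfl
    · simp

theorem sg_mul_vx (x : H.Wd) (v : H.V) : (sg x : HA H K) * vx v = if Ok x ∧ en x = v then sg x
    else 0 := by
  by_cases h : Ok x
  swap
  · rw [sg_not_mul x h, if_neg (fun h' => h h'.1)]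
  rw [sg_mul]
  obtain ⟨u, l⟩ := x
  induction l generalizing u with
  | nil =>
    rw [opW_nil, vx, proj_sg, en_nil]
    by_cases h1 : u = v
    · subst h1; simp [ok_nil]
    · have h2 : ¬ v = u := fun h' => h1 h'.symm
      simp [h1, h2]
  | cons a l ih =>
    have h' := (ok_cons _ _ _).1 h
    rw [opW_cons u a l h, LinearMap.comp_apply, ih _ h'.2.2.2, en_cons u _ a l rfl]
    by_cases h1 : en ((H.vt a.2, l) : H.Wd) = v
    · rw [if_pos ⟨h'.2.2.2, h1⟩, if_pos ⟨h, h1⟩, lop_nc a _ l h'.2.2.2 h'.1 rfl h'.2.2.1, h'.2.1]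
    · rw [if_neg (fun h2 => h1 h2.2), if_neg (fun h2 => h1 h2.2), map_zero]

theorem sg_mul_sg_ne (x y : H.Wd) (h : ¬ (Ok x ∧ Ok y ∧ en x = y.1)) :
    (sg x : HA H K) * sg y = 0 := by
  by_cases hx : Ok x
  swap
  · exact sg_not_mul x hx _
  by_cases hy : Ok y ∧ en x = y.1
  · exact absurd ⟨hx, hy.1, hy.2⟩ h
  rw [sg_mul]
  have h1 := congrArg (fun f => f (sg y)) (opW_proj (K := K) x (en x))
  simp only [LinearMap.comp_apply, if_true] at h1
  rw [← h1, proj_sg, if_neg (fun h2 => hy ⟨h2.1, h2.2.symm⟩), map_zero]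

theorem mul_nc (u v : H.V) (l l' : List (H.S × H.S)) (h1 : Ok ((u, l) : H.Wd))
    (h2 : Ok ((v, l') : H.Wd)) (h3 : v = en ((u, l) : H.Wd)) (h4 : NC l l') :
    (sg (u, l) : HA H K) * sg (v, l') = sg (u, l ++ l') := by
  induction l generalizing u with
  | nil =>
    rw [sg_mul, opW_nil, proj_sg, if_pos]
    · rw [h3]; rfl
    · exact ⟨h2, h3⟩
  | cons a l ih =>
    have h' := (ok_cons _ _ _).1 h1
    have h5 : v = en ((H.vt a.2, l) : H.Wd) := by rw [h3, en_cons u _ a l rfl]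
    have h6 : NC l l' := by
      intro b hb c hc
      apply h4 b _ c hc
      rcases l with _ | ⟨b', l⟩
      · simp at hb
      · rw [List.getLast?_cons_cons]; exact hb
    rw [sg_cons_mul u a l h1, ih _ h'.2.2.2 h5 h6]
    have h7 : Ok ((u, (a :: l) ++ l') : H.Wd) := (ok_append u v (a :: l) l' h3).2 ⟨h1, h2, h4⟩
    rw [List.cons_append] at h7
    have h8 := (ok_cons _ _ _).1 h7
    rw [lop_nc a _ _ h8.2.2.2 h8.1 rfl h8.2.2.1, h8.2.1]
    rfl

theorem mul_mem (x y : H.Wd) : (sg x : HA H K) * sg y ∈ SP (fun z : H.Wd =>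
    Ok z ∧ z.1 = x.1 ∧ z.2.length ≤ x.2.length + y.2.length ∧ en z = en y) := by
  by_cases h : Ok x ∧ Ok y ∧ en x = y.1
  swap
  · rw [sg_mul_sg_ne x y h]; exact Submodule.zero_mem _
  obtain ⟨hx, hy, hxy⟩ := h
  obtain ⟨u, l⟩ := x
  induction l generalizing u with
  | nil =>
    rw [← vx, vx_mul, proj_sg, if_pos ⟨hy, hxy.symm⟩]
    apply sg_mem_SP
    exact ⟨hy, hxy.symm, by simp, rfl⟩
  | cons a l ih =>
    have h' := (ok_cons _ _ _).1 hx
    rw [sg_cons_mul u a l hx]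
    have h1 := ih _ h'.2.2.2 (by rw [← hxy, en_cons u _ a l rfl])
    apply SP_map _ _ _ h1
    rintro ⟨u', l''⟩ ⟨hz1, hz2, hz3, hz4⟩
    rw [lop_sg]
    apply SP_mono _ (lopB_mem a u' l'')
    rintro z ⟨g1, g2, g3, g4⟩
    refine ⟨g1, by rw [g2, h'.2.1], ?_, by rw [g4, hz4]⟩
    simp only [List.length_cons] at *
    omega

theorem mul_co {A B : HA H K} {z : H.Wd} (h : co (A * B) z ≠ 0) :
    ∃ x y, co A x ≠ 0 ∧ co B y ≠ 0 ∧ co (sg x * sg y : HA H K) z ≠ 0 := by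
  have hA : A ∈ SP (fun x => co A x ≠ 0) := mem_SP.2 (fun x hx => hx)
  have hB : B ∈ SP (fun x => co B x ≠ 0) := mem_SP.2 (fun x hx => hx)
  have : OP.flip B A ∈ SP (fun z : H.Wd => ∃ x y, co A x ≠ 0 ∧ co B y ≠ 0 ∧
      co (sg x * sg y : HA H K) z ≠ 0) := by
    apply SP_map _ _ _ hA
    intro x hx
    rw [LinearMap.flip_apply]
    apply SP_map _ _ _ hB
    intro y hy
    rw [mem_SP]
    intro z hz
    exact ⟨x, y, hx, hy, hz⟩
  rw [mem_SP] at this
  exact this z h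

theorem mul_co' {A B : HA H K} {z : H.Wd} (h : co (A * B) z ≠ 0) :
    ∃ x y, co A x ≠ 0 ∧ co B y ≠ 0 ∧ co (sg x * sg y : HA H K) z ≠ 0 ∧ Ok x ∧ Ok y ∧
      en x = y.1 ∧ Ok z ∧ z.1 = x.1 ∧ z.2.length ≤ x.2.length + y.2.length ∧ en z = en y := by
  obtain ⟨x, y, h1, h2, h3⟩ := mul_co h
  have h4 : Ok x ∧ Ok y ∧ en x = y.1 := by
    by_contra h5
    rw [sg_mul_sg_ne x y h5] at h3
    exact h3 rfl
  have h5 := mem_SP.1 (mul_mem (K := K) x y) z h3
  exact ⟨x, y, h1, h2, h3, h4.1, h4.2.1, h4.2.2, h5.1, h5.2.1, h5.2.2.1, h5.2.2.2⟩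

/-- leading words of a product without conflicts -/
theorem top_supp {A B : HA H K} {d e : ℕ} (hA : ∀ x, co A x ≠ 0 → x.2.length ≤ d)
    (hB : ∀ y, co B y ≠ 0 → y.2.length ≤ e)
    (hnc : ∀ x y, co A x ≠ 0 → co B y ≠ 0 → x.2.length = d → y.2.length = e → en x = y.1 →
      NC x.2 y.2)
    {z : H.Wd} (hz : co (A * B) z ≠ 0) (hz2 : z.2.length = d + e) :
    ∃ x y, co A x ≠ 0 ∧ co B y ≠ 0 ∧ x.2.length = d ∧ y.2.length = e ∧ Ok x ∧ Ok y ∧
      en x = y.1 ∧ z = (x.1, x.2 ++ y.2) := by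
  obtain ⟨x, y, h1, h2, h3, h4, h5, h6, h7, h8, h9, h10⟩ := mul_co' hz
  have g1 := hA x h1
  have g2 := hB y h2
  have g3 : x.2.length = d := by omega
  have g4 : y.2.length = e := by omega
  refine ⟨x, y, h1, h2, g3, g4, h4, h5, h6, ?_⟩
  rw [mul_nc x.1 y.1 x.2 y.2 h4 h5 h6.symm (hnc x y h1 h2 g3 g4 h6), co_sg] at h3
  by_contra h11
  exact h3 (if_neg (fun h12 => h11 h12.symm))

theorem mul_top {A B : HA H K} {d e : ℕ} (hA : ∀ x, co A x ≠ 0 → x.2.length ≤ d)
    (hB : ∀ y, co B y ≠ 0 → y.2.length ≤ e)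
    (hnc : ∀ x y, co A x ≠ 0 → co B y ≠ 0 → x.2.length = d → y.2.length = e → en x = y.1 →
      NC x.2 y.2)
    (x0 y0 : H.Wd) (hx0 : Ok x0) (hy0 : Ok y0) (hx : x0.2.length = d) (hy : y0.2.length = e)
    (hv : en x0 = y0.1) (h1 : co A x0 ≠ 0) (h2 : co B y0 ≠ 0) :
    co (A * B) (x0.1, x0.2 ++ y0.2) = co A x0 * co B y0 := by
  set z : H.Wd := (x0.1, x0.2 ++ y0.2) with hz
  have hzl : z.2.length = d + e := by rw [hz]; simp [hx, hy]
  have key : ∀ x y : H.Wd, x.2.length = d → y.2.length = e → Ok y → en x = y.1 →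
      z = (x.1, x.2 ++ y.2) → x = x0 ∧ y = y0 := by
    intro x y g1 g2 g3 g4 g5
    rw [hz, Prod.mk.injEq] at g5
    have g6 := List.append_inj g5.2 (by rw [hx, g1])
    have g7 : x = x0 := Prod.ext g5.1.symm g6.1.symm
    refine ⟨g7, Prod.ext ?_ g6.2.symm⟩
    rw [← g4, g7, hv]
  have e1 : A * B = co A x0 • (sg x0 * B) + (A - co A x0 • sg x0) * B := by
    rw [sub_mul, smul_mul_assoc]; abel
  have e2 : sg x0 * B = co B y0 • (sg x0 * sg y0) + sg x0 * (B - co B y0 • sg y0) := by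
    rw [mul_sub, mul_smul_comm]; abel
  have f1 : co ((A - co A x0 • sg x0) * B) z = 0 := by
    by_contra hne
    have hA' : ∀ x, co (A - co A x0 • sg x0) x ≠ 0 → co A x ≠ 0 ∧ x ≠ x0 := by
      intro x hx'
      rw [co_sub, co_smul, co_sg] at hx'
      by_cases h : x0 = x
      · subst h; simp at hx'
      · rw [if_neg h] at hx'
        refine ⟨by simpa using hx', fun h' => h h'.symm⟩
    obtain ⟨x, y, g1, g2, g3, g4, g5, g6, g7, g8⟩ := top_supp (A := A - co A x0 • sg x0) (B := B)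
      (fun x hx' => hA x (hA' x hx').1) hB
      (fun x y h3 h4 => hnc x y (hA' x h3).1 h4) hne hzl
    exact (hA' x g1).2 (key x y g3 g4 g6 g7 g8).1
  have f2 : co (sg x0 * (B - co B y0 • sg y0) : HA H K) z = 0 := by
    by_contra hne
    have hA' : ∀ x, co (sg x0 : HA H K) x ≠ 0 → x = x0 := by
      intro x hx'
      rw [co_sg] at hx'
      by_contra h
      exact hx' (if_neg (fun h' => h h'.symm))
    have hB' : ∀ y, co (B - co B y0 • sg y0) y ≠ 0 → co B y ≠ 0 ∧ y ≠ y0 := by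
      intro y hy'
      rw [co_sub, co_smul, co_sg] at hy'
      by_cases h : y0 = y
      · subst h; simp at hy'
      · rw [if_neg h] at hy'
        refine ⟨by simpa using hy', fun h' => h h'.symm⟩
    obtain ⟨x, y, g1, g2, g3, g4, g5, g6, g7, g8⟩ := top_supp (A := (sg x0 : HA H K))
      (B := B - co B y0 • sg y0) (d := d) (e := e)
      (fun x hx' => by rw [hA' x hx', hx]) (fun y hy' => hB y (hB' y hy').1)
      (fun x y h3 h4 => by
        rw [hA' x h3]
        exact hnc x0 y h1 (hB' y h4).1) hne hzl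
    exact (hB' y g2).2 (key x y g3 g4 g6 g7 g8).2
  have f3 : co (sg x0 * sg y0 : HA H K) z = 1 := by
    rw [mul_nc x0.1 y0.1 x0.2 y0.2 hx0 hy0 hv.symm (hnc x0 y0 h1 h2 hx hy hv), co_sg, if_pos rfl]
  rw [e1, co_add, f1, add_zero, co_smul, e2, co_add, f2, add_zero, co_smul, f3, mul_one]

/-- the product of a word with a conflicting letter -/
theorem mul_cf_last (u : H.V) (l : List (H.S × H.S)) (b c : H.S × H.S)
    (h1 : Ok ((u, l ++ [b]) : H.Wd)) (hc : Va c) (hbc : Cf b c) :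
    (sg (u, l ++ [b]) : HA H K) * lt c = (if b.1 = c.2 then sg (u, l) else 0) -
      ∑ j ∈ (H.fib (H.sd b.2)).erase b.2, sg (u, l ++ [(b.1, j), (j, c.2)]) := by
  have h2 := (ok_append u (en ((u, l) : H.Wd)) l [b] rfl).1 h1
  obtain ⟨h3, h4, h5⟩ := h2
  have hb := (ok_cons _ _ _).1 h4
  have e1 : (sg (u, l ++ [b]) : HA H K) = sg (u, l) * lt b := by
    rw [lt, hb.2.1, mul_nc u _ l [b] h3 h4 rfl h5]
  rw [e1, mul_assoc, lt_mul b hb.1, lt, lop_cf b c _ [] (ok_single c hc) hb.1 hbc, mul_sub,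
    Finset.mul_sum]
  congr 1
  · split_ifs with h
    · rw [← vx, sg_mul_vx, if_pos ⟨h3, by rw [← hb.2.1, h]⟩]
    · rw [mul_zero]
  · apply Finset.sum_congr rfl
    intro j hj
    apply mul_nc
    · exact h3
    · exact ok_twins _ b c [] (ok_single c hc) hb.1 hbc j hj
    · exact hb.2.1
    · intro a ha b' hb'
      simp only [List.head?_cons, Option.mem_def, Option.some.injEq] at hb'
      subst hb'
      intro h
      exact h5 a ha b (by simp) h

end HG

end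

end Pool.Agent.Lib.MP_f1fc44_al
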