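import Pool.Agent.Lib.MP_f1fc44_al.B

/-!
Part C: the involution and the corners.
-/

namespace Pool.Agent.Lib.MP_f1fc44_al

open scoped Classical

noncomputable section

universe u1 u2 u3 u4

namespace HG

variable {H : HG.{u1, u2, u3}} {K : Type u4} [Field K]

/-- inverse word -/
def stW (x : H.Wd) : H.Wd := (en x, (x.2.map Prod.swap).reverse)

theorem va_swap {a : H.S × H.S} (h : Va a) : Va a.swap := by
  unfold Va at *
  simp only [Prod.fst_swap, Prod.snd_swap]
  rw [h, H.opp_opp]

theorem cf_swap {a b : H.S × H.S} : Cf b.swap a.swap ↔ Cf a b := by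
  unfold Cf
  simp only [Prod.fst_swap, Prod.snd_swap]
  constructor
  · rintro ⟨h1, h2⟩
    exact ⟨h1.symm, h1 ▸ h2⟩
  · rintro ⟨h1, h2⟩
    exact ⟨h1.symm, h1 ▸ h2⟩

theorem stW_fst (x : H.Wd) : (stW x).1 = en x := rfl

theorem en_stW (x : H.Wd) (h : Ok x) : en (stW x) = x.1 := by
  obtain ⟨u, l⟩ := x
  rcases l with _ | ⟨a, l⟩
  · rfl
  · unfold stW
    simp only [List.map_cons, List.reverse_cons]
    rw [en_append_cons]
    exact ((ok_cons _ _ _).1 h).2.1

theorem stW_stW (x : H.Wd) (h : Ok x) : stW (stW x) = x := by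
  apply Prod.ext
  · rw [stW_fst, en_stW x h]
  · unfold stW
    simp only [List.map_reverse, List.reverse_reverse, List.map_map]
    conv_rhs => rw [← List.map_id x.2]
    congr 1

theorem stW_len (x : H.Wd) : (stW x).2.length = x.2.length := by
  simp [stW]

theorem ok_stW (x : H.Wd) (h : Ok x) : Ok (stW x) := by
  obtain ⟨h1, h2, h3⟩ := h
  refine ⟨?_, ?_, ?_⟩
  · intro a ha
    simp only [stW, List.mem_reverse, List.mem_map] at ha
    obtain ⟨b, hb, rfl⟩ := ha
    exact va_swap (h1 b hb)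
  · simp only [stW]
    rw [List.isChain_reverse, List.isChain_map]
    apply List.IsChain.imp _ h2
    intro a b hab
    refine ⟨?_, ?_⟩
    · simp only [Prod.fst_swap, Prod.snd_swap]
      exact hab.1.symm
    · rw [cf_swap]; exact hab.2
  · intro a ha
    simp only [stW, List.head?_reverse, List.getLast?_map, Option.mem_def, Option.map_eq_some_iff]
      at ha
    obtain ⟨b, hb, rfl⟩ := ha
    simp only [stW, en, Option.map_some, Option.getD_some, Prod.fst_swap, hb]

def st : HA H K →ₗ[K] HA H K := lin (fun x => if Ok x then sg (stW x) else 0)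

theorem st_sg (x : H.Wd) : st (sg x : HA H K) = if Ok x then sg (stW x) else 0 := lin_sg _ _

theorem st_vx (u : H.V) : st (vx u : HA H K) = vx u := by
  rw [vx, st_sg, if_pos (ok_nil u)]
  rfl

theorem st_proj (u : H.V) (m : HA H K) : st (proj u m) = st m * vx u := by
  have : st ∘ₗ proj u = OP.flip (vx u) ∘ₗ (st : HA H K →ₗ[K] HA H K) := by
    apply hom_ext
    intro x
    simp only [LinearMap.comp_apply]
    rw [proj_sg, LinearMap.flip_apply, ← mul_def, st_sg]
    by_cases h : Ok x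
    · rw [if_pos h, sg_mul_vx]
      by_cases h2 : x.1 = u
      · rw [if_pos ⟨h, h2⟩, if_pos ⟨ok_stW x h, by rw [en_stW x h, h2]⟩, st_sg, if_pos h]
      · rw [if_neg (fun h3 => h2 h3.2), if_neg, map_zero]
        rintro ⟨_, h3⟩
        rw [en_stW x h] at h3
        exact h2 h3
    · rw [if_neg h, if_neg (fun h' => h h'.1), map_zero, zero_mul]
  exact congrArg (fun f => f m) this

theorem st_lop_sg (a : H.S × H.S) (x : H.Wd) :
    st (lop a (sg x : HA H K)) = st (sg x) * lt a.swap := by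
  obtain ⟨u, l⟩ := x
  by_cases hx : Ok ((u, l) : H.Wd)
  swap
  · rw [lop_ne a _ (fun h => hx h.1), map_zero, st_sg, if_neg hx, zero_mul]
  by_cases ha : Va a
  swap
  · rw [lop_ne a _ (fun h => ha h.2.1), map_zero, st_sg, if_pos hx]
    rw [lt, sg_mul_sg_ne]
    rintro ⟨_, h, _⟩
    apply ha
    have := va_swap ((ok_cons _ _ _).1 h).1
    rwa [Prod.swap_swap] at this
  by_cases hu : H.vt a.2 = u
  swap
  · rw [lop_ne a _ (fun h => hu h.2.2), map_zero, st_sg, if_pos hx]
    rw [lt, sg_mul_sg_ne]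
    rintro ⟨_, _, h⟩
    rw [en_stW _ hx] at h
    exact hu h.symm
  have hsw := ok_single a.swap (va_swap ha)
  by_cases h4 : ∀ b ∈ l.head?, ¬ Cf a b
  · have hok : Ok ((H.vt a.1, a :: l) : H.Wd) := by
      rw [ok_cons]; exact ⟨ha, rfl, h4, by rwa [hu]⟩
    rw [lop_nc a u l hx ha hu h4, st_sg, if_pos hok, st_sg, if_pos hx, lt]
    have e0 : (sg (stW ((u, l) : H.Wd)) : HA H K) * sg (H.vt a.swap.1, [a.swap]) =
        sg ((stW ((u, l) : H.Wd)).1, (stW ((u, l) : H.Wd)).2 ++ [a.swap]) := by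
      apply mul_nc _ _ _ _ (ok_stW _ hx) hsw
      · show _ = en (stW ((u, l) : H.Wd))
        rw [en_stW _ hx]; exact hu
      intro b hb c hc
      simp only [List.head?_cons, Option.mem_def, Option.some.injEq] at hc
      subst hc
      simp only [stW, List.getLast?_reverse, List.head?_map, Option.mem_def,
        Option.map_eq_some_iff] at hb
      obtain ⟨b', hb', rfl⟩ := hb
      rw [cf_swap]
      exact h4 b' hb'
    rw [e0]
    congr 1
    unfold stW
    rw [en_cons _ u _ _ hu.symm]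
    simp
  · push Not at h4
    obtain ⟨b, hb, hab⟩ := h4
    rcases l with _ | ⟨b', l⟩
    · simp at hb
    simp only [List.head?_cons, Option.mem_def, Option.some.injEq] at hb
    subst hb
    have hb' := (ok_cons _ _ _).1 hx
    rw [lop_cf a b' u l hx ha hab, map_sub, map_sum, st_sg, if_pos hx]
    have e1 : stW ((u, b' :: l) : H.Wd) =
        (en ((u, b' :: l) : H.Wd), (l.map Prod.swap).reverse ++ [b'.swap]) := by
      simp [stW]
    have hok := ok_stW _ hx
    rw [e1] at hok ⊢
    rw [mul_cf_last _ _ _ _ hok (va_swap ha) (cf_swap.2 hab)]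
    simp only [Prod.fst_swap, Prod.snd_swap]
    congr 1
    · by_cases hh : a.1 = b'.2
      · rw [if_pos hh, if_pos hh.symm, st_sg, if_pos hb'.2.2.2, stW, en_cons u _ b' l rfl]
      · rw [if_neg hh, if_neg (fun h => hh h.symm), map_zero]
    · rw [hab.1]
      apply Finset.sum_congr rfl
      intro j hj
      have hj2 : j ∈ (H.fib (H.sd a.2)).erase a.2 := by rwa [hab.1]
      rw [st_sg, if_pos (ok_twins u a b' l hx ha hab j hj2)]
      congr 1
      unfold stW
      rw [en_cons _ _ _ _ rfl, en_cons _ _ _ _ rfl, en_cons _ _ _ _ rfl]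
      simp

theorem st_lop (a : H.S × H.S) (m : HA H K) : st (lop a m) = st m * lt a.swap := by
  have : st ∘ₗ lop a = OP.flip (lt a.swap) ∘ₗ (st : HA H K →ₗ[K] HA H K) := by
    apply hom_ext
    intro x
    simp only [LinearMap.comp_apply]
    rw [LinearMap.flip_apply, ← mul_def, st_lop_sg]
  exact congrArg (fun f => f m) this

theorem st_opW (x : H.Wd) (hx : Ok x) (m : HA H K) :
    st (opW x m) = st m * st (sg x) := by
  obtain ⟨u, l⟩ := x
  induction l generalizing u with
  | nil => rw [opW_nil, st_proj, ← vx, st_vx]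
  | cons a l ih =>
    have h' := (ok_cons _ _ _).1 hx
    rw [opW_cons u a l hx, LinearMap.comp_apply, st_lop, ih _ h'.2.2.2, mul_assoc, ← st_lop,
      lop_nc a _ l h'.2.2.2 h'.1 rfl h'.2.2.1, h'.2.1]

theorem st_mul (A B : HA H K) : st (A * B) = st B * st A := by
  have hsg : ∀ x : H.Wd, st (sg x * B) = st B * st (sg x) := by
    intro x
    by_cases hx : Ok x
    · rw [sg_mul, st_opW x hx]
    · rw [sg_not_mul x hx, st_sg, if_neg hx, map_zero, mul_zero]
  have : st ∘ₗ OP.flip B = OP (st B) ∘ₗ (st : HA H K →ₗ[K] HA H K) := by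
    apply hom_ext
    intro x
    simp only [LinearMap.comp_apply, LinearMap.flip_apply]
    exact hsg x
  exact congrArg (fun f => f A) this

def coL (z : H.Wd) : HA H K →ₗ[K] K := Finsupp.lapply z

theorem coL_apply (z : H.Wd) (m : HA H K) : coL z m = co m z := rfl

theorem co_st (A : HA H K) (z : H.Wd) : co (st A) z = if Ok z then co A (stW z) else 0 := by
  have : coL z ∘ₗ st = if Ok z then (coL (stW z) : HA H K →ₗ[K] K) else 0 := by
    apply hom_ext
    intro x
    rw [LinearMap.comp_apply, coL_apply, st_sg]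
    by_cases hx : Ok x
    · rw [if_pos hx, co_sg]
      by_cases hz : Ok z
      · rw [if_pos hz, coL_apply, co_sg]
        by_cases h : stW x = z
        · rw [if_pos h, if_pos]
          rw [← h, stW_stW x hx]
        · rw [if_neg h, if_neg]
          intro h2
          apply h
          rw [h2, stW_stW z hz]
      · rw [if_neg hz, if_neg]
        · rfl
        · rintro rfl
          exact hz (ok_stW x hx)
    · rw [if_neg hx, co_zero]
      by_cases hz : Ok z
      · rw [if_pos hz, coL_apply, co_sg, if_neg]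
        rintro rfl
        exact hx (ok_stW z hz)
      · rw [if_neg hz]; rfl
  have h2 := congrArg (fun f => f A) this
  simp only [LinearMap.comp_apply, coL_apply] at h2
  rw [h2]
  split_ifs <;> rfl

/-! ### Corners -/

def Cor (u v : H.V) : Submodule K (HA H K) := SP (fun x => Ok x ∧ x.1 = u ∧ en x = v)

theorem cor_mul {u v v' w : H.V} {A B : HA H K} (hA : A ∈ Cor u v) (hB : B ∈ Cor v' w) :
    A * B ∈ Cor u w := by
  unfold Cor at *
  rw [mem_SP] at *
  intro z hz
  obtain ⟨x, y, h1, h2, h3, h4, h5, h6, h7, h8, h9, h10⟩ := mul_co' hz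
  exact ⟨h7, by rw [h8, (hA x h1).2.1], by rw [h10, (hB y h2).2.2]⟩

theorem sg_cor (x : H.Wd) (h : Ok x) : (sg x : HA H K) ∈ Cor x.1 (en x) :=
  sg_mem_SP ⟨h, rfl, rfl⟩

theorem vx_cor (u : H.V) : (vx u : HA H K) ∈ Cor u u := sg_cor _ (ok_nil u)

theorem lt_cor (a : H.S × H.S) (ha : Va a) : (lt a : HA H K) ∈ Cor (H.vt a.1) (H.vt a.2) := by
  have := sg_cor (K := K) _ (ok_single a ha)
  exact this

theorem vx_mul_cor {u v : H.V} {A : HA H K} (hA : A ∈ Cor u v) : vx u * A = A := by
  rw [vx_mul, proj_mem]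
  exact SP_mono (fun x hx => ⟨hx.1, hx.2.1⟩) hA

theorem mul_vx_cor {u v : H.V} {A : HA H K} (hA : A ∈ Cor u v) : A * vx v = A := by
  have : (OP.flip (vx v) - LinearMap.id : HA H K →ₗ[K] HA H K) A ∈
      (⊥ : Submodule K (HA H K)) := by
    apply SP_map _ ⊥ _ hA
    intro x hx
    rw [LinearMap.sub_apply, LinearMap.flip_apply, ← mul_def, sg_mul_vx, if_pos ⟨hx.1, hx.2.2⟩,
      LinearMap.id_apply, sub_self]
    exact Submodule.zero_mem _
  rw [Submodule.mem_bot, LinearMap.sub_apply, LinearMap.id_apply, sub_eq_zero] at this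
  exact this

theorem st_cor {u v : H.V} {A : HA H K} (hA : A ∈ Cor u v) : st A ∈ Cor v u := by
  unfold Cor at *
  rw [mem_SP] at *
  intro z hz
  rw [co_st] at hz
  by_cases h : Ok z
  · rw [if_pos h] at hz
    obtain ⟨h1, h2, h3⟩ := hA _ hz
    refine ⟨h, ?_, ?_⟩
    · rw [← h3, en_stW z h]
    · rw [← h2]; rfl
  · rw [if_neg h] at hz; exact absurd rfl hz

theorem st_st {u v : H.V} {A : HA H K} (hA : A ∈ Cor u v) : st (st A) = A := by
  apply ext_co
  intro z
  unfold Cor at hA
  rw [mem_SP] at hA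
  rw [co_st]
  by_cases h : Ok z
  · rw [if_pos h, co_st, if_pos (ok_stW z h), stW_stW z h]
  · rw [if_neg h]
    by_contra h2
    exact h (hA z (fun h3 => h2 h3.symm)).1

theorem cor_zero_of {u v : H.V} {A : HA H K} (hA : A ∈ Cor u v) (h : st A = 0) : A = 0 := by
  rw [← st_st hA, h, map_zero]

theorem lt_mul_lt (p q r : H.S) (h1 : Va (p, q)) (h2 : Va (q, r)) :
    (lt (p, q) * lt (q, r) : HA H K) = (lop (p, q) ∘ₗ lop (q, r)) (vx (H.vt r)) := by
  rw [LinearMap.comp_apply, lt_mul _ h1]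
  congr 1
  have h3 := mul_vx_cor (lt_cor (K := K) (q, r) h2)
  simp only at h3
  rw [← lt_mul _ h2, h3]

theorem rel_lt (p r : H.S) (hpr : H.sd p = H.sd r) :
    ∑ q ∈ H.fib (H.opp (H.sd p)), (lt (p, q) * lt (q, r) : HA H K) =
      if p = r then vx (H.vt p) else 0 := by
  have h1 := congrArg (fun f => f (vx (H.vt r))) (rel_op (K := K) p r hpr)
  simp only [LinearMap.sum_apply] at h1
  have h2 : ∀ q ∈ H.fib (H.opp (H.sd p)), (lt (p, q) * lt (q, r) : HA H K) =
      (lop (p, q) ∘ₗ lop (q, r)) (vx (H.vt r)) := by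
    intro q hq
    rw [H.mem_fib] at hq
    apply lt_mul_lt
    · exact hq
    · unfold Va; simp only; rw [hq, H.opp_opp, hpr]
  rw [Finset.sum_congr rfl h2, h1]
  split_ifs with h
  · subst h
    rw [← vx_mul, vx_mul_cor (vx_cor _)]
  · rfl

theorem exists_co {A : HA H K} (h : A ≠ 0) : ∃ x, co A x ≠ 0 := by
  by_contra h2
  push Not at h2
  exact h (ext_co (fun x => by rw [h2 x, co_zero]))

theorem exists_max {A : HA H K} (h : A ≠ 0) : ∃ d, (∀ x, co A x ≠ 0 → x.2.length ≤ d) ∧
    ∃ x, co A x ≠ 0 ∧ x.2.length = d := by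
  obtain ⟨x0, hx0⟩ := exists_co h
  have hne : (show H.Wd →₀ K from A).support.Nonempty := ⟨x0, Finsupp.mem_support_iff.2 hx0⟩
  obtain ⟨x, hx1, hx2⟩ := Finset.exists_max_image _ (fun x : H.Wd => x.2.length) hne
  refine ⟨x.2.length, fun y hy => hx2 y (Finsupp.mem_support_iff.2 hy), x,
    Finsupp.mem_support_iff.1 hx1, rfl⟩

theorem exists_min {A : HA H K} (h : A ≠ 0) : ∃ x, co A x ≠ 0 ∧
    ∀ y, co A y ≠ 0 → x.2.length ≤ y.2.length := by
  obtain ⟨x0, hx0⟩ := exists_co h
  have hne : (show H.Wd →₀ K from A).support.Nonempty := ⟨x0, Finsupp.mem_support_iff.2 hx0⟩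
  obtain ⟨x, hx1, hx2⟩ := Finset.exists_min_image _ (fun x : H.Wd => x.2.length) hne
  exact ⟨x, Finsupp.mem_support_iff.1 hx1, fun y hy => hx2 y (Finsupp.mem_support_iff.2 hy)⟩

end HG

end

end Pool.Agent.Lib.MP_f1fc44_al
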