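import Pool.Agent.Lib.MP_f1fc44_al.C

/-!
Part D: elements which are not quasi-regular; the case of free vertices.
-/

namespace Pool.Agent.Lib.MP_f1fc44_al

open scoped Classical

noncomputable section

universe u1 u2 u3 u4

namespace HG

variable {H : HG.{u1, u2, u3}} {K : Type u4} [Field K]

/-- not quasi-regular -/
def NQ (X : HA H K) : Prop := ¬ ∃ W : HA H K, X + W - X * W = 0 ∧ X + W - W * X = 0

def NR (w : H.V) (X : HA H K) : Prop :=
  ∀ Z ∈ SP (fun x : H.Wd => Ok x ∧ x.1 = w), (vx w - X) * Z ≠ vx w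

theorem proj_in (u : H.V) (m : HA H K) : proj u m ∈ SP (fun x : H.Wd => Ok x ∧ x.1 = u) := by
  have hm : m ∈ SP (fun _ : H.Wd => True) := mem_SP.2 (fun _ _ => trivial)
  apply SP_map _ _ _ hm
  intro x _
  rw [proj_sg]
  split_ifs with h
  · exact sg_mem_SP h
  · exact Submodule.zero_mem _

theorem NQ_of_NR {w : H.V} {X : HA H K} (hX : X ∈ Cor w w) (h : NR w X) : NQ X := by
  rintro ⟨W, h1, _⟩
  have e1 : vx w * vx w = (vx w : HA H K) := vx_mul_cor (vx_cor w)
  have e2 : X * vx w = X := mul_vx_cor hX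
  have e3 : vx w * X = X := vx_mul_cor hX
  apply h (vx w - vx w * W)
  · apply Submodule.sub_mem
    · exact SP_mono (fun x hx => ⟨hx.1, hx.2.1⟩) (vx_cor w)
    · rw [vx_mul]; exact proj_in w W
  · have e4 : (vx w - X) * (vx w - vx w * W) = vx w - vx w * (X + W - X * W) := by
      rw [sub_mul, mul_sub, mul_sub, e1, e2, ← mul_assoc, e1, ← mul_assoc, e2, mul_sub, mul_add,
        e3, ← mul_assoc, e3]
      abel
    rw [e4, h1, mul_zero, sub_zero]

theorem NQ_st {w : H.V} {X : HA H K} (hX : X ∈ Cor w w) (h : NQ X) : NQ (st X) := by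
  rintro ⟨W, h1, h2⟩
  apply h
  refine ⟨st W, ?_, ?_⟩
  · have := congrArg st h2
    rw [map_sub, map_add, st_mul, st_st hX, map_zero] at this
    exact this
  · have := congrArg st h1
    rw [map_sub, map_add, st_mul, st_st hX, map_zero] at this
    exact this

theorem co_vx_ne {w : H.V} {x : H.Wd} (h : co (vx w : HA H K) x ≠ 0) : x = (w, []) := by
  rw [vx, co_sg] at h
  by_contra h2
  exact h (if_neg (fun h3 => h2 h3.symm))

/-- the degree argument -/
theorem qlem {w : H.V} {X : HA H K} {d : ℕ} (hX : X ∈ Cor w w) (hd : 1 ≤ d)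
    (hb : ∀ x, co X x ≠ 0 → x.2.length ≤ d) (x0 : H.Wd) (h0 : co X x0 ≠ 0)
    (h0d : x0.2.length = d)
    (hRS : ∀ x y : H.Wd, co X x ≠ 0 → x.2.length = d → NC x.2 y.2) : NR w X := by
  intro Z hZ hXZ
  have hZ0 : Z ≠ 0 := by
    rintro rfl
    rw [mul_zero] at hXZ
    have : co (vx w : HA H K) (w, []) = 1 := by rw [vx, co_sg, if_pos rfl]
    rw [← hXZ, co_zero] at this
    exact zero_ne_one this
  obtain ⟨e, he, y0, hy0, hy0e⟩ := exists_max hZ0
  have hcoA : ∀ x, 1 ≤ x.2.length → co (vx w - X) x = - co X x := by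
    intro x hx
    rw [co_sub]
    have : co (vx w : HA H K) x = 0 := by
      by_contra h
      rw [co_vx_ne h] at hx
      simp at hx
    rw [this, zero_sub]
  have hA : ∀ x, co (vx w - X) x ≠ 0 → x.2.length ≤ d := by
    intro x hx
    by_cases h : 1 ≤ x.2.length
    · rw [hcoA x h] at hx
      exact hb x (by simpa using hx)
    · omega
  have hx0 := (mem_SP.1 hX) x0 h0
  have hy0' := (mem_SP.1 hZ) y0 hy0
  have h1 := mul_top (A := vx w - X) (B := Z) (d := d) (e := e) hA he
    (by
      intro x y hx hy hxd hye _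
      apply hRS x y _ hxd
      rw [hcoA x (by omega)] at hx
      simpa using hx)
    x0 y0 hx0.1 hy0'.1 h0d hy0e (by rw [hx0.2.2, hy0'.2])
    (by rw [hcoA x0 (by omega)]; simpa using h0) hy0
  rw [hXZ] at h1
  have h2 : co (vx w : HA H K) (x0.1, x0.2 ++ y0.2) ≠ 0 := by
    rw [h1]
    apply mul_ne_zero _ hy0
    rw [hcoA x0 (by omega)]; simpa using h0
  have h3 := co_vx_ne h2
  rw [Prod.mk.injEq] at h3
  have h4 := congrArg List.length h3.2
  simp only [List.length_append, List.length_nil] at h4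
  omega

/-! ### Free vertices -/

inductive TS : H.S → Prop
  | ns (q : H.S) : ¬ Spc q → TS q
  | step (q p' q' : H.S) : H.vt p' = H.vt q → p' ≠ q → H.sd q' = H.opp (H.sd p') → TS q' → TS q

def TP (p : H.S) : Prop := ∃ q', H.sd q' = H.opp (H.sd p) ∧ TS q'

def Mono (p : H.S) : Prop := ∀ p', H.sd p' = H.sd p → p' = p

/-- vertices that are not free -/
def NF (z : H.V) : Prop :=
  ∀ p, H.vt p = z → TP p → Mono p ∧ ∀ p', H.vt p' = z → TP p' → p' = p

theorem free_of {z : H.V} (h : ¬ NF z) : (∃ p, H.vt p = z ∧ TP p) ∧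
    ∀ s, H.vt s = z → Mono s → ∃ p, H.vt p = z ∧ p ≠ s ∧ TP p := by
  unfold NF at h
  push Not at h
  obtain ⟨p, h1, h2, h3⟩ := h
  refine ⟨⟨p, h1, h2⟩, ?_⟩
  intro s hs hm
  by_cases hps : p = s
  · subst hps
    obtain ⟨p', h4, h5, h6⟩ := h3 hm
    exact ⟨p', h4, h6, h5⟩
  · exact ⟨p, h1, hps, h2⟩

def Top (A : HA H K) (d : ℕ) (PL PF : H.S → Prop) : Prop :=
  1 ≤ d ∧ (∀ x, co A x ≠ 0 → x.2.length ≤ d) ∧ (∃ x, co A x ≠ 0 ∧ x.2.length = d) ∧
  ∀ x, co A x ≠ 0 → x.2.length = d → (∀ a ∈ x.2.getLast?, PL a.2) ∧ (∀ a ∈ x.2.head?, PF a.1)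

theorem co_lt_ne {c : H.S × H.S} {y : H.Wd} (h : co (lt c : HA H K) y ≠ 0) :
    y = (H.vt c.1, [c]) := by
  rw [lt, co_sg] at h
  by_contra h2
  exact h (if_neg (fun h3 => h2 h3.symm))

theorem head_append {α : Type*} {l l' : List α} (h : l ≠ []) : (l ++ l').head? = l.head? := by
  rcases l with _ | ⟨a, l⟩
  · exact absurd rfl h
  · rfl

theorem extTS {q : H.S} (hq : TS q) : ∀ (u : H.V) (A : HA H K) (d : ℕ) (PF : H.S → Prop),
    A ∈ Cor u (H.vt q) → Top A d (fun s => s = q) PF →
    ∃ (v' : H.V) (ζ : HA H K) (d' : ℕ), ζ ∈ Cor (H.vt q) v' ∧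
      Top (A * ζ) d' (fun s => ¬ Spc s) PF := by
  induction hq with
  | ns q hns =>
    intro u A d PF hA hT
    refine ⟨H.vt q, vx (H.vt q), d, vx_cor _, ?_⟩
    rw [mul_vx_cor hA]
    refine ⟨hT.1, hT.2.1, hT.2.2.1, fun x hx hxd => ⟨fun a ha => ?_, (hT.2.2.2 x hx hxd).2⟩⟩
    rw [(hT.2.2.2 x hx hxd).1 a ha]
    exact hns
  | step q p' q' h1 h2 h3 h4 ih =>
    intro u A d PF hA hT
    have hva : Va ((p', q') : H.S × H.S) := h3
    have hc : (lt (p', q') : HA H K) ∈ Cor (H.vt p') (H.vt q') := lt_cor _ hva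
    have hA' : A * lt (p', q') ∈ Cor u (H.vt q') := cor_mul hA hc
    have hB : ∀ y, co (lt (p', q') : HA H K) y ≠ 0 → y.2.length ≤ 1 := by
      intro y hy; rw [co_lt_ne hy]; simp
    have hnc : ∀ x y, co A x ≠ 0 → co (lt (p', q') : HA H K) y ≠ 0 → x.2.length = d →
        y.2.length = 1 → en x = y.1 → NC x.2 y.2 := by
      intro x y hx hy hxd _ _
      rw [co_lt_ne hy]
      intro a ha b hb hcf
      simp only [List.head?_cons, Option.mem_def, Option.some.injEq] at hb
      subst hb
      have := (hT.2.2.2 x hx hxd).1 a ha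
      have h5 := hcf.1
      simp only at h5
      exact h2 (h5.symm.trans this)
    have hT' : Top (A * lt (p', q')) (d + 1) (fun s => s = q') PF := by
      refine ⟨by omega, ?_, ?_, ?_⟩
      · intro z hz
        obtain ⟨x, y, g1, g2, g3, g4, g5, g6, g7, g8, g9, g10⟩ := mul_co' hz
        have := hT.2.1 x g1
        have := hB y g2
        omega
      · obtain ⟨x0, hx0, hx0d⟩ := hT.2.2.1
        refine ⟨(x0.1, x0.2 ++ [(p', q')]), ?_, by simp [hx0d]⟩
        have hx0' := (mem_SP.1 hA) x0 hx0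
        have := mul_top (A := A) (B := lt (p', q')) (d := d) (e := 1) hT.2.1 hB hnc x0
          (H.vt p', [(p', q')]) hx0'.1 (ok_single _ hva) hx0d (by simp)
          (by rw [hx0'.2.2]; exact h1.symm) hx0 (by rw [lt, co_sg, if_pos rfl]; exact one_ne_zero)
        simp only at this
        rw [this]
        apply mul_ne_zero hx0
        rw [lt, co_sg, if_pos rfl]; exact one_ne_zero
      · intro z hz hzd
        obtain ⟨x, y, g1, g2, g3, g4, g5, g6, g7, g8⟩ := top_supp (A := A) (B := lt (p', q'))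
          (d := d) (e := 1) hT.2.1 hB hnc hz hzd
        have hx := hT.2.2.2 x g1 g3
        have hxne : x.2 ≠ [] := by
          intro h; rw [h] at g3; have := hT.1; simp at g3; omega
        rw [g8, co_lt_ne g2]
        refine ⟨?_, ?_⟩
        · intro a ha
          simp at ha
          subst ha
          rfl
        · intro a ha
          simp only at ha
          rw [head_append hxne] at ha
          exact hx.2 a ha
    obtain ⟨v', ζ, d', hζ, hTζ⟩ := ih u (A * lt (p', q')) (d + 1) PF hA' hT'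
    refine ⟨v', lt (p', q') * ζ, d', ?_, ?_⟩
    · have := cor_mul hc hζ
      rwa [h1] at this
    · rw [← mul_assoc]; exact hTζ

theorem mul_lt_co (x : H.Wd) (c : H.S × H.S) (hx : Ok x) (hc : Va c) (hxc : en x = H.vt c.1)
    (z : H.Wd) (hz : co (sg x * lt c : HA H K) z ≠ 0) (hzl : z.2.length = x.2.length + 1) :
    (z = (x.1, x.2 ++ [c])) ∨
      (∃ l b j, x.2 = l ++ [b] ∧ Cf b c ∧ H.sd j = H.sd b.2 ∧ j ≠ b.2 ∧
        z = (x.1, l ++ [(b.1, j), (j, c.2)])) := by
  by_cases hnc : NC x.2 [c]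
  · left
    rw [lt, mul_nc x.1 _ x.2 _ hx (ok_single c hc) hxc.symm hnc, co_sg] at hz
    by_contra h
    exact hz (if_neg (fun h2 => h h2.symm))
  · right
    unfold NC at hnc
    push Not at hnc
    obtain ⟨b, hb, c', hc', hcf⟩ := hnc
    simp only [List.head?_cons, Option.mem_def, Option.some.injEq] at hc'
    subst hc'
    obtain ⟨u, l0⟩ := x
    rcases List.eq_nil_or_concat l0 with rfl | ⟨l, b', rfl⟩
    · simp at hb
    have hbb : b' = b := by simpa using hb
    subst hbb
    simp only [List.concat_eq_append] at *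
    rw [mul_cf_last u l b' c hx hc hcf, co_sub] at hz
    have h1 : co (if b'.1 = c.2 then sg (u, l) else 0 : HA H K) z = 0 := by
      split_ifs with h
      · rw [co_sg, if_neg]
        rintro rfl
        simp at hzl
        omega
      · rfl
    rw [h1, zero_sub, co_sum, neg_ne_zero] at hz
    obtain ⟨j, hj, hj2⟩ := Finset.exists_ne_zero_of_sum_ne_zero hz
    rw [Finset.mem_erase, H.mem_fib] at hj
    refine ⟨l, b', j, rfl, hcf, hj.2, hj.1, ?_⟩
    rw [co_sg] at hj2
    by_contra h
    exact hj2 (if_neg (fun h2 => h h2.symm))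

theorem ext_first {u v : H.V} (hv : ¬ NF v) (A : HA H K) (hA : A ∈ Cor u v) (d : ℕ)
    (hb : ∀ x, co A x ≠ 0 → x.2.length ≤ d) (x0 : H.Wd) (hx0 : co A x0 ≠ 0)
    (hx0d : x0.2.length = d) (PF : H.S → Prop)
    (hF : ∀ x, co A x ≠ 0 → x.2.length = d → ∀ a ∈ x.2.head?, PF a.1)
    (hF2 : 1 ≤ d ∨ ∀ s, PF s) :
    ∃ p q : H.S, Va ((p, q) : H.S × H.S) ∧ H.vt p = v ∧ TS q ∧
      Top (A * lt (p, q)) (d + 1) (fun s => s = q) PF := by
  obtain ⟨hf1, hf2⟩ := free_of hv
  have hx0' := (mem_SP.1 hA) x0 hx0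
  -- choice of the letter
  obtain ⟨p, q, hva, hp, hTS, hch⟩ : ∃ p q : H.S, Va ((p, q) : H.S × H.S) ∧ H.vt p = v ∧ TS q ∧
      (NC x0.2 [(p, q)] ∨ ∃ l b j, x0.2 = l ++ [b] ∧ Cf b (p, q) ∧ H.sd j = H.sd b.2 ∧
        j ≠ b.2) := by
    rcases List.eq_nil_or_concat x0.2 with h | ⟨l, b, h⟩
    · obtain ⟨p, h1, q, h2, h3⟩ := hf1
      refine ⟨p, q, h2, h1, h3, Or.inl ?_⟩
      rw [h]
      intro a ha
      simp at ha
    · rw [List.concat_eq_append] at h
      have hbv : H.vt b.2 = v := by
        rw [← hx0'.2.2, ← Prod.eta x0, h, en_append_cons]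
      by_cases hm : Mono b.2
      · obtain ⟨p, h1, h2, q, h3, h4⟩ := hf2 b.2 hbv hm
        refine ⟨p, q, h3, h1, h4, Or.inl ?_⟩
        intro a ha c hc hcf
        rw [h] at ha
        simp only [List.getLast?_append, List.getLast?_singleton, Option.some_or,
          Option.mem_def, Option.some.injEq, List.head?_cons] at ha hc
        subst ha hc
        exact h2 hcf.1.symm
      · obtain ⟨p, h1, q, h2, h3⟩ := hf1
        refine ⟨p, q, h2, h1, h3, ?_⟩
        by_cases hcf : Cf b (p, q)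
        · right
          unfold Mono at hm
          push Not at hm
          obtain ⟨j, hj1, hj2⟩ := hm
          exact ⟨l, b, j, h, hcf, hj1, hj2⟩
        · left
          intro a ha c hc
          rw [h] at ha
          simp only [List.getLast?_append, List.getLast?_singleton, Option.some_or,
            Option.mem_def, Option.some.injEq, List.head?_cons] at ha hc
          subst ha hc
          exact hcf
  refine ⟨p, q, hva, hp, hTS, by omega, ?_, ?_, ?_⟩
  · intro z hz
    obtain ⟨x, y, g1, g2, g3, g4, g5, g6, g7, g8, g9, g10⟩ := mul_co' hz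
    have g11 := hb x g1
    rw [co_lt_ne g2] at g9
    simp only [List.length_cons, List.length_nil] at g9
    omega
  · -- a leading word
    have e1 : A * lt (p, q) = co A x0 • (sg x0 * lt (p, q)) +
        (A - co A x0 • sg x0) * lt (p, q) := by
      rw [sub_mul, smul_mul_assoc]; abel
    have hA' : ∀ x, co (A - co A x0 • sg x0) x ≠ 0 → co A x ≠ 0 ∧ x ≠ x0 := by
      intro x hx'
      rw [co_sub, co_smul, co_sg] at hx'
      by_cases h : x0 = x
      · subst h; simp at hx'
      · rw [if_neg h] at hx'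
        refine ⟨by simpa using hx', fun h' => h h'.symm⟩
    have key : ∀ z, co ((A - co A x0 • sg x0) * lt (p, q)) z ≠ 0 → z.2.length = d + 1 →
        ∃ x, x ≠ x0 ∧ x.1 = u ∧ ((z = (x.1, x.2 ++ [(p, q)])) ∨
          (∃ l b j, x.2 = l ++ [b] ∧ Cf b (p, q) ∧ H.sd j = H.sd b.2 ∧ j ≠ b.2 ∧
        z = (x.1, l ++ [(b.1, j), (j, q)]))) := by
      intro z hz hzd
      obtain ⟨x, y, g1, g2, g3, g4, g5, g6, g7, g8, g9, g10⟩ := mul_co' hz
      have g11 := hb x (hA' x g1).1
      rw [co_lt_ne g2] at g9 g3 g6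
      simp only [List.length_cons, List.length_nil] at g9
      have hxu := (mem_SP.1 hA) x (hA' x g1).1
      refine ⟨x, (hA' x g1).2, hxu.2.1, ?_⟩
      exact mul_lt_co x (p, q) g4 hva g6 z g3 (by omega)
    rcases hch with hnc | ⟨l, b, j, hl, hcf, hj1, hj2⟩
    · refine ⟨(x0.1, x0.2 ++ [(p, q)]), ?_, by simp [hx0d]⟩
      have e2 : co (sg x0 * lt (p, q) : HA H K) (x0.1, x0.2 ++ [(p, q)]) = 1 := by
        rw [lt, mul_nc x0.1 _ x0.2 _ hx0'.1 (ok_single _ hva) (by rw [hp]; exact hx0'.2.2.symm)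
          hnc, co_sg, if_pos rfl]
      have e3 : co ((A - co A x0 • sg x0) * lt (p, q)) (x0.1, x0.2 ++ [(p, q)]) = 0 := by
        by_contra hne
        obtain ⟨x, hx1, hx2, h3⟩ := key _ hne (by simp [hx0d])
        rcases h3 with h3 | ⟨l, b, j, h4, h5, h6, h7, h8⟩
        · rw [Prod.mk.injEq] at h3
          apply hx1
          exact Prod.ext h3.1.symm (List.append_cancel_right h3.2).symm
        · rw [Prod.mk.injEq] at h8
          have h9 := congrArg List.getLast? h8.2
          simp only [List.getLast?_append, List.getLast?_singleton, Option.some_or,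
            List.getLast?_cons_cons, Option.some.injEq, Prod.mk.injEq, and_true] at h9
          exact h7 (h9.symm.trans h5.1.symm)
      rw [e1, co_add, e3, add_zero, co_smul, e2, mul_one]
      exact hx0
    · refine ⟨(x0.1, l ++ [(b.1, j), (j, q)]), ?_, ?_⟩
      swap
      · rw [← hx0d, hl]; simp
      have hok : Ok ((x0.1, l ++ [b]) : H.Wd) := by
        have := hx0'.1
        rwa [← Prod.eta x0, hl] at this
      have e2 : co (sg x0 * lt (p, q) : HA H K) (x0.1, l ++ [(b.1, j), (j, q)]) = -1 := by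
        rw [show x0 = (x0.1, l ++ [b]) from Prod.ext rfl hl, mul_cf_last _ l b _ hok hva hcf,
          co_sub]
        have h1 : co (if b.1 = (p, q).2 then sg (x0.1, l) else 0 : HA H K)
            (x0.1, l ++ [(b.1, j), (j, q)]) = 0 := by
          split_ifs with h
          · rw [co_sg, if_neg]
            intro h2
            rw [Prod.mk.injEq] at h2
            have := congrArg List.length h2.2
            simp at this
          · rfl
        rw [h1, zero_sub, co_sum, Finset.sum_eq_single j]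
        · rw [co_sg, if_pos rfl]
        · intro j' _ hj'
          rw [co_sg, if_neg]
          intro h2
          rw [Prod.mk.injEq] at h2
          have h3 := List.append_cancel_left h2.2
          simp only [List.cons.injEq, Prod.mk.injEq] at h3
          exact hj' h3.1.2
        · intro h
          exfalso
          apply h
          rw [Finset.mem_erase, H.mem_fib]
          exact ⟨hj2, hj1⟩
      have e3 : co ((A - co A x0 • sg x0) * lt (p, q)) (x0.1, l ++ [(b.1, j), (j, q)]) = 0 := by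
        by_contra hne
        obtain ⟨x, hx1, hx2, h3⟩ := key _ hne (by rw [← hx0d, hl]; simp)
        rcases h3 with h3 | ⟨l', b', j', h4, h5, h6, h7, h8⟩
        · rw [Prod.mk.injEq] at h3
          have h9 := congrArg List.getLast? h3.2
          simp only [List.getLast?_append, List.getLast?_singleton, Option.some_or,
            List.getLast?_cons_cons, Option.some.injEq, Prod.mk.injEq, and_true] at h9
          exact hj2 (h9.trans hcf.1.symm)
        · rw [Prod.mk.injEq] at h8
          have h9 := List.append_inj' h8.2 (by simp)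
          simp only [List.cons.injEq, Prod.mk.injEq, and_true] at h9
          apply hx1
          apply Prod.ext
          · exact h8.1.symm
          · rw [hl, h4, ← h9.1]
            congr 1
            rw [List.cons.injEq]
            refine ⟨?_, rfl⟩
            apply Prod.ext
            · exact h9.2.1.1.symm
            · exact h5.1.trans hcf.1.symm
      rw [e1, co_add, e3, add_zero, co_smul, e2]
      simpa using hx0
  · intro z hz hzd
    obtain ⟨x, y, g1, g2, g3, g4, g5, g6, g7, g8, g9, g10⟩ := mul_co' hz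
    have g11 := hb x g1
    rw [co_lt_ne g2] at g9 g3 g6
    simp only [List.length_cons, List.length_nil] at g9
    have hxd : x.2.length = d := by omega
    rcases mul_lt_co x (p, q) g4 hva g6 z g3 (by omega) with h | ⟨l, b, j, h4, h5, h6, h7, h8⟩
    · rw [h]
      refine ⟨?_, ?_⟩
      · intro a ha
        simp at ha
        subst ha
        rfl
      · intro a ha
        simp only at ha
        by_cases hx : x.2 = []
        · rcases hF2 with h9 | h9
          · rw [hx] at hxd; simp at hxd; omega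
          · exact h9 _
        · rw [head_append hx] at ha
          exact hF x g1 hxd a ha
    · rw [h8]
      refine ⟨?_, ?_⟩
      · intro a ha
        simp only [List.getLast?_append, List.getLast?_singleton, Option.some_or,
            List.getLast?_cons_cons, Option.mem_def, Option.some.injEq] at ha
        subst ha
        rfl
      · intro a ha
        have h9 := hF x g1 hxd
        rw [h4] at h9
        rcases l with _ | ⟨a', l⟩
        · simp only [List.nil_append, List.head?_cons, Option.mem_def, Option.some.injEq,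
            forall_eq'] at ha h9
          subst ha
          exact h9
        · simp only [List.cons_append, List.head?_cons, Option.mem_def, Option.some.injEq,
            forall_eq'] at ha h9
          subst ha
          exact h9

theorem ext_free {u v : H.V} (hv : ¬ NF v) (A : HA H K) (hA : A ∈ Cor u v) (d : ℕ)
    (hb : ∀ x, co A x ≠ 0 → x.2.length ≤ d) (x0 : H.Wd) (hx0 : co A x0 ≠ 0)
    (hx0d : x0.2.length = d) (PF : H.S → Prop)
    (hF : ∀ x, co A x ≠ 0 → x.2.length = d → ∀ a ∈ x.2.head?, PF a.1)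
    (hF2 : 1 ≤ d ∨ ∀ s, PF s) :
    ∃ (v' : H.V) (ζ : HA H K) (d' : ℕ), ζ ∈ Cor v v' ∧
      Top (A * ζ) d' (fun s => ¬ Spc s) PF := by
  obtain ⟨p, q, hva, hp, hTS, hT⟩ := ext_first hv A hA d hb x0 hx0 hx0d PF hF hF2
  have hc : (lt (p, q) : HA H K) ∈ Cor (H.vt p) (H.vt q) := lt_cor _ hva
  obtain ⟨v', ζ, d', h1, h2⟩ := extTS hTS u (A * lt (p, q)) (d + 1) PF (cor_mul hA hc) hT
  refine ⟨v', lt (p, q) * ζ, d', ?_, ?_⟩
  · have := cor_mul hc h1
    rwa [hp] at this
  · rw [← mul_assoc]; exact h2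

theorem free_case {u v : H.V} (hu : ¬ NF u) (hv : ¬ NF v) (A : HA H K) (hA : A ∈ Cor u v)
    (hA0 : A ≠ 0) : ∃ (w : H.V) (z' z : HA H K), z' ∈ Cor w u ∧ z ∈ Cor v w ∧
      NQ (z' * A * z) := by
  obtain ⟨d, hb, x0, hx0, hx0d⟩ := exists_max hA0
  obtain ⟨v1, ζ1, d1, hζ1, hT1⟩ := ext_free hv A hA d hb x0 hx0 hx0d (fun _ => True)
    (fun _ _ _ _ _ => trivial) (Or.inr (fun _ => trivial))
  set A1 := A * ζ1 with hA1
  have hA1c : A1 ∈ Cor u v1 := cor_mul hA hζ1
  have hsA1c : st A1 ∈ Cor v1 u := st_cor hA1c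
  obtain ⟨x1, hx1, hx1d⟩ := hT1.2.2.1
  have hx1' := (mem_SP.1 hA1c) x1 hx1
  have hst : ∀ z, co (st A1) z ≠ 0 → Ok z ∧ co A1 (stW z) ≠ 0 := by
    intro z hz
    rw [co_st] at hz
    by_cases h : Ok z
    · rw [if_pos h] at hz; exact ⟨h, hz⟩
    · rw [if_neg h] at hz; exact absurd rfl hz
  obtain ⟨v2, ζ2, d2, hζ2, hT2⟩ := ext_free hu (st A1) hsA1c d1
    (fun x hx => by rw [← stW_len]; exact hT1.2.1 _ (hst x hx).2)
    (stW x1) (by rw [co_st, if_pos (ok_stW x1 hx1'.1), stW_stW x1 hx1'.1]; exact hx1)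
    (by rw [stW_len, hx1d]) (fun s => ¬ Spc s)
    (by
      intro x hx hxd a ha
      have h1 := (hT1.2.2.2 _ (hst x hx).2 (by rw [stW_len, hxd])).1 a.swap
      apply h1
      unfold stW
      rw [List.getLast?_reverse, List.head?_map]
      rw [Option.mem_def] at ha
      rw [ha]
      rfl)
    (Or.inl hT1.1)
  set A2 := st A1 * ζ2 with hA2
  have hA2c : A2 ∈ Cor v1 v2 := cor_mul hsA1c hζ2
  obtain ⟨z0, hz0, hz0d⟩ := hT2.2.2.1
  have hz0' := (mem_SP.1 hA2c) z0 hz0
  have hqc : (sg (stW z0) : HA H K) ∈ Cor v2 v1 := by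
    have := sg_cor (K := K) (stW z0) (ok_stW z0 hz0'.1)
    rwa [stW_fst, en_stW z0 hz0'.1, hz0'.2.1, hz0'.2.2] at this
  set X := sg (stW z0) * A2 with hX
  have hXc : X ∈ Cor v2 v2 := cor_mul hqc hA2c
  have hbq : ∀ x, co (sg (stW z0) : HA H K) x ≠ 0 → x = stW z0 := by
    intro x hx
    rw [co_sg] at hx
    by_contra h
    exact hx (if_neg (fun h2 => h h2.symm))
  have hnc : ∀ x y, co (sg (stW z0) : HA H K) x ≠ 0 → co A2 y ≠ 0 → x.2.length = d2 →
      y.2.length = d2 → en x = y.1 → NC x.2 y.2 := by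
    intro x y hx hy hxd hyd _
    rw [hbq x hx]
    intro a ha b hb hcf
    unfold stW at ha
    simp only [List.getLast?_reverse, List.head?_map, Option.mem_def,
        Option.map_eq_some_iff] at ha
    obtain ⟨a', ha', rfl⟩ := ha
    exact (hT2.2.2.2 z0 hz0 hz0d).2 a' ha' hcf.2
  have hNR : NR v2 X := by
    have h2 : 1 ≤ d2 + d2 := by have := hT2.1; omega
    have h3 : co X ((stW z0).1, (stW z0).2 ++ z0.2) = co (sg (stW z0) : HA H K) (stW z0) *
        co A2 z0 := by
      apply mul_top (d := d2) (e := d2) _ hT2.2.1 hnc (stW z0) z0 (ok_stW z0 hz0'.1) hz0'.1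
        (by rw [stW_len, hz0d]) hz0d (en_stW z0 hz0'.1) _ hz0
      · intro x hx
        rw [hbq x hx, stW_len, hz0d]
      · rw [co_sg, if_pos rfl]; exact one_ne_zero
    apply qlem hXc h2 _ ((stW z0).1, (stW z0).2 ++ z0.2)
    · rw [h3]
      apply mul_ne_zero _ hz0
      rw [co_sg, if_pos rfl]; exact one_ne_zero
    · simp [stW_len, hz0d]
    · intro x y hx hxd
      obtain ⟨x', y', g1, g2, g3, g4, g5, g6, g7, g8⟩ := top_supp (d := d2) (e := d2)
        (fun x hx => by rw [hbq x hx, stW_len, hz0d]) hT2.2.1 hnc hx hxd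
      have hyne : y'.2 ≠ [] := by
        intro h
        rw [h] at g4
        have := hT2.1
        simp at g4
        omega
      intro a ha b hb hcf
      rw [g8] at ha
      simp only at ha
      have ha2 : a ∈ y'.2.getLast? := by
        rw [List.getLast?_append_of_ne_nil _ hyne] at ha
        exact ha
      exact (hT2.2.2.2 y' g2 g4).1 a ha2 hcf.2
    · intro x hx
      obtain ⟨x', y', g1, g2, g3, g4, g5, g6, g7, g8, g9, g10⟩ := mul_co' hx
      have := hT2.2.1 y' g2
      rw [hbq x' g1, stW_len, hz0d] at g9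
      omega
  have hNQ : NQ (st X) := NQ_st hXc (NQ_of_NR hXc hNR)
  refine ⟨v2, st ζ2, ζ1 * st (sg (stW z0)), st_cor hζ2, cor_mul hζ1 (st_cor hqc), ?_⟩
  have e : st X = st ζ2 * A * (ζ1 * st (sg (stW z0))) := by
    rw [hX, hA2, st_mul, st_mul, st_st hA1c, hA1]
    simp only [mul_assoc]
  rw [← e]
  exact hNQ

end HG

end

end Pool.Agent.Lib.MP_f1fc44_al
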