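import Mathlib

/-!
# Weighted Leavitt path algebras

The weighted Leavitt path algebra `L_K(E,w)` of a row-finite weighted graph, as a ring without
identity: the quotient of the free non-unital associative `K`-algebra on the symbols
`v, e_i, e_i^*` by the two-sided ideal generated by the defining relations.
-/

namespace Pool.Agent.Lib.MP_f1fc44_al

universe u v w

/-- A weighted graph `(E,w)`: a directed graph with vertex set `V` (nonempty) and edge set `E`,
source map `src` and range map `rng`, such that every vertex emits only finitely many edges,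
together with a weight `wt e ≥ 1` for every edge `e`. -/
structure WGraph where
  V : Type u
  E : Type v
  src : E → V
  rng : E → V
  wt : E → ℕ
  vertex_nonempty : Nonempty V
  row_finite : ∀ x : V, {e : E | src e = x}.Finite
  wt_pos : ∀ e : E, 1 ≤ wt e

namespace WGraph

variable (G : WGraph.{u, v})

/-- The finite set `s⁻¹(x)` of edges emitted by the vertex `x`. -/
noncomputable def out (x : G.V) : Finset G.E := (G.row_finite x).toFinset

/-- `w(x) = max {w(e) : e ∈ s⁻¹(x)}` (it is `0` if `x` is a sink). -/
noncomputable def wmax (x : G.V) : ℕ := (G.out x).sup G.wt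

/-- The generating symbols: the vertices `x`, and for every edge `e` the symbols `e_i` and `e_i^*`
for `1 ≤ i ≤ w(e)`. Indices are shifted by one: `edge e i`, for `i = 0, ..., w(e) - 1`, stands for
the symbol `e_{i+1}`, and `ghost e i` stands for `e_{i+1}^*`. -/
inductive Gen
  | vert (x : G.V)
  | edge (e : G.E) (i : Fin (G.wt e))
  | ghost (e : G.E) (i : Fin (G.wt e))

variable (K : Type w) [Field K]

/-- The free associative `K`-algebra without identity on the generating symbols. -/
abbrev Free : Type _ := MonoidAlgebra K (FreeSemigroup G.Gen)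

/-- a generating symbol as an element of the free algebra -/
noncomputable def gen (g : G.Gen) : G.Free K := MonoidAlgebra.single (FreeSemigroup.of g) 1

/-- the vertex `x` in the free algebra -/
noncomputable def gv (x : G.V) : G.Free K := G.gen K (Gen.vert x)

/-- `e_{i+1}` in the free algebra, which is `0` by convention if `i + 1 > w(e)` -/
noncomputable def ge (e : G.E) (i : ℕ) : G.Free K :=
  if h : i < G.wt e then G.gen K (Gen.edge e ⟨i, h⟩) else 0

/-- `e_{i+1}^*` in the free algebra, which is `0` by convention if `i + 1 > w(e)` -/
noncomputable def gs (e : G.E) (i : ℕ) : G.Free K :=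
  if h : i < G.wt e then G.gen K (Gen.ghost e ⟨i, h⟩) else 0

open scoped Classical in
/-- The defining relations (1)-(4) of `L_K(E,w)`; `Rel a b` is the relation `a = b`.
(For a sink `x` the relations `ck1` and `ck2` are void, as `wmax x = 0` and `out x` is empty.) -/
inductive Rel : G.Free K → G.Free K → Prop
  | vert_self (x : G.V) : Rel (G.gv K x * G.gv K x) (G.gv K x)
  | vert_ne (x y : G.V) (h : x ≠ y) : Rel (G.gv K x * G.gv K y) 0
  | src_edge (e : G.E) (i : ℕ) : Rel (G.gv K (G.src e) * G.ge K e i) (G.ge K e i)
  | edge_rng (e : G.E) (i : ℕ) : Rel (G.ge K e i * G.gv K (G.rng e)) (G.ge K e i)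
  | rng_ghost (e : G.E) (i : ℕ) : Rel (G.gv K (G.rng e) * G.gs K e i) (G.gs K e i)
  | ghost_src (e : G.E) (i : ℕ) : Rel (G.gs K e i * G.gv K (G.src e)) (G.gs K e i)
  | ck1 (x : G.V) (i j : ℕ) (hi : i < G.wmax x) (hj : j < G.wmax x) :
      Rel (∑ e ∈ G.out x, G.ge K e i * G.gs K e j) (if i = j then G.gv K x else 0)
  | ck2 (x : G.V) (e f : G.E) (he : G.src e = x) (hf : G.src f = x) :
      Rel (∑ i ∈ Finset.range (G.wmax x), G.gs K e i * G.ge K f i)
        (if e = f then G.gv K (G.rng e) else 0)

/-- The two-sided ideal of the free algebra generated by all `K`-multiples `c • (a - b)` of the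
defining relations `a = b` (this ideal is a `K`-subspace). -/
noncomputable def relIdeal : TwoSidedIdeal (G.Free K) :=
  TwoSidedIdeal.span {x | ∃ (c : K) (a b : G.Free K), G.Rel K a b ∧ x = c • (a - b)}

/-- The weighted Leavitt path algebra `L_K(E,w)`, as a ring without identity. -/
abbrev Lpa : Type _ := (G.relIdeal K).ringCon.Quotient

noncomputable example : NonUnitalRing (G.Lpa K) := inferInstance

end WGraph

/-- A ring (possibly without identity) is semiprimitive if its Jacobson radical, the largest
quasi-regular two-sided ideal, is zero: every two-sided ideal all of whose elements are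
quasi-regular is the zero ideal. -/
def Semiprimitive (R : Type*) [NonUnitalRing R] : Prop :=
  ∀ I : TwoSidedIdeal R, (∀ x ∈ I, IsQuasiregular x) → I = ⊥

end Pool.Agent.Lib.MP_f1fc44_al
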