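import Pool.Agent.Lib.MP_f1fc44_al.D

/-!
Part E: the case where no free vertex can be reached; the main theorem on hypergraph algebras.
-/

namespace Pool.Agent.Lib.MP_f1fc44_al

open scoped Classical

noncomputable section

universe u1 u2 u3 u4

namespace HG

variable {H : HG.{u1, u2, u3}} {K : Type u4} [Field K]

def Iso (p : H.S) : Prop :=
  Mono p ∧ ∀ q q', H.sd q = H.opp (H.sd p) → H.sd q' = H.opp (H.sd p) → q = q'

/-- the orientation hypothesis -/
structure Ori (H : HG.{u1, u2, u3}) where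
  row : H.D → Prop
  hrow : ∀ d, row (H.opp d) ↔ ¬ row d
  hiso : ∀ p p' : H.S, H.vt p = H.vt p' → Iso p → Iso p' → row (H.sd p) → row (H.sd p') → p = p'

variable (O : Ori H)

def Sg (p : H.S) : Prop :=
  TP p ∨ ((∀ p', H.vt p' = H.vt p → ¬ TP p') ∧ Iso p ∧ O.row (H.sd p))

variable {O}

theorem mono_spc {p : H.S} (h : Mono p) : Spc p := (h _ (H.sd_sp _)).symm

theorem TS_inv {q : H.S} (h : TS q) : ¬ Spc q ∨ ∃ p', H.vt p' = H.vt q ∧ p' ≠ q ∧ TP p' := by
  cases h with
  | ns _ h => exact Or.inl h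
  | step _ p' q' h1 h2 h3 h4 => exact Or.inr ⟨p', h1, h2, q', h3, h4⟩

theorem sg_unique {p p' : H.S} (h : NF (H.vt p)) (hv : H.vt p' = H.vt p) (h1 : Sg O p)
    (h2 : Sg O p') : p' = p := by
  rcases h1 with h1 | ⟨h1, h3, h4⟩
  · rcases h2 with h2 | ⟨h2, _⟩
    · exact (h p rfl h1).2 p' hv h2
    · exact absurd h1 (h2 p hv.symm)
  · rcases h2 with h2 | ⟨h2, h5, h6⟩
    · exact absurd h2 (h1 p' hv)
    · exact O.hiso p' p hv h5 h3 h6 h4

theorem sg_mono {p : H.S} (h : NF (H.vt p)) (h1 : Sg O p) : Mono p := by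
  rcases h1 with h1 | ⟨_, h3, _⟩
  · exact (h p rfl h1).1
  · exact h3.1

theorem va_symm {p q : H.S} (h : Va ((p, q) : H.S × H.S)) : H.sd p = H.opp (H.sd q) := by
  unfold Va at h
  simp only at h
  rw [h, H.opp_opp]

theorem lemK {p q : H.S} (_hq : NF (H.vt q)) (hva : Va ((p, q) : H.S × H.S)) (hs : ¬ Sg O q) :
    NF (H.vt p) ∧ Sg O p := by
  have hpq := va_symm hva
  have hqp : H.sd q = H.opp (H.sd p) := hva
  have hntp : ¬ TP q := fun h => hs (Or.inl h)
  have hmono : Mono p := by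
    by_contra hm
    unfold Mono at hm
    push Not at hm
    obtain ⟨p2, h1, h2⟩ := hm
    apply hntp
    by_cases hsp : Spc p
    · refine ⟨p2, by rw [h1, hpq], TS.ns p2 ?_⟩
      intro h3
      unfold Spc at h3 hsp
      rw [h1, ← hsp] at h3
      exact h2 h3
    · exact ⟨p, hpq, TS.ns p hsp⟩
  have hno : ∀ p3, H.vt p3 = H.vt p → TP p3 → p3 = p := by
    intro p3 h1 h2
    by_contra h3
    apply hntp
    obtain ⟨q3, h4, h5⟩ := h2
    exact ⟨p, hpq, TS.step p p3 q3 h1 h3 h4 h5⟩
  refine ⟨?_, ?_⟩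
  · intro p1 h1 h2
    have h3 := hno p1 h1 h2
    subst h3
    exact ⟨hmono, hno⟩
  · by_cases htp : TP p
    · exact Or.inl htp
    · right
      have hnoTP : ∀ p', H.vt p' = H.vt p → ¬ TP p' := by
        intro p' h1 h2
        rw [hno p' h1 h2] at h2
        exact htp h2
      have hTSq : ¬ TS q := fun h => htp ⟨q, hqp, h⟩
      have hoppm : ∀ q', H.sd q' = H.opp (H.sd p) → Spc q' := by
        intro q' h1
        by_contra h2
        exact htp ⟨q', h1, TS.ns q' h2⟩
      have hisop : ∀ q1 q2, H.sd q1 = H.opp (H.sd p) → H.sd q2 = H.opp (H.sd p) → q1 = q2 := by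
        intro q1 q2 h1 h2
        have h3 := hoppm q1 h1
        have h4 := hoppm q2 h2
        unfold Spc at h3 h4
        rw [h3, h4, h1, h2]
      have hisoP : Iso p := ⟨hmono, hisop⟩
      have hisoQ : Iso q := by
        refine ⟨fun q' h => hisop q' q (by rw [h, hqp]) hqp, ?_⟩
        intro p1 p2 h1 h2
        rw [← hpq] at h1 h2
        rw [hmono p1 h1, hmono p2 h2]
      refine ⟨hnoTP, hisoP, ?_⟩
      by_contra hrow
      apply hs
      right
      refine ⟨?_, hisoQ, ?_⟩
      · intro p' h1 h2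
        by_cases h3 : p' = q
        · rw [h3] at h2; exact hntp h2
        · obtain ⟨q3, h4, h5⟩ := h2
          exact hTSq (TS.step q p' q3 h1 h3 h4 h5)
      · rw [hqp, O.hrow]; exact hrow

theorem lemN {p q : H.S} (hs : Sg O p) (hva : Va ((p, q) : H.S × H.S)) (hp : NF (H.vt p))
    (hq : NF (H.vt q)) : ¬ Sg O q := by
  intro hsq
  have hpq := va_symm hva
  have hqp : H.sd q = H.opp (H.sd p) := hva
  have hmp := sg_mono hp hs
  have hmq := sg_mono hq hsq
  rcases hs with htp | ⟨h1, h2, h3⟩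
  · obtain ⟨q', h4, h5⟩ := htp
    have h6 : q' = q := hmq q' (by rw [h4, hqp])
    subst h6
    rcases TS_inv h5 with h7 | ⟨p', h7, h8, h9⟩
    · exact h7 (mono_spc hmq)
    · exact h8 (sg_unique hq h7 hsq (Or.inl h9))
  · rcases hsq with htq | ⟨h4, h5, h6⟩
    · obtain ⟨p', h7, h8⟩ := htq
      have h9 : p' = p := hmp p' (by rw [h7, hpq])
      subst h9
      rcases TS_inv h8 with h10 | ⟨p2, h10, h11, h12⟩
      · exact h10 (mono_spc hmp)
      · exact h1 p2 h10 h12
    · rw [hqp, O.hrow] at h6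
      exact h6 h3

variable (O) in
def Fw (l : List (H.S × H.S)) : Prop := ∀ a ∈ l, Sg O a.1 ∧ NF (H.vt a.1)

theorem fwd_or_enter (u : H.V) (l : List (H.S × H.S)) (h : Ok ((u, l) : H.Wd))
    (hn : NF (en ((u, l) : H.Wd))) : Fw O l ∨ ∃ a ∈ l.getLast?, Sg O a.2 := by
  induction l using List.reverseRecOn with
  | nil => left; intro a ha; simp at ha
  | append_singleton l a ih =>
    by_cases hs : Sg O a.2
    · right; exact ⟨a, by simp, hs⟩
    left
    have h' := (ok_append u (en ((u, l) : H.Wd)) l [a] rfl).1 h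
    obtain ⟨h1, h2, h3⟩ := h'
    have ha := (ok_cons _ _ _).1 h2
    rw [en_append_cons] at hn
    obtain ⟨h4, h5⟩ := lemK (p := a.1) (q := a.2) hn ha.1 hs
    have h6 : NF (en ((u, l) : H.Wd)) := by rw [← ha.2.1]; exact h4
    have h7 : Fw O l := by
      rcases ih h1 h6 with h7 | ⟨b, hb, h8⟩
      · exact h7
      · exfalso
        apply h3 b hb a (by simp)
        have hbv : H.vt b.2 = H.vt a.1 := by
          rw [ha.2.1]
          unfold en
          simp only [Option.mem_def] at hb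
          simp [hb]
        have h9 := sg_unique h4 hbv h5 h8
        refine ⟨h9, ?_⟩
        rw [h9]
        exact mono_spc (sg_mono h4 h5)
    intro b hb
    rw [List.mem_append] at hb
    rcases hb with hb | hb
    · exact h7 b hb
    · simp only [List.mem_singleton] at hb
      subst hb
      exact ⟨h5, h4⟩

theorem last_vt (x : H.Wd) (a : H.S × H.S) (ha : a ∈ x.2.getLast?) : H.vt a.2 = en x := by
  unfold en
  simp only [Option.mem_def] at ha
  simp [ha]

theorem last_mem {α : Type*} (l : List α) (a : α) (ha : a ∈ l.getLast?) : a ∈ l :=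
  List.mem_of_getLast? ha

theorem NC_fw (x y : H.Wd) (hx : Ok x) (hn : NF (en x)) (h1 : Fw O x.2) (h2 : Fw O y.2) :
    NC x.2 y.2 := by
  intro a ha b hb hcf
  have ha' := last_mem _ _ ha
  have hb' := List.mem_of_mem_head? hb
  have h3 := h1 a ha'
  have h4 := h2 b hb'
  have h5 := lemN (O := O) (p := a.1) (q := a.2) h3.1 (hx.1 a ha') h3.2
    (by rw [last_vt x a ha]; exact hn)
  apply h5
  rw [hcf.1]
  exact h4.1

theorem make_fw (P : H.V → HA H K → Prop)
    (hP1 : ∀ z A, P z A → NF z ∧ ∀ x, co A x ≠ 0 → Ok x ∧ en x = z)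
    (hP2 : ∀ z A s, P z A → H.vt s = z → Sg O s → ∃ q, Va ((s, q) : H.S × H.S) ∧
      P (H.vt q) (A * lt (s, q))) :
    ∀ (N : ℕ) (z : H.V) (A : HA H K), P z A →
      (∀ x, co A x ≠ 0 → ¬ Fw O x.2 → x.2.length ≤ N) →
      ∃ z' A', P z' A' ∧ ∀ x, co A' x ≠ 0 → Fw O x.2 := by
  intro N
  induction N with
  | zero =>
    intro z A hPA hN
    refine ⟨z, A, hPA, ?_⟩
    intro x hx
    by_contra hF
    have h1 := hN x hx hF
    have h2 : x.2 = [] := List.length_eq_zero_iff.1 (by omega)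
    apply hF
    rw [h2]
    intro a ha
    simp at ha
  | succ N ih =>
    intro z A hPA hN
    by_cases hall : ∀ x, co A x ≠ 0 → Fw O x.2
    · exact ⟨z, A, hPA, hall⟩
    push Not at hall
    obtain ⟨x0, hx0, hx0F⟩ := hall
    obtain ⟨hNF, hsupp⟩ := hP1 z A hPA
    obtain ⟨hok0, hen0⟩ := hsupp x0 hx0
    obtain ⟨a, ha, hsa⟩ : ∃ a ∈ x0.2.getLast?, Sg O a.2 := by
      rcases fwd_or_enter (O := O) x0.1 x0.2 hok0 (by rw [Prod.eta, hen0]; exact hNF) with h | h
      · exact absurd h hx0F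
      · exact h
    have hav : H.vt a.2 = z := by rw [last_vt x0 a ha, hen0]
    have hNF' : NF (H.vt a.2) := by rw [hav]; exact hNF
    have hmono := sg_mono hNF' hsa
    obtain ⟨q, hva, hPq⟩ := hP2 z A a.2 hPA hav hsa
    apply ih _ _ hPq
    intro y hy hyF
    obtain ⟨x, y', g1, g2, g3, g4, g5, g6, g7, g8, g9, g10⟩ := mul_co' hy
    rw [co_lt_ne g2] at g3 g6 g9
    simp only [List.length_cons, List.length_nil] at g9
    obtain ⟨hokx, henx⟩ := hsupp x g1
    by_cases hnc : NC x.2 [(a.2, q)]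
    · rw [mul_nc x.1 _ x.2 _ g4 (ok_single _ hva) g6.symm hnc, co_sg] at g3
      have hyeq : y = (x.1, x.2 ++ [(a.2, q)]) := by
        by_contra h
        exact g3 (if_neg (fun h2 => h h2.symm))
      exfalso
      by_cases hxF : Fw O x.2
      · apply hyF
        rw [hyeq]
        intro b hb
        simp only [List.mem_append, List.mem_singleton] at hb
        rcases hb with hb | hb
        · exact hxF b hb
        · subst hb; exact ⟨hsa, hNF'⟩
      · rcases fwd_or_enter (O := O) x.1 x.2 hokx (by rw [Prod.eta, henx]; exact hNF) with h | h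
        · exact hxF h
        · obtain ⟨b, hb, hsb⟩ := h
          have hbv : H.vt b.2 = H.vt a.2 := by rw [last_vt x b hb, henx, hav]
          have h3 := sg_unique hNF' hbv hsa hsb
          apply hnc b hb (a.2, q) (by simp)
          refine ⟨h3, ?_⟩
          rw [h3]
          exact mono_spc hmono
    · unfold NC at hnc
      push Not at hnc
      obtain ⟨b, hb, c', hc', hcf⟩ := hnc
      simp only [List.head?_cons, Option.mem_def, Option.some.injEq] at hc'
      subst hc'
      obtain ⟨u, l0⟩ := x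
      rcases List.eq_nil_or_concat l0 with rfl | ⟨l, b', rfl⟩
      · simp at hb
      have hbb : b' = b := by simpa using hb
      subst hbb
      simp only [List.concat_eq_append] at *
      have hba : b'.2 = a.2 := hcf.1
      have hempty : (H.fib (H.sd b'.2)).erase b'.2 = ∅ := by
        rw [Finset.eq_empty_iff_forall_notMem]
        intro j hj
        rw [Finset.mem_erase, H.mem_fib, hba] at hj
        exact hj.1 (hmono j hj.2)
      change co (sg (u, l ++ [b']) * lt (a.2, q) : HA H K) y ≠ 0 at g3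
      rw [mul_cf_last u l b' (a.2, q) g4 hva hcf, hempty, Finset.sum_empty, sub_zero] at g3
      have hyeq : y = (u, l) := by
        by_contra h
        apply g3
        split_ifs with h2
        · rw [co_sg, if_neg (fun h2 => h h2.symm)]
        · rfl
      have hxF : ¬ Fw O (l ++ [b']) := by
        intro h
        apply hyF
        rw [hyeq]
        intro c hc
        exact h c (by simp only [List.mem_append]; exact Or.inl hc)
      have h4 := hN _ g1 hxF
      rw [hyeq]
      simp only [List.length_append, List.length_cons, List.length_nil] at h4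
      simp only
      omega

theorem strip (v : H.V) : ∀ (n : ℕ) (u : H.V) (A : HA H K), A ∈ Cor u v →
    (∀ x, co A x ≠ 0 → Fw O x.2) → (∃ x, co A x ≠ 0 ∧ x.2.length = n) →
    ∃ z' ∈ (Cor v u : Submodule K (HA H K)), (∀ x, co (z' * A) x ≠ 0 → Fw O x.2) ∧
      co (z' * A) (v, []) ≠ 0 := by
  intro n
  induction n with
  | zero =>
    rintro u A hA hF ⟨x, hx, hxl⟩
    have h2 : x.2 = [] := List.length_eq_zero_iff.1 hxl
    obtain ⟨h3, h4, h5⟩ := (mem_SP.1 hA) x hx
    have hxu : x = (u, []) := Prod.ext h4 h2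
    rw [hxu, en_nil] at h5
    subst h5
    refine ⟨vx u, vx_cor u, ?_, ?_⟩
    · rw [vx_mul_cor hA]; exact hF
    · rw [vx_mul_cor hA, ← hxu]; exact hx
  | succ n ih =>
    rintro u A hA hF ⟨x, hx, hxl⟩
    by_cases h0 : co A (u, []) ≠ 0
    · have h5 := ((mem_SP.1 hA) _ h0).2.2
      rw [en_nil] at h5
      subst h5
      refine ⟨vx u, vx_cor u, ?_, ?_⟩
      · rw [vx_mul_cor hA]; exact hF
      · rw [vx_mul_cor hA]; exact h0
    push Not at h0
    obtain ⟨h3, h4, h5⟩ := (mem_SP.1 hA) x hx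
    obtain ⟨u', l0⟩ := x
    simp only at h4 hxl
    subst h4
    rcases l0 with _ | ⟨a, l⟩
    · simp at hxl
    have ha := (ok_cons _ _ _).1 h3
    have hFa := hF _ hx a (by simp)
    have hmono := sg_mono hFa.2 hFa.1
    have hva : Va a.swap := va_swap ha.1
    have key : ∀ y, co A y ≠ 0 → ∃ b m, y = (u', b :: m) ∧ b.1 = a.1 ∧
        (lt a.swap * sg y : HA H K) = if a.2 = b.2 then sg (H.vt b.2, m) else 0 := by
      intro y hy
      obtain ⟨g1, g2, g3⟩ := (mem_SP.1 hA) y hy
      obtain ⟨u2, l2⟩ := y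
      simp only at g2
      subst g2
      rcases l2 with _ | ⟨b, m⟩
      · exact absurd h0 hy
      have hb := (ok_cons _ _ _).1 g1
      have hFb := hF _ hy b (by simp)
      have hbe : b.1 = a.1 := sg_unique hFa.2 (by rw [hb.2.1, ha.2.1]) hFa.1 hFb.1
      refine ⟨b, m, rfl, hbe, ?_⟩
      have hcf : Cf a.swap b := by
        refine ⟨?_, ?_⟩
        · simp only [Prod.snd_swap]; exact hbe.symm
        · simp only [Prod.snd_swap]; exact mono_spc hmono
      have hempty : (H.fib (H.sd a.swap.2)).erase a.swap.2 = ∅ := by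
        rw [Finset.eq_empty_iff_forall_notMem]
        intro j hj
        rw [Finset.mem_erase, H.mem_fib] at hj
        exact hj.1 (hmono j hj.2)
      rw [lt_mul _ hva, lop_cf _ b _ m g1 hva hcf, hempty, Finset.sum_empty, sub_zero]
      rfl
    have hA' : (lt a.swap * A : HA H K) ∈ Cor (H.vt a.2) v := by
      have := lt_cor (K := K) a.swap hva
      simp only [Prod.fst_swap, Prod.snd_swap] at this
      exact cor_mul this hA
    have hsupp : ∀ (B : HA H K), (∀ y, co B y ≠ 0 → co A y ≠ 0) → ∀ z, co (lt a.swap * B) z ≠ 0 →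
        ∃ m, z = (H.vt a.2, m) ∧ co B (u', a :: m) ≠ 0 := by
      intro B hB z hz
      obtain ⟨x, y, g1, g2, g3, g4, g5, g6, g7, g8, g9, g10⟩ := mul_co' hz
      obtain ⟨b, m, e1, e2, e3⟩ := key y (hB y g2)
      rw [co_lt_ne g1, ← lt, e3] at g3
      by_cases hab : a.2 = b.2
      · have hab' : b = a := Prod.ext e2 hab.symm
        rw [if_pos hab, co_sg] at g3
        refine ⟨m, ?_, ?_⟩
        · by_contra h
          apply g3
          apply if_neg
          intro h2
          apply h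
          rw [← h2, hab]
        · rw [← hab', ← e1]; exact g2
      · rw [if_neg hab] at g3
        exact absurd rfl g3
    obtain ⟨z', hz', h6, h7⟩ := ih (H.vt a.2) (lt a.swap * A) hA'
      (by
        intro z hz
        obtain ⟨m, e1, e2⟩ := hsupp A (fun y hy => hy) z hz
        rw [e1]
        intro c hc
        exact hF _ e2 c (by simp only [List.mem_cons]; exact Or.inr hc))
      (by
        refine ⟨(H.vt a.2, l), ?_, by simpa using hxl⟩
        have e1 : lt a.swap * A = co A (u', a :: l) • (lt a.swap * sg (u', a :: l)) +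
            lt a.swap * (A - co A (u', a :: l) • sg (u', a :: l)) := by
          rw [mul_sub, mul_smul_comm]; abel
        have e2 : co (lt a.swap * (A - co A (u', a :: l) • sg (u', a :: l))) (H.vt a.2, l) =
            0 := by
          by_contra hne
          obtain ⟨m, e1, e2⟩ := hsupp (A - co A (u', a :: l) • sg (u', a :: l))
            (by
              intro y hy
              rw [co_sub, co_smul, co_sg] at hy
              by_cases h : ((u', a :: l) : H.Wd) = y
              · rw [← h]; exact hx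
              · rw [if_neg h] at hy
                simpa using hy) _ hne
          rw [Prod.mk.injEq] at e1
          rw [← e1.2, co_sub, co_smul, co_sg, if_pos rfl, mul_one, sub_self] at e2
          exact e2 rfl
        obtain ⟨b, m, f1, f2, f3⟩ := key _ hx
        rw [Prod.mk.injEq, List.cons.injEq] at f1
        obtain ⟨-, f4, f5⟩ := f1
        subst f4 f5
        rw [e1, co_add, e2, add_zero, co_smul, f3, if_pos rfl, co_sg, if_pos rfl, mul_one]
        exact hx)
    refine ⟨z' * lt a.swap, ?_, ?_, ?_⟩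
    · have h8 := lt_cor (K := K) a.swap hva
      simp only [Prod.fst_swap, Prod.snd_swap] at h8
      rw [← ha.2.1]
      exact cor_mul hz' h8
    · rw [mul_assoc]; exact h6
    · rw [mul_assoc]; exact h7

theorem NR_vx (v : H.V) : NR v (vx v : HA H K) := by
  intro Z _ h
  rw [sub_self, zero_mul] at h
  have : co (vx v : HA H K) (v, []) = 1 := by rw [vx, co_sg, if_pos rfl]
  rw [← h, co_zero] at this
  exact zero_ne_one this

theorem sg_ne_zero (x : H.Wd) : (sg x : HA H K) ≠ 0 := by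
  intro h
  have : co (sg x : HA H K) x = 1 := by rw [co_sg, if_pos rfl]
  rw [h, co_zero] at this
  exact zero_ne_one this

theorem co_sg_ne {x z : H.Wd} (h : co (sg x : HA H K) z ≠ 0) : z = x := by
  rw [co_sg] at h
  by_contra h2
  exact h (if_neg (fun h3 => h2 h3.symm))

theorem forward_final {v : H.V} {y : HA H K} (hy : y ∈ Cor v v)
    (hF : ∀ x, co y x ≠ 0 → Fw O x.2) (h0 : co y (v, []) ≠ 0)
    (hR : ∀ z b, b ∈ (Cor v z : Submodule K (HA H K)) → y * b ≠ 0 → NF z) :
    ∃ c ∈ (Cor v v : Submodule K (HA H K)), NQ (y * c) := by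
  have hy0 : y ≠ 0 := by
    rintro rfl
    exact h0 rfl
  have hNFv : NF v := hR v (vx v) (vx_cor v) (by rw [mul_vx_cor hy]; exact hy0)
  by_cases hall : ∀ x, co y x ≠ 0 → x = (v, [])
  · -- scalar multiple of the vertex
    refine ⟨(co y (v, []))⁻¹ • vx v, Submodule.smul_mem _ _ (vx_cor v), ?_⟩
    have e1 : y = co y (v, []) • vx v := by
      apply ext_co
      intro x
      rw [co_smul, vx, co_sg]
      by_cases h : ((v, []) : H.Wd) = x
      · rw [if_pos h, mul_one, h]
      · rw [if_neg h, mul_zero]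
        by_contra h2
        exact h (hall x h2).symm
    have e2 : y * ((co y (v, []))⁻¹ • vx v) = vx v := by
      rw [mul_smul_comm, mul_vx_cor hy]
      conv_lhs => rw [e1]
      rw [vx, co_smul, co_sg, if_pos rfl, mul_one, smul_smul, inv_mul_cancel₀ h0, one_smul]
    rw [e2]
    exact NQ_of_NR (vx_cor v) (NR_vx v)
  push Not at hall
  obtain ⟨μ, hμ, hμne⟩ := hall
  obtain ⟨hμ1, hμ2, hμ3⟩ := (mem_SP.1 hy) μ hμ
  have hμl : 1 ≤ μ.2.length := by
    by_contra h
    apply hμne
    apply Prod.ext hμ2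
    exact List.length_eq_zero_iff.1 (by omega)
  have hμc : (sg μ : HA H K) ∈ Cor v v := by
    have := sg_cor (K := K) μ hμ1
    rwa [hμ2, hμ3] at this
  refine ⟨sg μ, hμc, ?_⟩
  set X := y * sg μ with hX
  have hXc : X ∈ Cor v v := cor_mul hy hμc
  -- words of X
  have hXw : ∀ z, co X z ≠ 0 → ∃ x, co y x ≠ 0 ∧ z = (v, x.2 ++ μ.2) := by
    intro z hz
    obtain ⟨x, y', g1, g2, g3, g4, g5, g6, g7, g8, g9, g10⟩ := mul_co' hz
    rw [co_sg_ne g2] at g3 g5 g6 g10
    have hx := (mem_SP.1 hy) x g1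
    have hnc : NC x.2 μ.2 := NC_fw (O := O) x μ g4 (by rw [hx.2.2]; exact hNFv) (hF x g1) (hF μ hμ)
    rw [mul_nc x.1 μ.1 x.2 μ.2 g4 g5 g6.symm hnc] at g3
    refine ⟨x, g1, ?_⟩
    rw [co_sg_ne g3, hx.2.1]
  have hXF : ∀ z, co X z ≠ 0 → Fw O z.2 ∧ 1 ≤ z.2.length := by
    intro z hz
    obtain ⟨x, g1, g2⟩ := hXw z hz
    rw [g2]
    refine ⟨?_, by simp only [List.length_append]; omega⟩
    intro c hc
    simp only [List.mem_append] at hc
    rcases hc with hc | hc
    · exact hF x g1 c hc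
    · exact hF μ hμ c hc
  have hX0 : X ≠ 0 := by
    obtain ⟨d, hd, x0, hx0, hx0d⟩ := exists_max hy0
    have hx0' := (mem_SP.1 hy) x0 hx0
    have := mul_top (A := y) (B := sg μ) (d := d) (e := μ.2.length) hd
      (fun z hz => by rw [co_sg_ne hz])
      (fun x z hx hz _ _ _ => by
        rw [co_sg_ne hz]
        have hx' := (mem_SP.1 hy) x hx
        exact NC_fw (O := O) x μ hx'.1 (by rw [hx'.2.2]; exact hNFv) (hF x hx) (hF μ hμ))
      x0 μ hx0'.1 hμ1 hx0d rfl (by rw [hx0'.2.2, hμ2]) hx0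
      (by rw [co_sg, if_pos rfl]; exact one_ne_zero)
    intro h
    rw [← hX, h, co_zero, co_sg, if_pos rfl, mul_one] at this
    exact hx0 this.symm
  -- forward words starting at v end in NF
  have hend : ∀ γ : H.Wd, Ok γ → γ.1 = v → Fw O γ.2 → NF (en γ) := by
    intro γ hγ1 hγ2 hγF
    apply hR (en γ) (sg γ)
    · have := sg_cor (K := K) γ hγ1
      rwa [hγ2] at this
    · have e1 : y * sg γ = co y (v, []) • (vx v * sg γ) + (y - co y (v, []) • vx v) * sg γ := by
        rw [sub_mul, smul_mul_assoc]; abel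
      have hγc : (sg γ : HA H K) ∈ Cor v (en γ) := by
        have := sg_cor (K := K) γ hγ1
        rwa [hγ2] at this
      have e2 : co ((y - co y (v, []) • vx v) * sg γ) γ = 0 := by
        by_contra hne
        obtain ⟨x, y', g1, g2, g3, g4, g5, g6, g7, g8, g9, g10⟩ := mul_co' hne
        rw [co_sg_ne g2] at g3 g5 g6 g10
        have hx1 : co y x ≠ 0 ∧ x ≠ (v, []) := by
          rw [co_sub, co_smul, vx, co_sg] at g1
          by_cases h : ((v, []) : H.Wd) = x
          · rw [if_pos h, mul_one, h, sub_self] at g1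
            exact absurd rfl g1
          · rw [if_neg h, mul_zero, sub_zero] at g1
            exact ⟨g1, fun h2 => h h2.symm⟩
        have hx := (mem_SP.1 hy) x hx1.1
        have hnc : NC x.2 γ.2 := NC_fw (O := O) x γ g4 (by rw [hx.2.2]; exact hNFv)
          (hF x hx1.1) hγF
        rw [mul_nc x.1 γ.1 x.2 γ.2 g4 g5 g6.symm hnc] at g3
        have g11 := congrArg (fun w : H.Wd => w.2.length) (co_sg_ne g3)
        simp only [List.length_append] at g11
        apply hx1.2
        apply Prod.ext hx.2.1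
        exact List.length_eq_zero_iff.1 (by omega)
      intro h
      have e3 := congrArg (fun m => co m γ) h
      simp only [e1, co_add, e2, add_zero, co_smul, vx_mul_cor hγc, co_zero] at e3
      rw [co_sg, if_pos rfl, mul_one] at e3
      exact h0 e3
  apply NQ_of_NR hXc
  intro Z hZ hXZ
  set Z1 := Z * vx v with hZ1
  have hZ1c : Z1 ∈ Cor v v := by
    unfold Cor
    rw [mem_SP]
    intro z hz
    obtain ⟨x, y', g1, g2, g3, g4, g5, g6, g7, g8, g9, g10⟩ := mul_co' hz
    refine ⟨g7, ?_, ?_⟩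
    · rw [g8]; exact ((mem_SP.1 hZ) x g1).2
    · rw [g10, co_vx_ne g2]; rfl
  have hXZ1 : (vx v - X) * Z1 = vx v := by
    rw [hZ1, ← mul_assoc, hXZ, vx_mul_cor (vx_cor v)]
  -- make it forward
  let P : H.V → HA H K → Prop := fun z A => A ∈ (Cor v z : Submodule K (HA H K)) ∧
    ∃ γ : H.Wd, Ok γ ∧ γ.1 = v ∧ en γ = z ∧ Fw O γ.2 ∧ (vx v - X) * A = sg γ
  have hP1 : ∀ z A, P z A → NF z ∧ ∀ x, co A x ≠ 0 → Ok x ∧ en x = z := by
    rintro z A ⟨hA, γ, h1, h2, h3, h4, h5⟩
    refine ⟨?_, ?_⟩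
    · rw [← h3]; exact hend γ h1 h2 h4
    · intro x hx
      have := (mem_SP.1 hA) x hx
      exact ⟨this.1, this.2.2⟩
  have hP2 : ∀ z A s, P z A → H.vt s = z → Sg O s → ∃ q, Va ((s, q) : H.S × H.S) ∧
      P (H.vt q) (A * lt (s, q)) := by
    intro z A s hPA hs hsg
    have hNFz := (hP1 z A hPA).1
    obtain ⟨hA, γ, h1, h2, h3, h4, h5⟩ := hPA
    have hva : Va ((s, H.sp (H.opp (H.sd s))) : H.S × H.S) := by
      unfold Va
      simp only [H.sd_sp]
    have hltc := lt_cor (K := K) _ hva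
    simp only [hs] at hltc
    have hF1 : Fw O [(s, H.sp (H.opp (H.sd s)))] := by
      intro c hc
      simp only [List.mem_singleton] at hc
      subst hc
      exact ⟨hsg, by simp only [hs]; exact hNFz⟩
    have hnc : NC γ.2 [(s, H.sp (H.opp (H.sd s)))] :=
      NC_fw (O := O) γ (z, [(s, H.sp (H.opp (H.sd s)))]) h1 (by rw [h3]; exact hNFz) h4 hF1
    refine ⟨H.sp (H.opp (H.sd s)), hva, cor_mul hA hltc,
      (γ.1, γ.2 ++ [(s, H.sp (H.opp (H.sd s)))]), ?_, h2, ?_, ?_, ?_⟩
    · rw [ok_append γ.1 z _ _ h3.symm]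
      refine ⟨h1, ?_, hnc⟩
      have := ok_single _ hva
      simp only [hs] at this
      exact this
    · rw [en_append_cons]
    · intro c hc
      simp only [List.mem_append] at hc
      rcases hc with hc | hc
      · exact h4 c hc
      · exact hF1 c hc
    · rw [← mul_assoc, h5, lt, mul_nc γ.1 _ γ.2 _ h1 (ok_single _ hva) _ hnc]
      simp only [hs]
      exact h3.symm
  have hPst : P v Z1 := ⟨hZ1c, (v, []), ok_nil v, rfl, rfl, by intro a ha; simp at ha, hXZ1⟩
  obtain ⟨N, hN⟩ : ∃ N, ∀ x, co Z1 x ≠ 0 → x.2.length ≤ N := by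
    by_cases h : Z1 = 0
    · exact ⟨0, fun x hx => by rw [h] at hx; exact absurd rfl hx⟩
    · obtain ⟨N, hN, _⟩ := exists_max h
      exact ⟨N, hN⟩
  obtain ⟨z', A', ⟨hA'c, γ, hγ1, hγ2, hγ3, hγ4, hγ5⟩, hA'F⟩ := make_fw P hP1 hP2 N v Z1 hPst
    (fun x hx _ => hN x hx)
  have hA'0 : A' ≠ 0 := by
    rintro rfl
    rw [mul_zero] at hγ5
    exact sg_ne_zero γ hγ5.symm
  have hNCX : ∀ x z, co X x ≠ 0 → co A' z ≠ 0 → NC x.2 z.2 := by
    intro x z hx hz
    have hx' := (mem_SP.1 hXc) x hx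
    exact NC_fw (O := O) x z hx'.1 (by rw [hx'.2.2]; exact hNFv) (hXF x hx).1 (hA'F z hz)
  have hexp : ∀ z, co (sg γ : HA H K) z = co A' z - co (X * A') z := by
    intro z
    rw [← hγ5, sub_mul, vx_mul_cor hA'c, co_sub]
  -- the shortest word
  obtain ⟨xm, hxm, hmin⟩ := exists_min hA'0
  have hxmγ : xm = γ := by
    apply co_sg_ne (K := K)
    rw [hexp]
    have : co (X * A') xm = 0 := by
      by_contra hne
      obtain ⟨x, z, g1, g2, g3, g4, g5, g6, g7, g8, g9, g10⟩ := mul_co' hne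
      rw [mul_nc x.1 z.1 x.2 z.2 g4 g5 g6.symm (hNCX x z g1 g2)] at g3
      have g11 := congrArg (fun w : H.Wd => w.2.length) (co_sg_ne g3)
      simp only [List.length_append] at g11
      have := hmin z g2
      have := (hXF x g1).2
      omega
    rw [this, sub_zero]
    exact hxm
  obtain ⟨d, hd, x0, hx0, hx0d⟩ := exists_max hX0
  obtain ⟨e, he, y0, hy0', hy0e⟩ := exists_max hA'0
  have hx0c := (mem_SP.1 hXc) x0 hx0
  have hy0c := (mem_SP.1 hA'c) y0 hy0'
  have htop := mul_top (A := X) (B := A') hd he (fun x z hx hz _ _ _ => hNCX x z hx hz) x0 y0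
    hx0c.1 hy0c.1 hx0d hy0e (by rw [hx0c.2.2, hy0c.2.1]) hx0 hy0'
  have h1 : co A' (x0.1, x0.2 ++ y0.2) = 0 := by
    by_contra hne
    have h2 := he _ hne
    simp only [List.length_append] at h2
    have := (hXF x0 hx0).2
    omega
  have h2 : co (sg γ : HA H K) (x0.1, x0.2 ++ y0.2) ≠ 0 := by
    rw [hexp, h1, zero_sub, htop, neg_ne_zero]
    exact mul_ne_zero hx0 hy0'
  have h3 := congrArg (fun w : H.Wd => w.2.length) (co_sg_ne h2)
  simp only [List.length_append] at h3
  have h4 := he xm hxm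
  rw [hxmγ] at h4
  have := (hXF x0 hx0).2
  omega

theorem nonfree_case (O : Ori H) {u v : H.V} {A : HA H K} (hA : A ∈ Cor u v) (hA0 : A ≠ 0)
    (hR : ∀ z b, b ∈ (Cor v z : Submodule K (HA H K)) → A * b ≠ 0 → NF z) :
    ∃ (w : H.V) (z' z : HA H K), z' ∈ Cor w u ∧ z ∈ Cor v w ∧ NQ (z' * A * z) := by
  let P : H.V → HA H K → Prop := fun z B => B ≠ 0 ∧ B ∈ (Cor u z : Submodule K (HA H K)) ∧
    ∃ ζ ∈ (Cor v z : Submodule K (HA H K)), B = A * ζ
  have hP1 : ∀ z B, P z B → NF z ∧ ∀ x, co B x ≠ 0 → Ok x ∧ en x = z := by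
    rintro z B ⟨h1, h2, ζ, h3, h4⟩
    refine ⟨hR z ζ h3 (by rw [← h4]; exact h1), ?_⟩
    intro x hx
    have := (mem_SP.1 h2) x hx
    exact ⟨this.1, this.2.2⟩
  have hP2 : ∀ z B s, P z B → H.vt s = z → Sg O s → ∃ q, Va ((s, q) : H.S × H.S) ∧
      P (H.vt q) (B * lt (s, q)) := by
    rintro z B s ⟨h1, h2, ζ, h3, h4⟩ hs _
    have e1 := rel_lt (K := K) s s rfl
    rw [if_pos rfl, hs] at e1
    have e2 : ∑ q ∈ H.fib (H.opp (H.sd s)), B * (lt (s, q) * lt (q, s)) ≠ 0 := by
      rw [← Finset.mul_sum, e1, mul_vx_cor h2]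
      exact h1
    obtain ⟨q, hq, hne⟩ := Finset.exists_ne_zero_of_sum_ne_zero e2
    have hva : Va ((s, q) : H.S × H.S) := (H.mem_fib _ _).1 hq
    have hltc := lt_cor (K := K) _ hva
    simp only [hs] at hltc
    refine ⟨q, hva, ?_, cor_mul h2 hltc, ζ * lt (s, q), cor_mul h3 hltc, ?_⟩
    · intro h
      apply hne
      rw [← mul_assoc, h, zero_mul]
    · rw [← mul_assoc, h4]
  obtain ⟨N, hN, _⟩ := exists_max hA0
  obtain ⟨z, B, ⟨hB0, hBc, ζ, hζ, hBζ⟩, hBF⟩ := make_fw (O := O) P hP1 hP2 N v A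
    ⟨hA0, hA, vx v, vx_cor v, (mul_vx_cor hA).symm⟩ (fun x hx _ => hN x hx)
  obtain ⟨x0, hx0⟩ := exists_co hB0
  obtain ⟨z', hz', hF', h0'⟩ := strip (O := O) z _ u B hBc hBF ⟨x0, hx0, rfl⟩
  obtain ⟨c, hc, hNQ⟩ := forward_final (O := O) (y := z' * B) (cor_mul hz' hBc) hF' h0'
    (by
      intro z2 b hb hne
      apply hR z2 (ζ * b) (cor_mul hζ hb)
      intro h
      apply hne
      rw [mul_assoc, hBζ, mul_assoc, h, mul_zero])
  refine ⟨z, z', ζ * c, hz', cor_mul hζ hc, ?_⟩
  have e : z' * A * (ζ * c) = z' * B * c := by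
    rw [hBζ]; simp only [mul_assoc]
  rw [e]
  exact hNQ

/-- Main theorem on hypergraph algebras. -/
theorem main_hg (O : Ori H) {u v : H.V} {A : HA H K} (hA : A ∈ Cor u v) (hA0 : A ≠ 0) :
    ∃ (w : H.V) (z' z : HA H K), z' ∈ Cor w u ∧ z ∈ Cor v w ∧ NQ (z' * A * z) := by
  by_cases h1 : ∀ z b, b ∈ (Cor v z : Submodule K (HA H K)) → A * b ≠ 0 → NF z
  · exact nonfree_case O hA hA0 h1
  push Not at h1
  obtain ⟨z, b, hb, hAb, hz⟩ := h1
  have hA1 : A * b ∈ Cor u z := cor_mul hA hb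
  by_cases h2 : ∀ z2 b2, b2 ∈ (Cor u z2 : Submodule K (HA H K)) → st (A * b) * b2 ≠ 0 → NF z2
  · have h0 : st (A * b) ≠ 0 := fun h => hAb (cor_zero_of hA1 h)
    obtain ⟨w, c', c, hc', hc, hNQ⟩ := nonfree_case O (st_cor hA1) h0 h2
    refine ⟨w, st c, b * st c', st_cor hc, cor_mul hb (st_cor hc'), ?_⟩
    have h3 := NQ_st (cor_mul (cor_mul hc' (st_cor hA1)) hc) hNQ
    rw [st_mul, st_mul, st_st hA1] at h3
    have e : st c * A * (b * st c') = st c * (A * b * st c') := by simp only [mul_assoc]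
    rw [e]
    exact h3
  push Not at h2
  obtain ⟨z2, b2, hb2, hne, hz2⟩ := h2
  have hA2 : st b2 * (A * b) ∈ Cor z2 z := cor_mul (st_cor hb2) hA1
  have h0 : st b2 * (A * b) ≠ 0 := by
    intro h
    apply hne
    have h3 := congrArg st h
    rw [st_mul, st_st hb2, map_zero] at h3
    exact h3
  obtain ⟨w, c', c, hc', hc, hNQ⟩ := free_case hz2 hz _ hA2 h0
  refine ⟨w, c' * st b2, b * c, cor_mul hc' (st_cor hb2), cor_mul hb hc, ?_⟩
  have e : c' * st b2 * A * (b * c) = c' * (st b2 * (A * b)) * c := by simp only [mul_assoc]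
  rw [e]
  exact hNQ

end HG

end

end Pool.Agent.Lib.MP_f1fc44_al
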