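import Pool.Agent.Lib.MP_f1fc44_al.Defs
import Pool.Agent.Lib.MP_f1fc44_al.E

/-!
Part F: the hypergraph attached to a weighted graph.
-/

namespace Pool.Agent.Lib.MP_f1fc44_al

open scoped Classical

noncomputable section

universe u v w

namespace WGraph

variable (G : WGraph.{u, v})

theorem mem_out (x : G.V) (e : G.E) : e ∈ G.out x ↔ G.src e = x := by
  simp [out]

theorem wt_le (e : G.E) : G.wt e ≤ G.wmax (G.src e) :=
  Finset.le_sup (f := G.wt) ((G.mem_out _ _).2 rfl)

theorem exists_top (x : G.V) (h : 0 < G.wmax x) : ∃ e, G.src e = x ∧ G.wt e = G.wmax x := by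
  have hne : (G.out x).Nonempty := by
    by_contra h2
    rw [Finset.not_nonempty_iff_eq_empty] at h2
    unfold wmax at h
    rw [h2] at h
    simp at h
  obtain ⟨e, he1, he2⟩ := Finset.exists_mem_eq_sup _ hne G.wt
  exact ⟨e, (G.mem_out _ _).1 he1, he2.symm⟩

def top (x : G.V) (h : 0 < G.wmax x) : G.E := (G.exists_top x h).choose

theorem top_src (x : G.V) (h : 0 < G.wmax x) : G.src (G.top x h) = x :=
  (G.exists_top x h).choose_spec.1

theorem top_wt (x : G.V) (h : 0 < G.wmax x) : G.wt (G.top x h) = G.wmax x :=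
  (G.exists_top x h).choose_spec.2

/-- slots -/
inductive Slot
  | R (x : G.V) (i : ℕ) (h : i < G.wmax x)
  | RQ (x : G.V) (i : ℕ) (h : i + 1 < G.wmax x)
  | C (e : G.E)
  | CQ (x : G.V) (i : ℕ) (h : i + 1 < G.wmax x)

/-- vertices -/
inductive Vtx
  | o (x : G.V)
  | q (x : G.V) (i : ℕ)

/-- sides -/
inductive Side
  | mk (b : Bool) (x : G.V) (i : ℕ) (h : i < G.wmax x)

variable {G}

def Slot.vt : G.Slot → G.Vtx
  | .R x _ _ => .o x
  | .RQ x i _ => .q x i
  | .C e => .o (G.rng e)
  | .CQ x i _ => .q x i

theorem lvl_lt (e : G.E) : G.wt e - 1 < G.wmax (G.src e) := by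
  have := G.wt_le e
  have := G.wt_pos e
  omega

def Slot.sd : G.Slot → G.Side
  | .R x i h => .mk true x i h
  | .RQ x i h => .mk true x (i + 1) h
  | .C e => .mk false (G.src e) (G.wt e - 1) (lvl_lt e)
  | .CQ x i h => .mk false x i (by omega)

def Side.opp : G.Side → G.Side
  | .mk b x i h => .mk (!b) x i h

def Side.sp : G.Side → G.Slot
  | .mk true x 0 h => .R x 0 h
  | .mk true x (i + 1) h => .RQ x i h
  | .mk false x i _ => if h' : i + 1 < G.wmax x then .CQ x i h' else .C (G.top x (by omega))

def rowPart (x : G.V) : (i : ℕ) → (h : i < G.wmax x) → Finset G.Slot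
  | 0, h => {.R x 0 h}
  | i + 1, h => {.R x (i + 1) h, .RQ x i h}

def colPart (x : G.V) (i : ℕ) : Finset G.Slot :=
  ((G.out x).filter (fun e => G.wt e = i + 1)).image Slot.C ∪
    (if h' : i + 1 < G.wmax x then {.CQ x i h'} else ∅)

def Side.fib : G.Side → Finset G.Slot
  | .mk true x i h => rowPart x i h
  | .mk false x i _ => colPart x i

theorem Side.mem_fib (d : G.Side) (p : G.Slot) : p ∈ d.fib ↔ p.sd = d := by
  rcases d with ⟨b, x, i, h⟩
  rcases b with _ | _
  · simp only [Side.fib, colPart, Finset.mem_union, Finset.mem_image, Finset.mem_filter, mem_out]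
    constructor
    · rintro (⟨e, ⟨h1, h2⟩, rfl⟩ | h1)
      · simp only [Slot.sd, Side.mk.injEq, true_and]
        exact ⟨h1, by omega⟩
      · split_ifs at h1 with h2
        · simp only [Finset.mem_singleton] at h1
          subst h1
          rfl
        · simp at h1
    · intro h1
      rcases p with ⟨y, j, hj⟩ | ⟨y, j, hj⟩ | e | ⟨y, j, hj⟩
      · simp [Slot.sd] at h1
      · simp [Slot.sd] at h1
      · left
        simp only [Slot.sd, Side.mk.injEq, true_and] at h1
        have := G.wt_pos e
        exact ⟨e, ⟨h1.1, by omega⟩, rfl⟩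
      · right
        simp only [Slot.sd, Side.mk.injEq, true_and] at h1
        obtain ⟨rfl, rfl⟩ := h1
        rw [dif_pos hj]
        simp
  · constructor
    · intro h1
      rcases i with _ | i
      · simp only [Side.fib, rowPart, Finset.mem_singleton] at h1
        subst h1; rfl
      · simp only [Side.fib, rowPart, Finset.mem_insert, Finset.mem_singleton] at h1
        rcases h1 with rfl | rfl <;> rfl
    · intro h1
      rcases p with ⟨y, j, hj⟩ | ⟨y, j, hj⟩ | e | ⟨y, j, hj⟩
      · simp only [Slot.sd, Side.mk.injEq, true_and] at h1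
        obtain ⟨rfl, rfl⟩ := h1
        rcases j with _ | j <;> simp [Side.fib, rowPart]
      · simp only [Slot.sd, Side.mk.injEq, true_and] at h1
        obtain ⟨rfl, rfl⟩ := h1
        simp [Side.fib, rowPart]
      · simp [Slot.sd] at h1
      · simp [Slot.sd] at h1

theorem Side.sd_sp (d : G.Side) : d.sp.sd = d := by
  rcases d with ⟨b, x, i, h⟩
  rcases b with _ | _
  · simp only [Side.sp]
    split_ifs with h'
    · rfl
    · simp only [Slot.sd, Side.mk.injEq, true_and]
      refine ⟨G.top_src x _, ?_⟩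
      rw [G.top_wt x]
      omega
  · rcases i with _ | i <;> rfl

theorem Side.opp_opp (d : G.Side) : d.opp.opp = d := by
  rcases d with ⟨b, x, i, h⟩
  simp [Side.opp]

variable (G) in
/-- the hypergraph -/
@[reducible] def hg : HG where
  V := G.Vtx
  S := G.Slot
  D := G.Side
  vt := Slot.vt
  sd := Slot.sd
  opp := Side.opp
  opp_opp := Side.opp_opp
  sp := Side.sp
  sd_sp := Side.sd_sp
  fib := Side.fib
  mem_fib := Side.mem_fib

/-- the orientation of the isolated hyperedges -/
def ori : HG.Ori G.hg where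
  row d := match d with
    | .mk b _ _ _ => b = true
  hrow := by
    rintro ⟨b, x, i, h⟩
    cases b <;> simp [Side.opp]
  hiso := by
    intro p p' hv hp hp' hr hr'
    -- an isolated row slot is `R x 0`
    have key : ∀ p : G.Slot, HG.Iso (H := G.hg) p → (match p.sd with
        | .mk b _ _ _ => b = true) → ∃ x h, p = .R x 0 h := by
      intro p hp hr
      have hm := hp.1
      rcases p with ⟨y, j, hj⟩ | ⟨y, j, hj⟩ | e | ⟨y, j, hj⟩
      · rcases j with _ | j
        · exact ⟨y, hj, rfl⟩
        · have := hm (Slot.RQ y j hj) rfl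
          simp at this
      · have := hm (Slot.R y (j + 1) hj) rfl
        simp at this
      · simp [Slot.sd] at hr
      · simp [Slot.sd] at hr
    obtain ⟨x, h, rfl⟩ := key p hp hr
    obtain ⟨x', h', rfl⟩ := key p' hp' hr'
    simp only [Slot.vt, Vtx.o.injEq] at hv
    subst hv
    rfl

end WGraph

end

end Pool.Agent.Lib.MP_f1fc44_al
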