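import Pool.Agent.Lib.MP_f1fc44_al.F

/-!
Part G: the defining relations of the weighted Leavitt path algebra in the hypergraph algebra.
-/

namespace Pool.Agent.Lib.MP_f1fc44_al

open scoped Classical

noncomputable section

universe u v w

namespace HG

universe u1 u2 u3 u4

variable {H : HG.{u1, u2, u3}} {K : Type u4} [Field K]

theorem st_lt (a : H.S × H.S) (ha : Va a) : st (lt a : HA H K) = lt a.swap := by
  rw [lt, st_sg, if_pos (ok_single a ha)]
  rfl

end HG

namespace WGraph

variable {G : WGraph.{u, v}} {K : Type w} [Field K]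

variable (K) in
/-- a letter as an element of the algebra -/
def L2 (p q : G.Slot) : HG.HA G.hg K := HG.lt (H := G.hg) (p, q)

variable (K) in
def vt' (x : G.Vtx) : HG.HA G.hg K := HG.vx (H := G.hg) x

def VA (p q : G.Slot) : Prop := q.sd = p.sd.opp

theorem L2_cor {p q : G.Slot} (h : VA p q) : L2 K p q ∈ HG.Cor (H := G.hg) p.vt q.vt :=
  HG.lt_cor (H := G.hg) (p, q) h

theorem st_L2 {p q : G.Slot} (h : VA p q) : HG.st (L2 K p q) = L2 K q p :=
  HG.st_lt (H := G.hg) (p, q) h

theorem L2_mul {p q : G.Slot} (h : VA p q) (m : HG.HA G.hg K) :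
    L2 K p q * m = HG.lop (H := G.hg) (p, q) m :=
  HG.lt_mul (H := G.hg) (p, q) h m

theorem VA_symm {p q : G.Slot} (h : VA p q) : VA q p := by
  unfold VA at *
  rw [h, Side.opp_opp]

theorem VA_row (x : G.V) (n : ℕ) (h : n < G.wmax x) (c : G.Slot)
    (hc : c.sd = .mk false x n h) : VA (.R x n h) c := by
  unfold VA; rw [hc]; rfl

theorem VA_rowq (x : G.V) (n : ℕ) (h : n + 1 < G.wmax x) (c : G.Slot)
    (hc : c.sd = .mk false x (n + 1) h) : VA (.RQ x n h) c := by
  unfold VA; rw [hc]; rfl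

theorem C_sd (e : G.E) (x : G.V) (n : ℕ) (h : n < G.wmax x) (hx : G.src e = x)
    (hn : G.wt e = n + 1) : (Slot.C e).sd = .mk false x n h := by
  simp only [Slot.sd, Side.mk.injEq, true_and]
  exact ⟨hx, by omega⟩

/-- words from `q_i` to `e` -/
def tl (e : G.E) : (k i : ℕ) → (h : G.wt e = i + k + 2) → List (G.Slot × G.Slot)
  | 0, i, h => [(.RQ (G.src e) i (by have := G.wt_le e; omega), .C e)]
  | k + 1, i, h => (.RQ (G.src e) i (by have := G.wt_le e; omega),
      .CQ (G.src e) (i + 1) (by have := G.wt_le e; omega)) :: tl e k (i + 1) (by omega)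

/-- words of `e_i` -/
def ph (e : G.E) (i : ℕ) (h : i < G.wt e) : List (G.Slot × G.Slot) :=
  if h1 : i + 1 = G.wt e then [(.R (G.src e) i (by have := G.wt_le e; omega), .C e)]
  else (.R (G.src e) i (by have := G.wt_le e; omega),
    .CQ (G.src e) i (by have := G.wt_le e; omega)) :: tl e (G.wt e - i - 2) i (by omega)

theorem tl_head (e : G.E) (k i : ℕ) (h : G.wt e = i + k + 2) :
    ∃ h' c l, tl e k i h = (.RQ (G.src e) i h', c) :: l := by
  cases k with
  | zero => exact ⟨_, _, _, rfl⟩
  | succ k => exact ⟨_, _, _, rfl⟩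

theorem tl_ok (e : G.E) (k i : ℕ) (h : G.wt e = i + k + 2) :
    HG.Ok (H := G.hg) (Vtx.q (G.src e) i, tl e k i h) ∧
      HG.en (H := G.hg) (Vtx.q (G.src e) i, tl e k i h) = Vtx.o (G.rng e) ∧
      (tl e k i h).getLast?.map Prod.snd = some (Slot.C e) := by
  induction k generalizing i with
  | zero =>
    refine ⟨?_, rfl, rfl⟩
    unfold tl
    have hi : i + 1 < G.wmax (G.src e) := by have := G.wt_le e; omega
    exact HG.ok_single (H := G.hg) (Slot.RQ (G.src e) i hi, Slot.C e)
      (VA_rowq (G.src e) i hi (Slot.C e) (C_sd e _ _ _ rfl (by omega)))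
  | succ k ih =>
    obtain ⟨h1, h2, h3⟩ := ih (i + 1) (by omega)
    obtain ⟨h', c, l, hl⟩ := tl_head e k (i + 1) (by omega)
    unfold tl
    refine ⟨?_, ?_, ?_⟩
    · rw [HG.ok_cons]
      refine ⟨rfl, rfl, ?_, h1⟩
      intro b hb hcf
      rw [hl] at hb
      simp only [List.head?_cons, Option.mem_def, Option.some.injEq] at hb
      subst hb
      have := hcf.1
      simp at this
    · rw [HG.en_cons (H := G.hg) _ (Vtx.q (G.src e) (i + 1)) _ _ rfl]
      exact h2
    · rw [← h3, hl]
      simp [List.getLast?_cons]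

theorem ph_ok (e : G.E) (i : ℕ) (h : i < G.wt e) :
    HG.Ok (H := G.hg) (Vtx.o (G.src e), ph e i h) ∧
      HG.en (H := G.hg) (Vtx.o (G.src e), ph e i h) = Vtx.o (G.rng e) ∧
      (ph e i h).getLast?.map Prod.snd = some (Slot.C e) ∧
      ∃ h', (ph e i h).head?.map Prod.fst = some (Slot.R (G.src e) i h') := by
  unfold ph
  split_ifs with h1
  · refine ⟨?_, rfl, rfl, by have := G.wt_le e; omega, rfl⟩
    have hi : i < G.wmax (G.src e) := by have := G.wt_le e; omega
    exact HG.ok_single (H := G.hg) (Slot.R (G.src e) i hi, Slot.C e)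
      (VA_row (G.src e) i hi (Slot.C e) (C_sd e _ _ _ rfl (by omega)))
  · obtain ⟨h2, h3, h4⟩ := tl_ok e (G.wt e - i - 2) i (by omega)
    obtain ⟨h', c, l, hl⟩ := tl_head e (G.wt e - i - 2) i (by omega)
    refine ⟨?_, ?_, ?_, by have := G.wt_le e; omega, rfl⟩
    · rw [HG.ok_cons]
      refine ⟨rfl, rfl, ?_, h2⟩
      intro b hb hcf
      rw [hl] at hb
      simp only [List.head?_cons, Option.mem_def, Option.some.injEq] at hb
      subst hb
      have := hcf.1
      simp at this
    · rw [HG.en_cons (H := G.hg) _ (Vtx.q (G.src e) i) _ _ rfl]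
      exact h3
    · rw [← h4, hl]
      simp [List.getLast?_cons]

variable (K) in
def TT (e : G.E) (i : ℕ) : HG.HA G.hg K :=
  if h : i + 1 < G.wt e then HG.sg (H := G.hg) (Vtx.q (G.src e) i, tl e (G.wt e - i - 2) i (by omega))
  else 0

variable (K) in
def XX (e : G.E) (i : ℕ) : HG.HA G.hg K :=
  if h : i < G.wt e then HG.sg (H := G.hg) (Vtx.o (G.src e), ph e i h) else 0

theorem TT_cor (e : G.E) (i : ℕ) (x : G.V) (hx : G.src e = x) :
    TT K e i ∈ HG.Cor (H := G.hg) (Vtx.q x i) (Vtx.o (G.rng e)) := by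
  subst hx
  unfold TT
  split_ifs with h
  · obtain ⟨h1, h2, _⟩ := tl_ok e (G.wt e - i - 2) i (by omega)
    have := HG.sg_cor (K := K) _ h1
    rwa [h2] at this
  · exact Submodule.zero_mem _

theorem XX_cor (e : G.E) (i : ℕ) (x : G.V) (hx : G.src e = x) :
    XX K e i ∈ HG.Cor (H := G.hg) (Vtx.o x) (Vtx.o (G.rng e)) := by
  subst hx
  unfold XX
  split_ifs with h
  · obtain ⟨h1, h2, _⟩ := ph_ok e i h
    have := HG.sg_cor (K := K) _ h1
    rwa [h2] at this
  · exact Submodule.zero_mem _

theorem TT_top (e : G.E) (i : ℕ) (x : G.V) (hx : G.src e = x) (h : i + 1 < G.wmax x)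
    (hw : G.wt e = i + 2) : TT K e i = L2 K (.RQ x i h) (.C e) := by
  subst hx
  unfold TT
  rw [dif_pos (by omega)]
  have : G.wt e - i - 2 = 0 := by omega
  unfold L2 HG.lt
  simp only [this]
  rfl

theorem TT_step (e : G.E) (i : ℕ) (x : G.V) (hx : G.src e = x) (h : i + 1 < G.wmax x)
    (h' : i + 1 + 1 < G.wmax x) (hw : i + 2 < G.wt e) :
    TT K e i = L2 K (.RQ x i h) (.CQ x (i + 1) h') * TT K e (i + 1) := by
  subst hx
  unfold TT
  rw [dif_pos (by omega), dif_pos (by omega)]
  obtain ⟨k, hk⟩ : ∃ k, G.wt e = i + (k + 1) + 2 := ⟨G.wt e - i - 3, by omega⟩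
  have h1 : G.wt e - i - 2 = k + 1 := by omega
  have h2 : G.wt e - (i + 1) - 2 = k := by omega
  simp only [h1, h2]
  have h3 := tl_ok e k (i + 1) (by omega)
  have hva : VA (.RQ (G.src e) i h) (.CQ (G.src e) (i + 1) h') := VA_rowq _ _ _ _ rfl
  rw [L2_mul hva, HG.lop_nc (H := G.hg) (Slot.RQ (G.src e) i h, Slot.CQ (G.src e) (i + 1) h')
    _ _ h3.1 hva rfl]
  · rfl
  · intro b hb hcf
    obtain ⟨h', c, l, hl⟩ := tl_head e k (i + 1) (by omega)
    rw [hl] at hb
    simp only [List.head?_cons, Option.mem_def, Option.some.injEq] at hb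
    subst hb
    have := hcf.1
    simp at this

theorem XX_top (e : G.E) (i : ℕ) (x : G.V) (hx : G.src e = x) (h : i < G.wmax x)
    (hw : G.wt e = i + 1) : XX K e i = L2 K (.R x i h) (.C e) := by
  subst hx
  unfold XX
  rw [dif_pos (by omega)]
  unfold ph
  rw [dif_pos hw.symm]
  rfl

theorem XX_step (e : G.E) (i : ℕ) (x : G.V) (hx : G.src e = x) (h : i < G.wmax x)
    (h' : i + 1 < G.wmax x) (hw : i + 1 < G.wt e) :
    XX K e i = L2 K (.R x i h) (.CQ x i h') * TT K e i := by
  subst hx
  unfold XX TT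
  rw [dif_pos (by omega), dif_pos (by omega)]
  have h3 := tl_ok e (G.wt e - i - 2) i (by omega)
  unfold ph
  rw [dif_neg (by omega)]
  have hva : VA (.R (G.src e) i h) (.CQ (G.src e) i h') := VA_row _ _ _ _ rfl
  rw [L2_mul hva, HG.lop_nc (H := G.hg) (Slot.R (G.src e) i h, Slot.CQ (G.src e) i h')
    _ _ h3.1 hva rfl]
  · rfl
  · intro b hb hcf
    obtain ⟨h', c, l, hl⟩ := tl_head e (G.wt e - i - 2) i (by omega)
    rw [hl] at hb
    simp only [List.head?_cons, Option.mem_def, Option.some.injEq] at hb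
    subst hb
    have := hcf.1
    simp at this

theorem TT_zero (e : G.E) (i : ℕ) (hw : G.wt e ≤ i + 1) : TT K e i = 0 := by
  unfold TT; rw [dif_neg (by omega)]

theorem XX_zero (e : G.E) (i : ℕ) (hw : G.wt e ≤ i) : XX K e i = 0 := by
  unfold XX; rw [dif_neg (by omega)]

/-! ### The relations, by levels -/

theorem rel_L2 (p r : G.Slot) (hpr : p.sd = r.sd) :
    ∑ q ∈ p.sd.opp.fib, (L2 K p q * L2 K q r) = if p = r then vt' K p.vt else 0 :=
  HG.rel_lt (H := G.hg) p r hpr

theorem colsum (x : G.V) (n : ℕ) {M : Type*} [AddCommMonoid M] (f : G.Slot → M) :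
    ∑ c ∈ colPart x n, f c = ∑ e ∈ (G.out x).filter (fun e => G.wt e = n + 1), f (.C e) +
      (if h : n + 1 < G.wmax x then f (.CQ x n h) else 0) := by
  unfold colPart
  rw [Finset.sum_union]
  · congr 1
    · rw [Finset.sum_image]
      intro a _ b _ hab
      simpa using hab
    · split_ifs with h
      · simp
      · simp
  · rw [Finset.disjoint_left]
    intro a ha hb
    simp only [Finset.mem_image] at ha
    obtain ⟨e, _, rfl⟩ := ha
    split_ifs at hb with h
    · simp at hb
    · simp at hb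

variable (K) in
def ZZ (e : G.E) (n : ℕ) (r : G.Slot) : HG.HA G.hg K :=
  if G.wt e = n + 1 then L2 K r (.C e) else
    if h : n + 1 < G.wt e then
      L2 K r (.CQ (G.src e) n (by have := G.wt_le e; omega)) * TT K e n else 0

theorem ZZ_RQ (e : G.E) (n : ℕ) (x : G.V) (hx : G.src e = x) (h : n + 1 < G.wmax x) :
    ZZ K e (n + 1) (.RQ x n h) = TT K e n := by
  unfold ZZ
  split_ifs with h1 h2
  · rw [TT_top e n x hx h (by omega)]
  · subst hx
    have h3 : n + 1 + 1 < G.wmax (G.src e) := by have := G.wt_le e; omega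
    rw [TT_step e n _ rfl h h3 (by omega)]
  · rw [TT_zero e n (by omega)]

theorem ZZ_R (e : G.E) (n : ℕ) (x : G.V) (hx : G.src e = x) (h : n < G.wmax x) :
    ZZ K e n (.R x n h) = XX K e n := by
  unfold ZZ
  split_ifs with h1 h2
  · rw [XX_top e n x hx h (by omega)]
  · subst hx
    have h3 : n + 1 < G.wmax (G.src e) := by have := G.wt_le e; omega
    rw [XX_step e n _ rfl h h3 (by omega)]
  · rw [XX_zero e n (by omega)]

theorem relR2 (x : G.V) : ∀ (k n : ℕ) (h : n < G.wmax x) (r r' : G.Slot),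
    G.wmax x = n + k + 1 → r.sd = .mk true x n h → r'.sd = .mk true x n h →
    ∑ e ∈ G.out x, ZZ K e n r * HG.st (ZZ K e n r') = if r = r' then vt' K r.vt else 0 := by
  intro k
  induction k with
  | zero =>
    intro n h r r' hW hr hr'
    rw [← rel_L2 r r' (hr.trans hr'.symm)]
    have h1 : r.sd.opp.fib = colPart x n := by rw [hr]; rfl
    rw [h1, colsum, dif_neg (by omega), add_zero, Finset.sum_filter]
    apply Finset.sum_congr rfl
    intro e he
    rw [mem_out] at he
    have hle := G.wt_le e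
    rw [he] at hle
    by_cases h2 : G.wt e = n + 1
    · rw [if_pos h2]
      unfold ZZ
      rw [if_pos h2, if_pos h2, st_L2]
      unfold VA
      rw [C_sd e x n h he h2, hr']
      rfl
    · rw [if_neg h2]
      unfold ZZ
      rw [if_neg h2, dif_neg (by omega), zero_mul]
  | succ k ih =>
    intro n h r r' hW hr hr'
    rw [← rel_L2 r r' (hr.trans hr'.symm)]
    have h1 : r.sd.opp.fib = colPart x n := by rw [hr]; rfl
    have h3 : n + 1 < G.wmax x := by omega
    have ih' := ih (n + 1) h3 (.RQ x n h3) (.RQ x n h3) (by omega) rfl rfl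
    rw [if_pos rfl] at ih'
    have hvaC : ∀ s : G.Slot, s.sd = .mk true x n h → VA s (.CQ x n h3) := by
      intro s hs
      unfold VA
      rw [hs]
      rfl
    rw [h1, colsum, dif_pos h3, Finset.sum_filter]
    have e1 : L2 K r (.CQ x n h3) * L2 K (.CQ x n h3) r' =
        ∑ e ∈ G.out x, L2 K r (.CQ x n h3) * (TT K e n * HG.st (TT K e n)) *
          L2 K (.CQ x n h3) r' := by
      rw [← Finset.sum_mul, ← Finset.mul_sum]
      have e2 : ∑ e ∈ G.out x, TT K e n * HG.st (TT K e n) = vt' K (Vtx.q x n) := by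
        rw [show Vtx.q x n = (Slot.RQ x n h3).vt from rfl, ← ih']
        apply Finset.sum_congr rfl
        intro e he
        rw [mem_out] at he
        rw [ZZ_RQ e n x he h3]
      rw [e2]
      congr 1
      exact (HG.mul_vx_cor (H := G.hg) (L2_cor (hvaC r hr))).symm
    rw [e1, ← Finset.sum_add_distrib]
    apply Finset.sum_congr rfl
    intro e he
    rw [mem_out] at he
    by_cases h2 : G.wt e = n + 1
    · rw [if_pos h2, TT_zero e n (by omega)]
      unfold ZZ
      rw [if_pos h2, if_pos h2, st_L2, zero_mul, mul_zero, zero_mul, add_zero]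
      unfold VA
      rw [C_sd e x n h he h2, hr']
      rfl
    · rw [if_neg h2, zero_add]
      by_cases h4 : n + 1 < G.wt e
      · unfold ZZ
        rw [if_neg h2, if_neg h2, dif_pos h4, dif_pos h4]
        subst he
        rw [HG.st_mul, st_L2 (hvaC r' hr')]
        simp only [mul_assoc]
      · rw [TT_zero e n (by omega)]
        unfold ZZ
        rw [if_neg h2, dif_neg h4, zero_mul, zero_mul, mul_zero, zero_mul]

variable (K) in
def YY (x : G.V) : (n : ℕ) → (h : n < G.wmax x) → ℕ → G.Slot → HG.HA G.hg K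
  | 0, h, m, c => if m = 0 then L2 K (.R x 0 h) c else 0
  | n + 1, h, m, c => if m = n + 1 then L2 K (.R x (n + 1) h) c else
      YY x n (by omega) m (.CQ x n h) * L2 K (.RQ x n h) c

theorem YY_self (x : G.V) (n : ℕ) (h : n < G.wmax x) (c : G.Slot) :
    YY K x n h n c = L2 K (.R x n h) c := by
  cases n with
  | zero => unfold YY; rw [if_pos rfl]
  | succ n => unfold YY; rw [if_pos rfl]

theorem YY_lt (x : G.V) (n m : ℕ) (h : n + 1 < G.wmax x) (hm : m ≤ n) (c : G.Slot) :
    YY K x (n + 1) h m c = YY K x n (by omega) m (.CQ x n h) * L2 K (.RQ x n h) c := by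
  conv_lhs => unfold YY
  rw [if_neg (by omega)]

theorem YY_cor (x : G.V) (n : ℕ) (h : n < G.wmax x) (m : ℕ) (c : G.Slot)
    (hc : c.sd = .mk false x n h) :
    YY K x n h m c ∈ HG.Cor (H := G.hg) (Vtx.o x) c.vt := by
  induction n generalizing c with
  | zero =>
    unfold YY
    split_ifs
    · exact L2_cor (VA_row x 0 h c hc)
    · exact Submodule.zero_mem _
  | succ n ih =>
    unfold YY
    split_ifs
    · exact L2_cor (VA_row x (n + 1) h c hc)
    · exact HG.cor_mul (ih (by omega) (.CQ x n h) rfl) (L2_cor (VA_rowq x n h c hc))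

theorem relR1 (x : G.V) : ∀ (n : ℕ) (h : n < G.wmax x) (c c' : G.Slot),
    c.sd = .mk false x n h → c'.sd = .mk false x n h →
    ∑ m ∈ Finset.range (n + 1), HG.st (YY K x n h m c) * YY K x n h m c' =
      if c = c' then vt' K c.vt else 0 := by
  intro n
  induction n with
  | zero =>
    intro h c c' hc hc'
    rw [← rel_L2 c c' (hc.trans hc'.symm)]
    have h1 : c.sd.opp.fib = {.R x 0 h} := by rw [hc]; rfl
    rw [h1, Finset.sum_singleton, zero_add, Finset.sum_range_one, YY_self, YY_self,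
      st_L2 (VA_row x 0 h c hc)]
  | succ n ih =>
    intro h c c' hc hc'
    rw [← rel_L2 c c' (hc.trans hc'.symm)]
    have h1 : c.sd.opp.fib = {.R x (n + 1) h, .RQ x n h} := by rw [hc]; rfl
    rw [h1, Finset.sum_pair (by simp), Finset.sum_range_succ, YY_self, YY_self,
      st_L2 (VA_row x (n + 1) h c hc), add_comm]
    congr 1
    have e1 : ∀ m ∈ Finset.range (n + 1), HG.st (YY K x (n + 1) h m c) * YY K x (n + 1) h m c' =
        L2 K c (.RQ x n h) * (HG.st (YY K x n (by omega) m (.CQ x n h)) *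
          YY K x n (by omega) m (.CQ x n h)) * L2 K (.RQ x n h) c' := by
      intro m hm
      rw [Finset.mem_range] at hm
      rw [YY_lt x n m h (by omega), YY_lt x n m h (by omega), HG.st_mul,
        st_L2 (VA_rowq x n h c hc)]
      simp only [mul_assoc]
    rw [Finset.sum_congr rfl e1, ← Finset.sum_mul, ← Finset.mul_sum,
      ih (by omega) (.CQ x n h) (.CQ x n h) rfl rfl, if_pos rfl]
    congr 1
    exact HG.mul_vx_cor (H := G.hg) (L2_cor (VA_symm (VA_rowq x n h c hc)))

theorem XX_YQ (e : G.E) (x : G.V) (hx : G.src e = x) (m : ℕ) : ∀ (n : ℕ) (h : n + 1 < G.wmax x),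
    m ≤ n → n + 1 < G.wt e →
    XX K e m = YY K x n (by omega) m (.CQ x n h) * TT K e n := by
  intro n
  induction n with
  | zero =>
    intro h hm hw
    obtain rfl : m = 0 := by omega
    rw [YY_self, XX_step e 0 x hx (by omega) h hw]
  | succ n ih =>
    intro h hm hw
    by_cases hmn : m = n + 1
    · subst hmn
      rw [YY_self, XX_step e (n + 1) x hx (by omega) h hw]
    · rw [YY_lt x n m (by omega) (by omega), ih (by omega) (by omega) (by omega),
        TT_step e n x hx (by omega) h (by omega), mul_assoc]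

theorem XX_YC (e : G.E) (x : G.V) (hx : G.src e = x) (m n : ℕ) (h : n < G.wmax x)
    (hm : m ≤ n) (hw : G.wt e = n + 1) :
    XX K e m = YY K x n h m (.C e) := by
  by_cases hmn : m = n
  · subst hmn
    rw [YY_self, XX_top e m x hx h hw]
  · rcases n with _ | n
    · omega
    rw [YY_lt x n m h (by omega), XX_YQ e x hx m n h (by omega) (by omega),
      TT_top e n x hx h (by omega)]

theorem st_st_XX (e : G.E) (i : ℕ) : HG.st (HG.st (XX K e i)) = XX K e i :=
  HG.st_st (XX_cor e i _ rfl)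

/-- relation (3), case `i < j` -/
theorem rel3_lt (x : G.V) (i j : ℕ) (hj : j < G.wmax x) (hij : i < j) :
    ∑ e ∈ G.out x, XX K e i * HG.st (XX K e j) = 0 := by
  obtain ⟨j', rfl⟩ : ∃ j', j = j' + 1 := ⟨j - 1, by omega⟩
  obtain ⟨k, hk⟩ : ∃ k, G.wmax x = (j' + 1) + k + 1 := ⟨G.wmax x - j' - 2, by omega⟩
  have h1 := relR2 (K := K) x k (j' + 1) hj (.RQ x j' hj) (.R x (j' + 1) hj) hk rfl rfl
  rw [if_neg (by simp)] at h1
  have e1 : ∀ e ∈ G.out x, XX K e i * HG.st (XX K e (j' + 1)) =
      YY K x j' (by omega) i (.CQ x j' hj) *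
        (ZZ K e (j' + 1) (.RQ x j' hj) * HG.st (ZZ K e (j' + 1) (.R x (j' + 1) hj))) := by
    intro e he
    rw [mem_out] at he
    rw [ZZ_RQ e j' x he hj, ZZ_R e (j' + 1) x he hj]
    by_cases hw : j' + 1 < G.wt e
    · rw [XX_YQ e x he i j' hj (by omega) hw, mul_assoc]
    · rw [XX_zero e (j' + 1) (by omega), map_zero, mul_zero, mul_zero, mul_zero]
  rw [Finset.sum_congr rfl e1, ← Finset.mul_sum, h1, mul_zero]

theorem rel3 (x : G.V) (i j : ℕ) (hi : i < G.wmax x) (hj : j < G.wmax x) :
    ∑ e ∈ G.out x, XX K e i * HG.st (XX K e j) = if i = j then vt' K (Vtx.o x) else 0 := by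
  rcases lt_trichotomy i j with h | h | h
  · rw [rel3_lt x i j hj h, if_neg (by omega)]
  · subst h
    rw [if_pos rfl]
    obtain ⟨k, hk⟩ : ∃ k, G.wmax x = i + k + 1 := ⟨G.wmax x - i - 1, by omega⟩
    have h1 := relR2 (K := K) x k i hi (.R x i hi) (.R x i hi) hk rfl rfl
    rw [if_pos rfl] at h1
    rw [show Vtx.o x = (Slot.R x i hi).vt from rfl, ← h1]
    apply Finset.sum_congr rfl
    intro e he
    rw [mem_out] at he
    rw [ZZ_R e i x he hi]
  · rw [if_neg (by omega)]
    have h1 := congrArg HG.st (rel3_lt (K := K) x j i hi h)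
    rw [map_sum, map_zero] at h1
    rw [← h1]
    apply Finset.sum_congr rfl
    intro e _
    rw [HG.st_mul, st_st_XX]

/-- relation (4), case `wt e ≤ wt f` -/
theorem rel4_le (x : G.V) (e f : G.E) (he : G.src e = x) (hf : G.src f = x)
    (hef : G.wt e ≤ G.wt f) :
    ∑ i ∈ Finset.range (G.wmax x), HG.st (XX K e i) * XX K f i =
      if e = f then vt' K (Vtx.o (G.rng e)) else 0 := by
  obtain ⟨n, hn⟩ : ∃ n, G.wt e = n + 1 := ⟨G.wt e - 1, by have := G.wt_pos e; omega⟩
  have hle := G.wt_le e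
  rw [he] at hle
  have hnW : n < G.wmax x := by omega
  have e0 : ∑ i ∈ Finset.range (G.wmax x), HG.st (XX K e i) * XX K f i =
      ∑ i ∈ Finset.range (n + 1), HG.st (XX K e i) * XX K f i := by
    symm
    apply Finset.sum_subset
    · intro i hi
      rw [Finset.mem_range] at *
      omega
    · intro i _ hi
      rw [Finset.mem_range] at hi
      rw [XX_zero e i (by omega), map_zero, zero_mul]
  rw [e0]
  have hC := C_sd e x n hnW he hn
  by_cases hfn : G.wt f = n + 1
  · have h1 := relR1 (K := K) x n hnW (.C e) (.C f) hC (C_sd f x n hnW hf hfn)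
    have e1 : ∀ i ∈ Finset.range (n + 1), HG.st (XX K e i) * XX K f i =
        HG.st (YY K x n hnW i (.C e)) * YY K x n hnW i (.C f) := by
      intro i hi
      rw [Finset.mem_range] at hi
      rw [XX_YC e x he i n hnW (by omega) hn, XX_YC f x hf i n hnW (by omega) hfn]
    rw [Finset.sum_congr rfl e1, h1]
    by_cases h2 : e = f
    · subst h2; rw [if_pos rfl, if_pos rfl]; rfl
    · rw [if_neg h2, if_neg (by simpa using h2)]
  · have hfle := G.wt_le f
    rw [hf] at hfle
    have hn1 : n + 1 < G.wmax x := by omega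
    have h1 := relR1 (K := K) x n hnW (.C e) (.CQ x n hn1) hC rfl
    rw [if_neg (by simp)] at h1
    have e1 : ∀ i ∈ Finset.range (n + 1), HG.st (XX K e i) * XX K f i =
        (HG.st (YY K x n hnW i (.C e)) * YY K x n hnW i (.CQ x n hn1)) * TT K f n := by
      intro i hi
      rw [Finset.mem_range] at hi
      rw [XX_YC e x he i n hnW (by omega) hn, XX_YQ f x hf i n hn1 (by omega) (by omega),
        mul_assoc]
    rw [Finset.sum_congr rfl e1, ← Finset.sum_mul, h1, zero_mul, if_neg]
    rintro rfl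
    omega

theorem rel4 (x : G.V) (e f : G.E) (he : G.src e = x) (hf : G.src f = x) :
    ∑ i ∈ Finset.range (G.wmax x), HG.st (XX K e i) * XX K f i =
      if e = f then vt' K (Vtx.o (G.rng e)) else 0 := by
  rcases le_total (G.wt e) (G.wt f) with h | h
  · exact rel4_le x e f he hf h
  · have h1 := congrArg HG.st (rel4_le (K := K) x f e hf he h)
    rw [map_sum] at h1
    have e1 : ∀ i ∈ Finset.range (G.wmax x), HG.st (XX K e i) * XX K f i =
        HG.st (HG.st (XX K f i) * XX K e i) := by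
      intro i _
      rw [HG.st_mul, st_st_XX]
    rw [Finset.sum_congr rfl e1, h1]
    by_cases h2 : e = f
    · subst h2
      rw [if_pos rfl]
      exact HG.st_vx _
    · rw [if_neg h2, if_neg (fun h3 => h2 h3.symm), map_zero]

end WGraph

end

end Pool.Agent.Lib.MP_f1fc44_al
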