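import Pool.Agent.Lib.MP_f1fc44_al.G

/-!
Part P: the homomorphism from the free algebra to the hypergraph algebra.
-/

namespace Pool.Agent.Lib.MP_f1fc44_al

open scoped Classical

noncomputable section

universe u v w

namespace WGraph

variable {G : WGraph.{u, v}} {K : Type w} [Field K]

variable (K) in
def fgen : G.Gen → HG.HA G.hg K
  | .vert x => vt' K (.o x)
  | .edge e i => XX K e i
  | .ghost e i => HG.st (XX K e i)

variable (K) in
def phi : G.Free K →ₙₐ[K] HG.HA G.hg K :=
  MonoidAlgebra.liftMagma K (FreeSemigroup.lift (fgen K))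

theorem phi_gen (g : G.Gen) : phi K (G.gen K g) = fgen K g := by
  unfold phi gen
  rw [MonoidAlgebra.liftMagma_apply_apply]
  simp

theorem phi_gv (x : G.V) : phi K (G.gv K x) = vt' K (.o x) := phi_gen _

theorem phi_ge (e : G.E) (i : ℕ) : phi K (G.ge K e i) = XX K e i := by
  unfold ge
  split_ifs with h
  · exact phi_gen _
  · rw [map_zero, XX_zero e i (by omega)]

theorem phi_gs (e : G.E) (i : ℕ) : phi K (G.gs K e i) = HG.st (XX K e i) := by
  unfold gs
  split_ifs with h
  · exact phi_gen _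
  · rw [map_zero, XX_zero e i (by omega), map_zero]

theorem vt_cor (x : G.Vtx) : vt' K x ∈ HG.Cor (H := G.hg) x x := HG.vx_cor (H := G.hg) x

theorem phi_rel {a b : G.Free K} (h : G.Rel K a b) : phi K a = phi K b := by
  cases h with
  | vert_self x =>
    rw [map_mul, phi_gv]
    exact HG.vx_mul_cor (vt_cor _)
  | vert_ne x y h =>
    rw [map_mul, phi_gv, phi_gv, map_zero]
    unfold vt' HG.vx
    rw [HG.sg_mul_sg_ne]
    rintro ⟨_, _, h3⟩
    apply h
    rw [HG.en_nil] at h3
    simpa using h3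
  | src_edge e i =>
    rw [map_mul, phi_gv, phi_ge]
    exact HG.vx_mul_cor (XX_cor e i _ rfl)
  | edge_rng e i =>
    rw [map_mul, phi_gv, phi_ge]
    exact HG.mul_vx_cor (XX_cor e i _ rfl)
  | rng_ghost e i =>
    rw [map_mul, phi_gv, phi_gs]
    exact HG.vx_mul_cor (HG.st_cor (XX_cor e i _ rfl))
  | ghost_src e i =>
    rw [map_mul, phi_gv, phi_gs]
    exact HG.mul_vx_cor (HG.st_cor (XX_cor e i _ rfl))
  | ck1 x i j hi hj =>
    rw [map_sum]
    simp only [map_mul, phi_ge, phi_gs]
    rw [rel3 x i j hi hj]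
    split_ifs
    · rw [phi_gv]
    · rw [map_zero]
  | ck2 x e f he hf =>
    rw [map_sum]
    simp only [map_mul, phi_ge, phi_gs]
    rw [rel4 x e f he hf]
    split_ifs
    · rw [phi_gv]
    · rw [map_zero]

theorem phi_ideal {f : G.Free K} (h : f ∈ G.relIdeal K) : phi K f = 0 := by
  have h1 : G.relIdeal K ≤ TwoSidedIdeal.ker (phi K : G.Free K →ₙₐ[K] HG.HA G.hg K) := by
    unfold relIdeal
    rw [TwoSidedIdeal.span_le]
    rintro _ ⟨c, a, b, hab, rfl⟩
    show _ ∈ TwoSidedIdeal.ker _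
    rw [TwoSidedIdeal.mem_ker, map_smul, map_sub, phi_rel hab, sub_self, smul_zero]
  have h2 := h1 h
  rwa [TwoSidedIdeal.mem_ker] at h2

/-! ### Corners -/

variable (G K) in
def Im : Submodule K (HG.HA G.hg K) where
  carrier := {r | ∃ f : G.Free K, phi K f = r}
  add_mem' := by
    rintro _ _ ⟨f, rfl⟩ ⟨g, rfl⟩
    exact ⟨f + g, map_add _ _ _⟩
  zero_mem' := ⟨0, map_zero _⟩
  smul_mem' := by
    rintro c _ ⟨f, rfl⟩
    exact ⟨c • f, map_smul _ _ _⟩

theorem mem_Im {r : HG.HA G.hg K} : r ∈ Im G K ↔ ∃ f : G.Free K, phi K f = r := Iff.rfl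

theorem Im_mul {r s : HG.HA G.hg K} (hr : r ∈ Im G K) (hs : s ∈ Im G K) : r * s ∈ Im G K := by
  obtain ⟨f, rfl⟩ := hr
  obtain ⟨g, rfl⟩ := hs
  exact ⟨f * g, map_mul _ _ _⟩

theorem XX_Im (e : G.E) (i : ℕ) : XX K e i ∈ Im G K := ⟨G.ge K e i, phi_ge e i⟩

theorem stXX_Im (e : G.E) (i : ℕ) : HG.st (XX K e i) ∈ Im G K := ⟨G.gs K e i, phi_gs e i⟩

theorem exit_res (x : G.V) (n : ℕ) (h : n + 1 < G.wmax x) :
    ∑ e ∈ G.out x, TT K e n * HG.st (TT K e n) = vt' K (Vtx.q x n) := by
  obtain ⟨k, hk⟩ : ∃ k, G.wmax x = (n + 1) + k + 1 := ⟨G.wmax x - n - 2, by omega⟩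
  have h1 := relR2 (K := K) x k (n + 1) h (.RQ x n h) (.RQ x n h) hk rfl rfl
  rw [if_pos rfl] at h1
  rw [show Vtx.q x n = (Slot.RQ x n h).vt from rfl, ← h1]
  apply Finset.sum_congr rfl
  intro e he
  rw [mem_out] at he
  rw [ZZ_RQ e n x he h]

theorem UU_Im (x : G.V) (n : ℕ) (h : n + 1 < G.wmax x) (m k : ℕ) (hm : m ≤ n) (hk : k ≤ n) :
    YY K x n (by omega) m (.CQ x n h) * HG.st (YY K x n (by omega) k (.CQ x n h)) ∈ Im G K := by
  have h1 := YY_cor (K := K) x n (by omega) m (.CQ x n h) rfl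
  have e1 : YY K x n (by omega) m (.CQ x n h) * HG.st (YY K x n (by omega) k (.CQ x n h)) =
      YY K x n (by omega) m (.CQ x n h) * vt' K (Vtx.q x n) *
        HG.st (YY K x n (by omega) k (.CQ x n h)) := by
    congr 1
    exact (HG.mul_vx_cor h1).symm
  rw [e1, ← exit_res x n h, Finset.mul_sum, Finset.sum_mul]
  apply Submodule.sum_mem
  intro e he
  rw [mem_out] at he
  by_cases hw : n + 1 < G.wt e
  · have e2 : YY K x n (by omega) m (.CQ x n h) * (TT K e n * HG.st (TT K e n)) *
        HG.st (YY K x n (by omega) k (.CQ x n h)) = XX K e m * HG.st (XX K e k) := by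
      rw [XX_YQ e x he m n h hm hw, XX_YQ e x he k n h hk hw, HG.st_mul]
      simp only [mul_assoc]
    rw [e2]
    exact Im_mul (XX_Im _ _) (stXX_Im _ _)
  · rw [TT_zero e n (by omega), zero_mul, mul_zero, zero_mul]
    exact Submodule.zero_mem _

theorem entry_res (x : G.V) (n : ℕ) (h : n + 1 < G.wmax x) {y : G.Vtx} (r : HG.HA G.hg K)
    (hr : r ∈ HG.Cor (H := G.hg) y (Vtx.q x n)) :
    r = ∑ m ∈ Finset.range (n + 1), (r * HG.st (YY K x n (by omega) m (.CQ x n h))) *
      YY K x n (by omega) m (.CQ x n h) := by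
  have h1 := relR1 (K := K) x n (by omega) (.CQ x n h) (.CQ x n h) rfl rfl
  rw [if_pos rfl] at h1
  have h2 : r = r * vt' K (Vtx.q x n) := (HG.mul_vx_cor hr).symm
  conv_lhs => rw [h2]
  rw [show vt' K (Vtx.q x n) = vt' K (Slot.CQ x n h).vt from rfl, ← h1, Finset.mul_sum]
  apply Finset.sum_congr rfl
  intro m _
  rw [mul_assoc]

theorem col_cases (c : G.Slot) (x : G.V) (n : ℕ) (h : n < G.wmax x)
    (hc : c.sd = .mk false x n h) :
    (∃ e, c = .C e ∧ G.src e = x ∧ G.wt e = n + 1) ∨ ∃ h', c = .CQ x n h' := by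
  rcases c with ⟨y, j, hj⟩ | ⟨y, j, hj⟩ | e | ⟨y, j, hj⟩
  · simp [Slot.sd] at hc
  · simp [Slot.sd] at hc
  · left
    simp only [Slot.sd, Side.mk.injEq, true_and] at hc
    have := G.wt_pos e
    exact ⟨e, rfl, hc.1, by omega⟩
  · right
    simp only [Slot.sd, Side.mk.injEq, true_and] at hc
    obtain ⟨rfl, rfl⟩ := hc
    exact ⟨hj, rfl⟩

theorem row_cases (c : G.Slot) (x : G.V) (n : ℕ) (h : n < G.wmax x)
    (hc : c.sd = .mk true x n h) :
    (c = .R x n h) ∨ ∃ n' h', n = n' + 1 ∧ c = .RQ x n' h' := by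
  rcases c with ⟨y, j, hj⟩ | ⟨y, j, hj⟩ | e | ⟨y, j, hj⟩
  · left
    simp only [Slot.sd, Side.mk.injEq, true_and] at hc
    obtain ⟨rfl, rfl⟩ := hc
    rfl
  · right
    simp only [Slot.sd, Side.mk.injEq, true_and] at hc
    obtain ⟨rfl, rfl⟩ := hc
    exact ⟨j, hj, rfl, rfl⟩
  · simp [Slot.sd] at hc
  · simp [Slot.sd] at hc

theorem corner_word (y : G.V) (l : List (G.Slot × G.Slot))
    (hok : HG.Ok (H := G.hg) (Vtx.o y, l)) :
    (∀ x, HG.en (H := G.hg) (Vtx.o y, l) = Vtx.o x →
      HG.sg (H := G.hg) (K := K) (Vtx.o y, l) ∈ Im G K) ∧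
    (∀ x n (h : n + 1 < G.wmax x), HG.en (H := G.hg) (Vtx.o y, l) = Vtx.q x n → ∀ m ≤ n,
      HG.sg (H := G.hg) (K := K) (Vtx.o y, l) *
        HG.st (YY K x n (by omega) m (.CQ x n h)) ∈ Im G K) := by
  induction l using List.reverseRecOn with
  | nil =>
    refine ⟨fun x _ => ⟨G.gv K y, phi_gv y⟩, ?_⟩
    intro x n h hen
    rw [HG.en_nil] at hen
    simp at hen
  | append_singleton l a ih =>
    have h' := (HG.ok_append (H := G.hg) (Vtx.o y) _ l [a] rfl).1 hok
    obtain ⟨h1, h2, h3⟩ := h'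
    have ha := (HG.ok_cons (H := G.hg) _ _ _).1 h2
    have ih' := ih h1
    have hva : VA a.1 a.2 := ha.1
    have hvt : a.1.vt = HG.en (H := G.hg) (Vtx.o y, l) := ha.2.1
    have e1 : HG.sg (H := G.hg) (K := K) (Vtx.o y, l ++ [a]) =
        HG.sg (H := G.hg) (K := K) (Vtx.o y, l) * L2 K a.1 a.2 := by
      unfold L2 HG.lt
      rw [HG.mul_nc (H := G.hg) (Vtx.o y) a.1.vt l [a] h1 (HG.ok_single (H := G.hg) a ha.1) hvt h3]
    have hlc : HG.sg (H := G.hg) (K := K) (Vtx.o y, l) ∈
        HG.Cor (H := G.hg) (Vtx.o y) a.1.vt := by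
      rw [hvt]
      exact HG.sg_cor (H := G.hg) _ h1
    rw [HG.en_append_cons, e1]
    rw [← hvt] at ih'
    generalize HG.sg (H := G.hg) (K := K) (Vtx.o y, l) = r at ih' hlc
    obtain ⟨p, q⟩ := a
    simp only at hva ih' hlc ⊢
    clear e1 hvt ha h1 h2 h3 hok ih
    obtain ⟨ih1, ih2⟩ := ih'
    rcases p with ⟨x, n, h⟩ | ⟨x, n, h⟩ | e | ⟨x, n, h⟩
    · -- row slot `R x n`
      have hr := ih1 x rfl
      have hq : q.sd = .mk false x n h := hva
      rcases col_cases q x n h hq with ⟨e, rfl, hex, hew⟩ | ⟨h', rfl⟩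
      · refine ⟨fun x' _ => ?_, ?_⟩
        · rw [← XX_top e n x hex h hew]
          exact Im_mul hr (XX_Im _ _)
        · intro x' n' h' hen
          simp [Slot.vt] at hen
      · refine ⟨?_, ?_⟩
        · intro x' hen
          simp [Slot.vt] at hen
        · intro x' n' h'' hen m hm
          simp only [Slot.vt, Vtx.q.injEq] at hen
          obtain ⟨rfl, rfl⟩ := hen
          rw [← YY_self x n h, mul_assoc]
          exact Im_mul hr (UU_Im x n h' n m le_rfl hm)
    · -- row slot `RQ x n`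
      have hq : q.sd = .mk false x (n + 1) h := hva
      have hr := ih2 x n h rfl
      have hres := entry_res x n h r hlc
      rcases col_cases q x (n + 1) h hq with ⟨e, rfl, hex, hew⟩ | ⟨h', rfl⟩
      · refine ⟨fun x' _ => ?_, ?_⟩
        · rw [hres, Finset.sum_mul]
          apply Submodule.sum_mem
          intro m hm
          rw [Finset.mem_range] at hm
          rw [mul_assoc, ← YY_lt x n m h (by omega), ← XX_YC e x hex m (n + 1) h (by omega) hew]
          exact Im_mul (hr m (by omega)) (XX_Im _ _)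
        · intro x' n' h' hen
          simp [Slot.vt] at hen
      · refine ⟨?_, ?_⟩
        · intro x' hen
          simp [Slot.vt] at hen
        · intro x' n' h'' hen m hm
          simp only [Slot.vt, Vtx.q.injEq] at hen
          obtain ⟨rfl, rfl⟩ := hen
          rw [hres, Finset.sum_mul, Finset.sum_mul]
          apply Submodule.sum_mem
          intro m' hm'
          rw [Finset.mem_range] at hm'
          have e3 : r * HG.st (YY K x n (by omega) m' (Slot.CQ x n h)) *
              YY K x n (by omega) m' (Slot.CQ x n h) * L2 K (Slot.RQ x n h) (Slot.CQ x (n + 1) h') *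
              HG.st (YY K x (n + 1) (by omega) m (Slot.CQ x (n + 1) h'')) =
              (r * HG.st (YY K x n (by omega) m' (Slot.CQ x n h))) *
              (YY K x (n + 1) h m' (Slot.CQ x (n + 1) h') *
              HG.st (YY K x (n + 1) (by omega) m (Slot.CQ x (n + 1) h''))) := by
            rw [YY_lt x n m' h (by omega)]
            simp only [mul_assoc]
          rw [e3]
          exact Im_mul (hr m' (by omega)) (UU_Im x (n + 1) h' m' m (by omega) hm)
    · -- column slot `C e`
      have hr := ih1 (G.rng e) rfl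
      have hq : q.sd = .mk true (G.src e) (G.wt e - 1) (lvl_lt e) := hva
      have hwp := G.wt_pos e
      rcases row_cases q _ _ _ hq with rfl | ⟨n', h', hn', rfl⟩
      · refine ⟨fun x' _ => ?_, ?_⟩
        · have hw : G.wt e = G.wt e - 1 + 1 := by omega
          have e2 : L2 K (.C e) (.R (G.src e) (G.wt e - 1) (lvl_lt e)) =
              HG.st (XX K e (G.wt e - 1)) := by
            rw [XX_top e (G.wt e - 1) _ rfl (lvl_lt e) hw, st_L2]
            exact VA_symm hva
          rw [e2]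
          exact Im_mul hr (stXX_Im _ _)
        · intro x' n' h' hen
          simp [Slot.vt] at hen
      · refine ⟨?_, ?_⟩
        · intro x' hen
          simp [Slot.vt] at hen
        · intro x' n'' h'' hen m hm
          simp only [Slot.vt, Vtx.q.injEq] at hen
          obtain ⟨rfl, rfl⟩ := hen
          have e2 : L2 K (.C e) (.RQ (G.src e) n' h') *
              HG.st (YY K (G.src e) n' (by omega) m (.CQ (G.src e) n' h'')) =
              HG.st (XX K e m) := by
            rw [XX_YC e _ rfl m (n' + 1) h' (by omega) (by omega), YY_lt _ n' m h' hm, HG.st_mul,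
              st_L2 (VA_symm hva)]
          rw [mul_assoc, e2]
          exact Im_mul hr (stXX_Im _ _)
    · -- column slot `CQ x n`
      have hr := ih2 x n h rfl
      have hq : q.sd = .mk true x n (by omega) := hva
      rcases row_cases q _ _ _ hq with rfl | ⟨n', h', hn', rfl⟩
      · refine ⟨fun x' _ => ?_, ?_⟩
        · have e2 : L2 K (.CQ x n h) (.R x n (by omega)) =
              HG.st (YY K x n (by omega) n (.CQ x n h)) := by
            rw [YY_self, st_L2 (VA_symm hva)]
          rw [e2]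
          exact hr n le_rfl
        · intro x' n' h' hen
          simp [Slot.vt] at hen
      · subst hn'
        refine ⟨?_, ?_⟩
        · intro x' hen
          simp [Slot.vt] at hen
        · intro x' n'' h'' hen m hm
          simp only [Slot.vt, Vtx.q.injEq] at hen
          obtain ⟨rfl, rfl⟩ := hen
          have e2 : L2 K (.CQ x (n' + 1) h) (.RQ x n' h') *
              HG.st (YY K x n' (by omega) m (.CQ x n' h'')) =
              HG.st (YY K x (n' + 1) (by omega) m (.CQ x (n' + 1) h)) := by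
            rw [YY_lt _ n' m h' hm, HG.st_mul, st_L2 (VA_symm hva)]
          rw [mul_assoc, e2]
          exact hr m (by omega)

theorem corner {x y : G.V} {r : HG.HA G.hg K} (hr : r ∈ HG.Cor (H := G.hg) (Vtx.o x) (Vtx.o y)) :
    ∃ f : G.Free K, phi K f = r := by
  have h : (LinearMap.id : HG.HA G.hg K →ₗ[K] HG.HA G.hg K) r ∈ Im G K := by
    apply HG.SP_map _ (Im G K) _ hr
    rintro ⟨z, l⟩ ⟨h1, h2, h3⟩
    simp only at h2
    subst h2
    exact (corner_word x l h1).1 y h3
  exact h

end WGraph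

end

end Pool.Agent.Lib.MP_f1fc44_al
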