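import Pool.Agent.Lib.MP_f1fc44_al.P

/-!
Part Q: normal forms in the weighted Leavitt path algebra, injectivity, and the main theorem.
-/

namespace Pool.Agent.Lib.MP_f1fc44_al

open scoped Classical

noncomputable section

universe u v w

namespace WGraph

variable {G : WGraph.{u, v}} {K : Type w} [Field K]

/-- letters -/
inductive Ltr (G : WGraph.{u, v})
  | E (e : G.E) (i : ℕ) (h : i < G.wt e)
  | S (e : G.E) (i : ℕ) (h : i < G.wt e)

def lsrc : G.Ltr → G.V
  | .E e _ _ => G.src e
  | .S e _ _ => G.rng e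

def ltgt : G.Ltr → G.V
  | .E e _ _ => G.rng e
  | .S e _ _ => G.src e

variable (K) in
def gl : G.Ltr → G.Free K
  | .E e i _ => G.ge K e i
  | .S e i _ => G.gs K e i

theorem wmax_pos (e : G.E) : 0 < G.wmax (G.src e) := by
  have := G.wt_le e
  have := G.wt_pos e
  omega

def IsTop (e : G.E) : Prop := e = G.top (G.src e) (wmax_pos e)

def Forb : G.Ltr → G.Ltr → Prop
  | .E e _ _, .S f _ _ => e = f ∧ IsTop e
  | .S e i _, .E f j _ => G.src e = G.src f ∧ i = 0 ∧ j = 0
  | _, _ => False

def Nod : G.V → List G.Ltr → Prop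
  | _, [] => True
  | x, a :: l => lsrc a = x ∧ (∀ b ∈ l.head?, ¬ Forb a b) ∧ Nod (ltgt a) l

variable (K) in
def pw : G.V → List G.Ltr → G.Free K
  | x, [] => G.gv K x
  | _, a :: l => gl K a * pw (ltgt a) l

/-! ### Words in the hypergraph -/

def lword : G.Ltr → List (G.Slot × G.Slot)
  | .E e i h => ph e i h
  | .S e i h => ((ph e i h).map Prod.swap).reverse

def fS : G.Ltr → G.Slot
  | .E e i h => .R (G.src e) i (lt_of_lt_of_le h (G.wt_le e))
  | .S e _ _ => .C e

def lS : G.Ltr → G.Slot
  | .E e _ _ => .C e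
  | .S e i h => .R (G.src e) i (lt_of_lt_of_le h (G.wt_le e))

theorem lword_spec (a : G.Ltr) :
    HG.Ok (H := G.hg) (Vtx.o (lsrc a), lword a) ∧
      HG.en (H := G.hg) (Vtx.o (lsrc a), lword a) = Vtx.o (ltgt a) ∧
      (lword a).getLast?.map Prod.snd = some (lS a) ∧
      (lword a).head?.map Prod.fst = some (fS a) ∧
      phi K (gl K a) = HG.sg (H := G.hg) (Vtx.o (lsrc a), lword a) := by
  cases a with
  | E e i h =>
    obtain ⟨h1, h2, h3, h', h4⟩ := ph_ok e i h
    refine ⟨h1, h2, h3, h4, ?_⟩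
    simp only [gl, phi_ge, XX, dif_pos h]
    rfl
  | S e i h =>
    obtain ⟨h1, h2, h3, h', h4⟩ := ph_ok e i h
    have e1 : HG.stW (H := G.hg) (Vtx.o (G.src e), ph e i h) =
        (Vtx.o (G.rng e), ((ph e i h).map Prod.swap).reverse) := by
      unfold HG.stW
      rw [h2]
    have h5 := HG.ok_stW (H := G.hg) _ h1
    have h6 := HG.en_stW (H := G.hg) _ h1
    rw [e1] at h5 h6
    refine ⟨h5, h6, ?_, ?_, ?_⟩
    · simp only [lword, lS, List.getLast?_reverse, List.head?_map, Option.map_map]
      rw [← h4]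
      congr 1
    · simp only [lword, fS, List.head?_reverse, List.getLast?_map, Option.map_map]
      rw [← h3]
      congr 1
    · simp only [gl, phi_gs, XX, dif_pos h]
      rw [HG.st_sg, if_pos h1, e1]
      rfl

theorem spc_R (x : G.V) (i : ℕ) (h : i < G.wmax x)
    (hs : HG.Spc (H := G.hg) (Slot.R x i h)) : i = 0 := by
  unfold HG.Spc at hs
  rcases i with _ | i
  · rfl
  · have : (Slot.R x (i + 1) h) = Slot.RQ x i h := hs
    simp at this

theorem spc_C (e : G.E) (hs : HG.Spc (H := G.hg) (Slot.C e)) : IsTop e := by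
  unfold HG.Spc at hs
  have h1 : Slot.C e = Side.sp (.mk false (G.src e) (G.wt e - 1) (lvl_lt e)) := hs
  simp only [Side.sp] at h1
  split_ifs at h1 with h2
  unfold IsTop
  simpa using h1

theorem NC_of_not_forb (a b : G.Ltr) (h : ¬ Forb a b) :
    ∀ p q : G.Slot × G.Slot, p.2 = lS a → q.1 = fS b → ¬ HG.Cf (H := G.hg) p q := by
  intro p q hp hq hcf
  obtain ⟨h1, h2⟩ := hcf
  rw [hp, hq] at h1
  rw [hp] at h2
  cases a with
  | E e i hi =>
    cases b with
    | E f j hj => simp [lS, fS] at h1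
    | S f j hj =>
      simp only [lS, fS, Slot.C.injEq] at h1
      exact h ⟨h1, spc_C e h2⟩
  | S e i hi =>
    cases b with
    | E f j hj =>
      simp only [lS, fS, Slot.R.injEq] at h1
      have h3 := spc_R _ _ _ h2
      exact h ⟨h1.1, h3, by omega⟩
    | S f j hj => simp [lS, fS] at h1

def PHI (x : G.V) (l : List G.Ltr) : G.Vtx × List (G.Slot × G.Slot) := (Vtx.o x, l.flatMap lword)

theorem lword_ne (a : G.Ltr) : lword a ≠ [] := by
  intro h
  have := (lword_spec (K := ℚ) a).2.2.2.1
  rw [h] at this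
  simp at this

theorem phi_pw (x : G.V) (l : List G.Ltr) (h : Nod x l) :
    HG.Ok (H := G.hg) (PHI x l) ∧ (∃ y, HG.en (H := G.hg) (PHI x l) = Vtx.o y) ∧
      phi K (pw K x l) = HG.sg (H := G.hg) (PHI x l) := by
  induction l generalizing x with
  | nil =>
    refine ⟨HG.ok_nil (H := G.hg) _, ⟨x, rfl⟩, ?_⟩
    exact phi_gv x
  | cons a l ih =>
    obtain ⟨h1, h2, h3⟩ := h
    subst h1
    obtain ⟨h4, h5, h6⟩ := ih _ h3
    obtain ⟨g1, g2, g3, g4, g5⟩ := lword_spec (K := K) a
    have hnc : HG.NC (H := G.hg) (lword a) (l.flatMap lword) := by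
      intro p hp q hq
      rcases l with _ | ⟨b, l⟩
      · simp at hq
      · have hb := h2 b (by simp)
        rw [List.flatMap_cons, HG.head_append (lword_ne b)] at hq
        apply NC_of_not_forb a b hb
        · rw [Option.mem_def] at hp
          rw [hp] at g3
          simpa using g3
        · have g6 := (lword_spec (K := ℚ) b).2.2.2.1
          rw [Option.mem_def] at hq
          rw [hq] at g6
          simpa using g6
    have hen : Vtx.o (ltgt a) = HG.en (H := G.hg) (Vtx.o (lsrc a), lword a) := g2.symm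
    have hP : PHI (lsrc a) (a :: l) = (Vtx.o (lsrc a), lword a ++ l.flatMap lword) := rfl
    refine ⟨?_, ?_, ?_⟩
    · rw [hP, HG.ok_append (H := G.hg) _ (Vtx.o (ltgt a)) _ _ hen]
      exact ⟨g1, h4, hnc⟩
    · rw [hP, HG.en_append (H := G.hg) _ (Vtx.o (ltgt a)) _ _ hen]
      exact h5
    · rw [pw, map_mul, g5, h6, hP]
      unfold PHI
      rw [HG.mul_nc (H := G.hg) _ _ _ _ g1 h4 hen hnc]

/-! ### Injectivity on words -/

def rl : G.Slot → List ((G.V × ℕ) ⊕ G.E)
  | .R x i _ => [Sum.inl (x, i)]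
  | .C e => [Sum.inr e]
  | _ => []

def rlL (l : List (G.Slot × G.Slot)) : List ((G.V × ℕ) ⊕ G.E) :=
  l.flatMap (fun a => rl a.1 ++ rl a.2)

theorem rl_rev (p : G.Slot) : (rl p).reverse = rl p := by
  cases p <;> rfl

theorem rlL_append (l l' : List (G.Slot × G.Slot)) : rlL (l ++ l') = rlL l ++ rlL l' := by
  simp [rlL]

theorem rlL_rev (l : List (G.Slot × G.Slot)) :
    rlL ((l.map Prod.swap).reverse) = (rlL l).reverse := by
  induction l with
  | nil => rfl
  | cons a l ih =>
    rw [List.map_cons, List.reverse_cons, rlL_append, ih]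
    simp [rlL, rl_rev]

theorem rlL_tl (e : G.E) (k i : ℕ) (h : G.wt e = i + k + 2) : rlL (tl e k i h) = [Sum.inr e] := by
  induction k generalizing i with
  | zero => rfl
  | succ k ih =>
    have := ih (i + 1) (by omega)
    unfold tl
    rw [show ∀ (a : G.Slot × G.Slot) l, rlL (a :: l) = rl a.1 ++ rl a.2 ++ rlL l from
      fun a l => by simp [rlL], this]
    rfl

theorem rlL_ph (e : G.E) (i : ℕ) (h : i < G.wt e) :
    rlL (ph e i h) = [Sum.inl (G.src e, i), Sum.inr e] := by
  unfold ph
  split_ifs with h1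
  · rfl
  · rw [show ∀ (a : G.Slot × G.Slot) l, rlL (a :: l) = rl a.1 ++ rl a.2 ++ rlL l from
      fun a l => by simp [rlL], rlL_tl]
    rfl

def code : G.Ltr → List ((G.V × ℕ) ⊕ G.E)
  | .E e i _ => [Sum.inl (G.src e, i), Sum.inr e]
  | .S e i _ => [Sum.inr e, Sum.inl (G.src e, i)]

theorem rlL_lword (a : G.Ltr) : rlL (lword a) = code a := by
  cases a with
  | E e i h => exact rlL_ph e i h
  | S e i h =>
    simp only [lword]
    rw [rlL_rev, rlL_ph]
    rfl

theorem code_inj (l l' : List G.Ltr) (h : l.flatMap code = l'.flatMap code) : l = l' := by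
  induction l generalizing l' with
  | nil =>
    rcases l' with _ | ⟨b, l'⟩
    · rfl
    · cases b <;> simp [code] at h
  | cons a l ih =>
    rcases l' with _ | ⟨b, l'⟩
    · cases a <;> simp [code] at h
    · rw [List.flatMap_cons, List.flatMap_cons] at h
      have hlen : (code a).length = (code b).length := by cases a <;> cases b <;> rfl
      obtain ⟨h1, h2⟩ := List.append_inj h hlen
      have h3 : a = b := by
        cases a with
        | E e i hi =>
          cases b with
          | E f j hj =>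
            simp only [code, List.cons.injEq, Sum.inl.injEq, Prod.mk.injEq, Sum.inr.injEq,
              and_true] at h1
            obtain ⟨⟨_, rfl⟩, rfl⟩ := h1
            rfl
          | S f j hj => simp [code] at h1
        | S e i hi =>
          cases b with
          | E f j hj => simp [code] at h1
          | S f j hj =>
            simp only [code, List.cons.injEq, Sum.inl.injEq, Prod.mk.injEq, Sum.inr.injEq,
              and_true] at h1
            obtain ⟨rfl, _, rfl⟩ := h1
            rfl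
      rw [h3, ih l' h2]

theorem PHI_inj {x x' : G.V} {l l' : List G.Ltr} (h : PHI x l = PHI x' l') : x = x' ∧ l = l' := by
  unfold PHI at h
  rw [Prod.mk.injEq, Vtx.o.injEq] at h
  refine ⟨h.1, ?_⟩
  apply code_inj
  have h2 := congrArg rlL h.2
  have h3 : ∀ l : List G.Ltr, rlL (l.flatMap lword) = l.flatMap code := by
    intro l
    induction l with
    | nil => rfl
    | cons a l ih => rw [List.flatMap_cons, rlL_append, ih, rlL_lword]; rfl
  rwa [h3, h3] at h2

/-! ### Spanning -/

variable (G K) in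
def rho (a b : G.Free K) : Prop := a - b ∈ G.relIdeal K

theorem rho_rfl (a : G.Free K) : rho G K a a := by
  unfold rho; rw [sub_self]; exact TwoSidedIdeal.zero_mem _

theorem rho_symm {a b : G.Free K} (h : rho G K a b) : rho G K b a := by
  unfold rho at *
  have := TwoSidedIdeal.neg_mem _ h
  rwa [neg_sub] at this

theorem rho_trans {a b c : G.Free K} (h : rho G K a b) (h2 : rho G K b c) : rho G K a c := by
  unfold rho at *
  have := TwoSidedIdeal.add_mem _ h h2
  rwa [sub_add_sub_cancel] at this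

theorem rho_mul_left {a b : G.Free K} (c : G.Free K) (h : rho G K a b) :
    rho G K (c * a) (c * b) := by
  unfold rho at *
  rw [← mul_sub]
  exact TwoSidedIdeal.mul_mem_left _ _ _ h

theorem rho_mul_right {a b : G.Free K} (c : G.Free K) (h : rho G K a b) :
    rho G K (a * c) (b * c) := by
  unfold rho at *
  rw [← sub_mul]
  exact TwoSidedIdeal.mul_mem_right _ _ _ h

theorem rho_of {a b : G.Free K} (h : G.Rel K a b) : rho G K a b := by
  apply TwoSidedIdeal.subset_span
  exact ⟨1, a, b, h, (one_smul _ _).symm⟩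

theorem ideal_smul (k : K) {x : G.Free K} (hx : x ∈ G.relIdeal K) : k • x ∈ G.relIdeal K := by
  have : ∀ x ∈ G.relIdeal K, ∀ k : K, k • x ∈ G.relIdeal K := by
    intro x hx
    unfold relIdeal at hx
    induction hx using TwoSidedIdeal.span_induction with
    | mem x h =>
      intro k
      obtain ⟨c, a, b, hab, rfl⟩ := h
      apply TwoSidedIdeal.subset_span
      exact ⟨k * c, a, b, hab, by rw [smul_smul]⟩
    | zero => intro k; rw [smul_zero]; exact TwoSidedIdeal.zero_mem _
    | add x y _ _ h1 h2 => intro k; rw [smul_add]; exact TwoSidedIdeal.add_mem _ (h1 k) (h2 k)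
    | neg x _ h1 => intro k; rw [smul_neg]; exact TwoSidedIdeal.neg_mem _ (h1 k)
    | left_absorb a x _ h1 =>
      intro k
      rw [← mul_smul_comm]
      exact TwoSidedIdeal.mul_mem_left _ _ _ (h1 k)
    | right_absorb b x _ h1 =>
      intro k
      rw [← smul_mul_assoc]
      exact TwoSidedIdeal.mul_mem_right _ _ _ (h1 k)
  exact this x hx k

variable (G K) in
def Jsub : Submodule K (G.Free K) where
  carrier := {x | x ∈ G.relIdeal K}
  add_mem' := by
    intro a b ha hb
    have ha' : a ∈ G.relIdeal K := ha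
    have hb' : b ∈ G.relIdeal K := hb
    show a + b ∈ G.relIdeal K
    exact TwoSidedIdeal.add_mem _ ha' hb'
  zero_mem' := by
    show (0 : G.Free K) ∈ G.relIdeal K
    exact TwoSidedIdeal.zero_mem _
  smul_mem' := by
    intro c x hx
    have hx' : x ∈ G.relIdeal K := hx
    show c • x ∈ G.relIdeal K
    exact ideal_smul c hx'

theorem mem_Jsub {x : G.Free K} : x ∈ Jsub G K ↔ x ∈ G.relIdeal K := Iff.rfl

variable (G) in
def NodW : Type _ := {x : G.V × List G.Ltr // Nod x.1 x.2}

variable (G K) in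
def NS : Submodule K (G.Free K) :=
  Submodule.span K (Set.range (fun x : G.NodW => pw K x.1.1 x.1.2))

variable (G K) in
def TS' : Submodule K (G.Free K) := NS G K ⊔ Jsub G K

theorem TS_of_J {a : G.Free K} (h : a ∈ G.relIdeal K) : a ∈ TS' G K :=
  (le_sup_right : Jsub G K ≤ TS' G K) (mem_Jsub.2 h)

theorem TS_of_nod {x : G.V} {l : List G.Ltr} (h : Nod x l) : pw K x l ∈ TS' G K :=
  (le_sup_left : NS G K ≤ TS' G K) (Submodule.subset_span ⟨⟨(x, l), h⟩, rfl⟩)

theorem TS_of_rho {a b : G.Free K} (h : rho G K a b) (hb : b ∈ TS' G K) : a ∈ TS' G K := by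
  have h1 : a = b + (a - b) := by abel
  rw [h1]
  exact Submodule.add_mem _ hb (TS_of_J h)

theorem gl_left (a : G.Ltr) : rho G K (G.gv K (lsrc a) * gl K a) (gl K a) := by
  cases a with
  | E e i h => exact rho_of (Rel.src_edge e i)
  | S e i h => exact rho_of (Rel.rng_ghost e i)

theorem gl_right (a : G.Ltr) : rho G K (gl K a * G.gv K (ltgt a)) (gl K a) := by
  cases a with
  | E e i h => exact rho_of (Rel.edge_rng e i)
  | S e i h => exact rho_of (Rel.ghost_src e i)

theorem pw_left (x : G.V) (l : List G.Ltr) (h : Nod x l) :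
    rho G K (G.gv K x * pw K x l) (pw K x l) := by
  cases l with
  | nil => exact rho_of (Rel.vert_self x)
  | cons a l =>
    obtain ⟨h1, h2, h3⟩ := h
    subst h1
    unfold pw
    rw [← mul_assoc]
    exact rho_mul_right _ (gl_left a)

theorem pw_left_ne (x y : G.V) (hxy : x ≠ y) (l : List G.Ltr) (h : Nod y l) :
    rho G K (G.gv K x * pw K y l) 0 := by
  have h1 := rho_mul_left (G.gv K x) (rho_symm (pw_left (K := K) y l h))
  refine rho_trans h1 ?_
  rw [← mul_assoc]
  have h2 := rho_mul_right (pw K y l) (rho_of (Rel.vert_ne (K := K) x y hxy))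
  rwa [zero_mul] at h2

theorem forb_E (f : G.E) (i j : ℕ) (hi : i < G.wt f) (hj : j < G.wt f) 
    (b : G.Ltr) (h : ¬ Forb (.E f i hi) b) : ¬ Forb (.E f j hj) b := by
  cases b with
  | E e k hk => exact fun h => h
  | S e k hk => exact h

theorem vert_mul (x y : G.V) (l : List G.Ltr) (h : Nod y l) :
    G.gv K x * pw K y l ∈ TS' G K := by
  by_cases hxy : x = y
  · subst hxy
    exact TS_of_rho (pw_left x l h) (TS_of_nod h)
  · exact TS_of_rho (pw_left_ne x y hxy l h) (Submodule.zero_mem _)

/-- products of two letters with a normal word, in terms of the elements `ge`, `gs` -/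
theorem ES_mem (f : G.E) (i j : ℕ) (hf : ¬ IsTop f) (l : List G.Ltr) (hl : Nod (G.src f) l)
    (hh : ∀ b ∈ l.head?, ∀ h : j < G.wt f, ¬ Forb (.S f j h) b) :
    G.ge K f i * (G.gs K f j * pw K (G.src f) l) ∈ TS' G K := by
  by_cases hi : i < G.wt f
  swap
  · rw [ge, dif_neg hi, zero_mul]; exact Submodule.zero_mem _
  by_cases hj : j < G.wt f
  swap
  · rw [gs, dif_neg hj, zero_mul, mul_zero]; exact Submodule.zero_mem _
  have hn : Nod (G.src f) (.E f i hi :: .S f j hj :: l) := by
    refine ⟨rfl, ?_, rfl, fun b hb => hh b hb hj, hl⟩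
    intro b hb
    simp only [List.head?_cons, Option.mem_def, Option.some.injEq] at hb
    subst hb
    exact fun h => hf h.2
  exact TS_of_nod (K := K) hn

theorem SE_mem (e f : G.E) (k : ℕ) (hk : k ≠ 0) (hef : G.src e = G.src f) (l : List G.Ltr)
    (hl : Nod (G.rng f) l)
    (hh : ∀ b ∈ l.head?, ∀ h : k < G.wt f, ¬ Forb (.E f k h) b) :
    G.gs K e k * (G.ge K f k * pw K (G.rng f) l) ∈ TS' G K := by
  by_cases hi : k < G.wt e
  swap
  · rw [gs, dif_neg hi, zero_mul]; exact Submodule.zero_mem _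
  by_cases hj : k < G.wt f
  swap
  · rw [ge, dif_neg hj, zero_mul, mul_zero]; exact Submodule.zero_mem _
  have hn : Nod (G.rng e) (.S e k hi :: .E f k hj :: l) := by
    refine ⟨rfl, ?_, hef.symm, fun b hb => hh b hb hj, hl⟩
    intro b hb
    simp only [List.head?_cons, Option.mem_def, Option.some.injEq] at hb
    subst hb
    exact fun h => hk h.2.1
  exact TS_of_nod (K := K) hn

theorem letter_mul (a : G.Ltr) (x : G.V) (l : List G.Ltr) (h : Nod x l) :
    gl K a * pw K x l ∈ TS' G K := by
  by_cases hax : ltgt a = x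
  swap
  · have h1 : rho G K (gl K a * pw K x l) (gl K a * G.gv K (ltgt a) * pw K x l) :=
      rho_mul_right _ (rho_symm (gl_right a))
    refine TS_of_rho h1 ?_
    rw [mul_assoc]
    refine TS_of_rho (rho_mul_left _ (pw_left_ne _ _ hax l h)) ?_
    rw [mul_zero]
    exact Submodule.zero_mem _
  subst hax
  by_cases hF : ∀ b ∈ l.head?, ¬ Forb a b
  · have hn : Nod (lsrc a) (a :: l) := ⟨rfl, hF, h⟩
    exact TS_of_nod (K := K) hn
  push Not at hF
  obtain ⟨b, hb, hab⟩ := hF
  rcases l with _ | ⟨b', l⟩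
  · simp at hb
  simp only [List.head?_cons, Option.mem_def, Option.some.injEq] at hb
  subst hb
  obtain ⟨h1, h2, h3⟩ := h
  cases a with
  | E e i hi =>
    cases b' with
    | E f j hj => exact absurd hab (fun h => h)
    | S f j hj =>
      obtain ⟨rfl, htop⟩ := hab
      -- relation (3)
      have hiW : i < G.wmax (G.src e) := lt_of_lt_of_le hi (G.wt_le e)
      have hjW : j < G.wmax (G.src e) := lt_of_lt_of_le hj (G.wt_le e)
      have hrel := rho_of (Rel.ck1 (K := K) (G.src e) i j hiW hjW)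
      have he : e ∈ G.out (G.src e) := (G.mem_out _ _).2 rfl
      rw [← Finset.add_sum_erase _ _ he] at hrel
      have h4 := rho_mul_right (pw K (G.src e) l) hrel
      have h5 : rho G K (G.ge K e i * G.gs K e j * pw K (G.src e) l)
          ((if i = j then G.gv K (G.src e) else 0) * pw K (G.src e) l -
          ∑ f ∈ (G.out (G.src e)).erase e, G.ge K f i * (G.gs K f j * pw K (G.src e) l)) := by
        unfold rho at h4 ⊢
        rw [add_mul, Finset.sum_mul] at h4
        simp only [mul_assoc] at h4 ⊢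
        rw [sub_sub_eq_add_sub]
        exact h4
      have h6 : gl K (.E e i hi) * pw K (ltgt (.E e i hi)) (.S e j hj :: l) =
          G.ge K e i * G.gs K e j * pw K (G.src e) l := by
        rw [mul_assoc]; rfl
      rw [h6]
      refine TS_of_rho h5 (Submodule.sub_mem _ ?_ (Submodule.sum_mem _ ?_))
      · split_ifs
        · exact vert_mul _ _ _ h3
        · rw [zero_mul]; exact Submodule.zero_mem _
      · intro f hf
        rw [Finset.mem_erase, mem_out] at hf
        obtain ⟨hf1, hf2⟩ := hf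
        have hfT : ¬ IsTop f := by
          intro h7
          apply hf1
          unfold IsTop at h7 htop
          rw [h7, htop]
          congr 1
        rw [← hf2]
        apply ES_mem f i j hfT l
        · rw [hf2]; exact h3
        · intro b hb hj' hF
          apply h2 b hb
          cases b with
          | E g k hk =>
            obtain ⟨g1, g2, g3⟩ := hF
            exact ⟨by rw [← hf2]; exact g1, g2, g3⟩
          | S g k hk => exact hF
  | S e i hi =>
    cases b' with
    | S f j hj => exact absurd hab (fun h => h)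
    | E f j hj =>
      obtain ⟨hef, hi0, hj0⟩ := hab
      subst hi0 hj0
      have hrel := rho_of (Rel.ck2 (K := K) (G.src f) e f hef rfl)
      have h0 : 0 ∈ Finset.range (G.wmax (G.src f)) := by
        rw [Finset.mem_range]
        exact wmax_pos f
      rw [← Finset.add_sum_erase _ _ h0] at hrel
      have h4 := rho_mul_right (pw K (G.rng f) l) hrel
      have h5 : rho G K (G.gs K e 0 * G.ge K f 0 * pw K (G.rng f) l)
          ((if e = f then G.gv K (G.rng e) else 0) * pw K (G.rng f) l -
          ∑ k ∈ (Finset.range (G.wmax (G.src f))).erase 0,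
            G.gs K e k * (G.ge K f k * pw K (G.rng f) l)) := by
        unfold rho at h4 ⊢
        rw [add_mul, Finset.sum_mul] at h4
        simp only [mul_assoc] at h4 ⊢
        rw [sub_sub_eq_add_sub]
        exact h4
      have h6 : gl K (.S e 0 hi) * pw K (ltgt (.S e 0 hi)) (.E f 0 hj :: l) =
          G.gs K e 0 * G.ge K f 0 * pw K (G.rng f) l := by
        rw [mul_assoc]; rfl
      rw [h6]
      refine TS_of_rho h5 (Submodule.sub_mem _ ?_ (Submodule.sum_mem _ ?_))
      · split_ifs
        · exact vert_mul _ _ _ h3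
        · rw [zero_mul]; exact Submodule.zero_mem _
      · intro k hk
        rw [Finset.mem_erase] at hk
        apply SE_mem e f k hk.1 hef l h3
        intro b hb hk' hF
        apply h2 b hb
        cases b with
        | E g m hm => exact hF
        | S g m hm => exact hF

theorem gen_cases (g : G.Gen) : (∃ x, g = .vert x) ∨ ∃ a : G.Ltr, G.gen K g = gl K a := by
  cases g with
  | vert x => exact Or.inl ⟨x, rfl⟩
  | edge e i =>
    right
    refine ⟨.E e i i.2, ?_⟩
    simp only [gl, ge, dif_pos i.2]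
  | ghost e i =>
    right
    refine ⟨.S e i i.2, ?_⟩
    simp only [gl, gs, dif_pos i.2]

theorem gen_mul_mem (g : G.Gen) (f : G.Free K) (hf : f ∈ TS' G K) :
    G.gen K g * f ∈ TS' G K := by
  have h1 : TS' G K ≤ (TS' G K).comap (LinearMap.mulLeft K (G.gen K g)) := by
    unfold TS'
    rw [sup_le_iff]
    constructor
    · unfold NS
      rw [Submodule.span_le]
      rintro _ ⟨⟨⟨x, l⟩, hx⟩, rfl⟩
      show G.gen K g * pw K x l ∈ TS' G K
      rcases gen_cases (K := K) g with ⟨y, rfl⟩ | ⟨a, ha⟩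
      · exact vert_mul y x l hx
      · rw [ha]; exact letter_mul a x l hx
    · intro y hy
      show G.gen K g * y ∈ TS' G K
      exact TS_of_J (TwoSidedIdeal.mul_mem_left _ _ _ (mem_Jsub.1 hy))
  exact h1 hf

theorem gen_mem (g : G.Gen) : G.gen K g ∈ TS' G K := by
  rcases gen_cases (K := K) g with ⟨y, rfl⟩ | ⟨a, ha⟩
  · exact TS_of_nod (K := K) (x := y) (l := []) trivial
  · rw [ha]
    refine TS_of_rho (rho_symm (gl_right a)) ?_
    have hn : Nod (lsrc a) [a] := ⟨rfl, by simp, trivial⟩
    exact TS_of_nod (K := K) hn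

theorem TS_top (f : G.Free K) : f ∈ TS' G K := by
  induction f using MonoidAlgebra.induction_linear with
  | zero => exact Submodule.zero_mem _
  | add f g hf hg => exact Submodule.add_mem _ hf hg
  | single w c =>
    have h1 : (MonoidAlgebra.single w c : G.Free K) = c • MonoidAlgebra.single w 1 := by
      simp
    rw [h1]
    clear h1
    apply Submodule.smul_mem
    induction w using FreeSemigroup.recOnMul with
    | ih1 x => exact gen_mem x
    | ih2 x y _ hy =>
      have h2 : (MonoidAlgebra.single (FreeSemigroup.of x * y) 1 : G.Free K) =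
          G.gen K x * MonoidAlgebra.single y 1 := by
        unfold gen
        rw [MonoidAlgebra.single_mul_single, one_mul]
      rw [h2]
      exact gen_mul_mem x _ hy

theorem normal_form (f : G.Free K) : ∃ c : G.NodW →₀ K,
    rho G K f (c.sum (fun x a => a • pw K x.1.1 x.1.2)) := by
  have h := TS_top f
  unfold TS' at h
  rw [Submodule.mem_sup] at h
  obtain ⟨y, hy, z, hz, rfl⟩ := h
  unfold NS at hy
  rw [Finsupp.mem_span_range_iff_exists_finsupp] at hy
  obtain ⟨c, hc⟩ := hy
  refine ⟨c, ?_⟩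
  rw [hc]
  unfold rho
  rw [add_sub_cancel_left]
  exact mem_Jsub.1 hz

theorem phi_normal (c : G.NodW →₀ K) :
    phi K (c.sum (fun x a => a • pw K x.1.1 x.1.2)) =
      c.sum (fun x a => a • HG.sg (H := G.hg) (PHI x.1.1 x.1.2)) := by
  unfold Finsupp.sum
  rw [map_sum]
  apply Finset.sum_congr rfl
  intro x _
  rw [map_smul, (phi_pw x.1.1 x.1.2 x.2).2.2]

theorem co_normal (c : G.NodW →₀ K) (y : G.NodW) :
    HG.co (c.sum (fun x a => a • HG.sg (H := G.hg) (K := K) (PHI x.1.1 x.1.2)))
      (PHI y.1.1 y.1.2) = c y := by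
  unfold Finsupp.sum
  rw [HG.co_sum]
  simp only [HG.co_smul, HG.co_sg]
  rw [Finset.sum_eq_single y]
  · rw [if_pos rfl, mul_one]
  · intro x _ hxy
    rw [if_neg, mul_zero]
    intro h
    have := PHI_inj h
    apply hxy
    apply Subtype.ext
    exact Prod.ext this.1 this.2
  · intro h
    rw [if_pos rfl, mul_one]
    exact Finsupp.notMem_support_iff.1 h

theorem phi_inj {f : G.Free K} (h : phi K f = 0) : f ∈ G.relIdeal K := by
  obtain ⟨c, hc⟩ := normal_form f
  have h1 : phi K (f - c.sum (fun x a => a • pw K x.1.1 x.1.2)) = 0 := phi_ideal hc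
  rw [map_sub, h, zero_sub, neg_eq_zero, phi_normal] at h1
  have h2 : c = 0 := by
    apply Finsupp.ext
    intro y
    rw [← co_normal c y, h1]
    rfl
  subst h2
  unfold rho at hc
  simpa using hc

theorem phi_supp (f : G.Free K) (z : G.hg.Wd) (hz : HG.co (phi K f) z ≠ 0) :
    HG.Ok z ∧ ∃ x y, z.1 = Vtx.o x ∧ HG.en z = Vtx.o y := by
  obtain ⟨c, hc⟩ := normal_form f
  have h1 : phi K (f - c.sum (fun x a => a • pw K x.1.1 x.1.2)) = 0 := phi_ideal hc
  rw [map_sub, sub_eq_zero, phi_normal] at h1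
  rw [h1] at hz
  unfold Finsupp.sum at hz
  rw [HG.co_sum] at hz
  obtain ⟨x, _, hx⟩ := Finset.exists_ne_zero_of_sum_ne_zero hz
  rw [HG.co_smul, HG.co_sg] at hx
  have h2 : PHI x.1.1 x.1.2 = z := by
    by_contra h
    apply hx
    rw [if_neg h, mul_zero]
  obtain ⟨g1, ⟨y, g2⟩, g3⟩ := phi_pw (K := K) x.1.1 x.1.2 x.2
  rw [← h2]
  exact ⟨g1, x.1.1, y, rfl, g2⟩

/-! ### The main theorem -/

theorem jacobson_NQ {H : HG} {a b W0 : HG.HA H K} (h1 : b * a + W0 - b * a * W0 = 0)
    (h2 : b * a + W0 - W0 * (b * a) = 0) : ¬ HG.NQ (a * b) := by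
  intro h
  apply h
  refine ⟨-(a * b) + a * W0 * b, ?_, ?_⟩
  · have : a * b + (-(a * b) + a * W0 * b) - a * b * (-(a * b) + a * W0 * b) =
        a * (b * a + W0 - b * a * W0) * b := by
      simp only [mul_add, mul_sub, add_mul, sub_mul, mul_neg, mul_assoc]
      abel
    rw [this, h1, mul_zero, zero_mul]
  · have : a * b + (-(a * b) + a * W0 * b) - (-(a * b) + a * W0 * b) * (a * b) =
        a * (b * a + W0 - W0 * (b * a)) * b := by
      simp only [mul_add, mul_sub, add_mul, sub_mul, neg_mul, mul_assoc]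
      abel
    rw [this, h2, mul_zero, zero_mul]

theorem co_corner {H : HG} (m : HG.HA H K) (u v : H.V) (z : H.Wd) (h1 : HG.Ok z) (h2 : z.1 = u)
    (h3 : HG.en z = v) : HG.co (HG.vx u * m * HG.vx v) z = HG.co m z := by
  have : HG.coL z ∘ₗ (HG.OP.flip (HG.vx v) ∘ₗ HG.OP (HG.vx u)) =
      (HG.coL z : HG.HA H K →ₗ[K] K) := by
    apply HG.hom_ext
    intro x
    simp only [LinearMap.comp_apply, LinearMap.flip_apply, HG.coL_apply, ← HG.mul_def]
    rw [HG.vx_mul, HG.proj_sg]
    by_cases hx : HG.Ok x ∧ x.1 = u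
    · rw [if_pos hx, HG.sg_mul_vx]
      by_cases hx2 : HG.en x = v
      · rw [if_pos ⟨hx.1, hx2⟩]
      · rw [if_neg (fun h => hx2 h.2), HG.co_zero, HG.co_sg, if_neg]
        rintro rfl
        exact hx2 h3
    · rw [if_neg hx, zero_mul, HG.co_zero, HG.co_sg, if_neg]
      rintro rfl
      exact hx ⟨h1, h2⟩
  have h4 := congrArg (fun f => f m) this
  simp only [LinearMap.comp_apply, LinearMap.flip_apply, HG.coL_apply, ← HG.mul_def] at h4
  exact h4

variable (G K) in
theorem semiprimitive_Lpa : Semiprimitive (G.Lpa K) := by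
  intro I hI
  rw [eq_bot_iff]
  intro x hx
  obtain ⟨f, rfl⟩ : ∃ f : G.Free K, ((f : (G.relIdeal K).ringCon.Quotient)) = x :=
    Quotient.mk''_surjective x
  rw [TwoSidedIdeal.mem_bot]
  by_contra hne
  have hf : phi K f ≠ 0 := by
    intro h
    apply hne
    have h1 := phi_inj h
    rw [← RingCon.coe_zero, RingCon.eq]
    rw [TwoSidedIdeal.rel_iff, sub_zero]
    exact h1
  obtain ⟨z, hz⟩ := HG.exists_co hf
  obtain ⟨hz1, x, y, hz2, hz3⟩ := phi_supp f z hz
  set A := phi K (G.gv K x * f * G.gv K y) with hA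
  have hA' : A = HG.vx (H := G.hg) (Vtx.o x) * phi K f * HG.vx (H := G.hg) (Vtx.o y) := by
    rw [hA, map_mul, map_mul, phi_gv, phi_gv]
    rfl
  have hAc : A ∈ HG.Cor (H := G.hg) (Vtx.o x) (Vtx.o y) := by
    rw [hA', mul_assoc]
    rw [HG.Cor, HG.mem_SP]
    intro w hw
    obtain ⟨w1, w2, g1, g2, g3, g4, g5, g6, g7, g8, g9, g10⟩ := HG.mul_co' hw
    obtain ⟨w3, w4, k1, k2, k3, k4, k5, k6, k7, k8, k9, k10⟩ := HG.mul_co' g2
    refine ⟨g7, ?_, ?_⟩
    · rw [g8, HG.co_vx_ne g1]
    · rw [g10, k10, HG.co_vx_ne k2]; rfl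
  have hA0 : A ≠ 0 := by
    intro h
    have h1 := co_corner (H := G.hg) (phi K f) (Vtx.o x) (Vtx.o y) z hz1 hz2 hz3
    rw [← hA', h, HG.co_zero] at h1
    exact hz h1.symm
  obtain ⟨w, z', z2, hz', hz2', hNQ⟩ := HG.main_hg ori hAc hA0
  have hzz : z2 * z' ∈ HG.Cor (H := G.hg) (Vtx.o y) (Vtx.o x) := HG.cor_mul hz2' hz'
  obtain ⟨c, hc⟩ := corner hzz
  set Y : G.Free K := G.gv K x * f * G.gv K y * c with hY
  have hYI : ((Y : G.Free K) : (G.relIdeal K).ringCon.Quotient) ∈ I := by
    rw [hY]
    simp only [RingCon.coe_mul]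
    exact TwoSidedIdeal.mul_mem_right _ _ _
      (TwoSidedIdeal.mul_mem_right _ _ _ (TwoSidedIdeal.mul_mem_left _ _ _ hx))
  have hq := hI _ (TwoSidedIdeal.neg_mem _ hYI)
  rw [isQuasiregular_iff] at hq
  obtain ⟨t, ht1, ht2⟩ := hq
  obtain ⟨g, rfl⟩ : ∃ g : G.Free K, ((g : (G.relIdeal K).ringCon.Quotient)) = t :=
    Quotient.mk''_surjective t
  have hphiY : phi K Y = A * (z2 * z') := by
    rw [hY, map_mul, hc]
  have e1 : phi K g + -(phi K Y) + -(phi K Y) * phi K g = 0 := by
    have h1 : g + -Y + -Y * g ∈ G.relIdeal K := by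
      rw [← sub_zero (g + -Y + -Y * g), ← TwoSidedIdeal.rel_iff, ← RingCon.eq]
      simp only [RingCon.coe_add, RingCon.coe_mul, RingCon.coe_neg, RingCon.coe_zero]
      exact ht1
    have h2 := phi_ideal h1
    simpa only [map_add, map_mul, map_neg] using h2
  have e2 : -(phi K Y) + phi K g + phi K g * -(phi K Y) = 0 := by
    have h1 : -Y + g + g * -Y ∈ G.relIdeal K := by
      rw [← sub_zero (-Y + g + g * -Y), ← TwoSidedIdeal.rel_iff, ← RingCon.eq]
      simp only [RingCon.coe_add, RingCon.coe_mul, RingCon.coe_neg, RingCon.coe_zero]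
      exact ht2
    have h2 := phi_ideal h1
    simpa only [map_add, map_mul, map_neg] using h2
  have e3 : (A * z2) * z' + -(phi K g) - (A * z2) * z' * -(phi K g) = 0 := by
    rw [mul_assoc A z2 z', ← hphiY]
    have : phi K Y + -(phi K g) - phi K Y * -(phi K g) =
        -(phi K g + -(phi K Y) + -(phi K Y) * phi K g) := by
      simp only [mul_neg, neg_mul]
      abel
    rw [this, e1, neg_zero]
  have e4 : (A * z2) * z' + -(phi K g) - -(phi K g) * ((A * z2) * z') = 0 := by
    rw [mul_assoc A z2 z', ← hphiY]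
    have : phi K Y + -(phi K g) - -(phi K g) * phi K Y =
        -(-(phi K Y) + phi K g + phi K g * -(phi K Y)) := by
      simp only [mul_neg, neg_mul]
      abel
    rw [this, e2, neg_zero]
  have h5 := jacobson_NQ (a := z') (b := A * z2) e3 e4
  apply h5
  rw [← mul_assoc]
  exact hNQ

end WGraph

end

end Pool.Agent.Lib.MP_f1fc44_al
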